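import Pool.Agent.Lib.MP_f11a48_ag.CMK.Spec

/-!
# Module KND: two different odd delta functions do not agree on the Lie algebra (helper28)
-/

set_option autoImplicit false

namespace Pool.Agent.Lib.MPf11a48.CMK

open Matrix MvPolynomial
open Pool.Agent.Lib.MPf11a48.CM hiding OmegaM
open Pool.Agent.Lib.MPf11a48.GL2T
open Pool.Agent.Lib.MPf11a48.U
open Pool.Agent.Lib.MPf11a48.CMM
open Pool.Agent.Lib.MPf11a48.Tors (IsTorsor ClosedOver grp OmegaM FixesField)
open Pool.Agent.Lib.MPf11a48.K3 (cx)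
open TORM
open scoped Classical

namespace KndM

section

variable {ι : Type} [Fintype ι] [DecidableEq ι] {c : GL ι ℂ} {ψ : Matrix ι ι ℚ}

/-- Two eigenvalues which agree on the whole Lie algebra. -/
theorem eq_of_agree {F : IntermediateField ℚ ℂ} (S : Str c ψ) {kk : Submodule ℂ (Matrix ι ι ℂ)}
    {J : Matrix ι ι ℝ} (hHD : HD c J ψ) (hkk : LieOK c F kk) {s t : S.σ}
    (hst : ∀ x y, S.Ψ (x, y) ∈ kk → y s = y t) : s = t := by
  have hcomm := (specSIM c J ψ hHD).1
  -- the subalgebra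
  let B : Subalgebra ℂ ((S.κ → Matrix (Fin 2) (Fin 2) ℂ) × (S.σ → ℂ)) :=
    { carrier := {u | u.2 s = u.2 t}
      mul_mem' := fun {a b} ha hb => by
        change a.2 s * b.2 s = a.2 t * b.2 t
        rw [show a.2 s = a.2 t from ha, show b.2 s = b.2 t from hb]
      add_mem' := fun {a b} ha hb => by
        change a.2 s + b.2 s = a.2 t + b.2 t
        rw [show a.2 s = a.2 t from ha, show b.2 s = b.2 t from hb]
      algebraMap_mem' := fun r => rfl }
  have h1 : Algebra.adjoin ℂ (kk : Set (Matrix ι ι ℂ)) ≤ B.map S.Ψ := by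
    refine Algebra.adjoin_le ?_
    intro X hX
    obtain ⟨u, hu⟩ := (S.mem_range X).2 (fun B hB => hcomm _ (hkk.inH _ hX) B hB)
    refine ⟨u, ?_, hu⟩
    change u.2 s = u.2 t
    refine hst u.1 u.2 ?_
    rw [show ((u.1, u.2) : (S.κ → Matrix (Fin 2) (Fin 2) ℂ) × (S.σ → ℂ)) = u from rfl, hu]
    exact hX
  have h2 := hkk.gen (S.Ψ (0, Pi.single s 1)) ((S.mem_range _).1 ⟨_, rfl⟩)
  obtain ⟨u, hu, he⟩ := h1 h2
  have h3 := S.inj he
  subst h3
  have h4 : (Pi.single s 1 : S.σ → ℂ) s = (Pi.single s 1 : S.σ → ℂ) t := hu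
  by_contra hne
  rw [Pi.single_eq_same, Pi.single_eq_of_ne (Ne.symm hne)] at h4
  exact one_ne_zero h4

/-- The central part of an element of the Lie algebra. -/
theorem decomp (S : Str c ψ) {kk : Submodule ℂ (Matrix ι ι ℂ)} {J : Matrix ι ι ℝ} (h : HD c J ψ)
    (hsl : ∀ x : S.κ → Matrix (Fin 2) (Fin 2) ℂ, (∀ k, (x k).trace = 0) → S.Ψ (x, 0) ∈ kk)
    {x : S.κ → Matrix (Fin 2) (Fin 2) ℂ} {y : S.σ → ℂ} (hx : S.Ψ (x, y) ∈ kk) {m : ℂ}
    (hm : (S.Ψ (x, y))ᵀ * mC ψ + mC ψ * S.Ψ (x, y) = m • mC ψ) :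
    (∀ s, y s + y (S.τ s) = m) ∧ cenL S (Sum.elim (fun _ => m / 2) y) ∈ kk := by
  obtain ⟨h1, h2⟩ := mult_eq S h.det hm
  refine ⟨h2, ?_⟩
  have h3 : cenL S (Sum.elim (fun _ => m / 2) y) =
      S.Ψ (x, y) + (-1 : ℂ) • S.Ψ (fun k => x k - (m / 2) • 1, 0) := by
    rw [cenL_apply, cen, ← map_smul, ← map_add]
    congr 1
    refine Prod.ext ?_ ?_
    · funext k
      simp
    · funext s
      simp
  rw [h3]
  refine kk.add_mem hx (kk.smul_mem _ (hsl _ fun k => ?_))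
  rw [Matrix.trace_sub, h1, Matrix.trace_smul, Matrix.trace_one]
  simp

end

end KndM

open KndM

/-- KND. -/
theorem specKnd (hKSL : SpecKsl) : SpecKnd := by
  have hB : SpecBIC := BicM.specBIC specLIN specDER specSIM
  intro ι _ _ c J ψ F S kk h hkk s s' t t' hs ht hd
  have hsl := hKSL ι c J ψ F S kk h hkk
  by_contra hdn
  -- indices
  obtain ⟨e, rfl⟩ := S.ev.surjective s
  obtain ⟨e', rfl⟩ := S.ev.surjective t
  have hs' : s' = S.ev (bar S e) := isBar_unique hB h hs (isBar_bar S e)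
  have ht' : t' = S.ev (bar S e') := isBar_unique hB h ht (isBar_bar S e')
  subst hs' ht'
  -- the relation on all central elements
  have hrel : ∀ x : S.κ ⊕ S.σ → ℂ, cenL S x ∈ kk →
      x e - x (bar S e) - (x e' - x (bar S e')) = 0 := by
    intro x hx
    have h1 := hd (fun i => x (S.ev.symm i)) (by
      simp only [Equiv.symm_apply_apply]
      exact hx)
    rw [← Equiv.sum_comp S.ev] at h1
    simp only [Equiv.symm_apply_apply] at h1
    have h2 : ∀ i₀, ∑ i, (((Pi.single (S.ev i₀) 1 : EmbC c.1 → ℚ) (S.ev i) : ℚ) : ℂ) * x i =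
        x i₀ := by
      intro i₀
      rw [Finset.sum_eq_single i₀]
      · simp
      · intro b _ hb
        rw [Pi.single_eq_of_ne (S.ev.injective.ne hb)]
        simp
      · intro h3
        exact absurd (Finset.mem_univ _) h3
    rw [← h1]
    simp only [delta, Pi.sub_apply]
    push_cast
    simp only [sub_mul, Finset.sum_sub_distrib, h2]
  -- all elements of the Lie algebra
  have hall : ∀ x y, S.Ψ (x, y) ∈ kk → ∃ m : ℂ, cenL S (Sum.elim (fun _ => m / 2) y) ∈ kk ∧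
      (∀ i, (Sum.elim (fun _ => m / 2) y : S.κ ⊕ S.σ → ℂ) i +
        (Sum.elim (fun _ => m / 2) y : S.κ ⊕ S.σ → ℂ) (bar S i) = m) := by
    intro x y hx
    obtain ⟨m, hm⟩ := (specSIM c J ψ h).2.1 _ (hkk.inH _ hx)
    obtain ⟨h1, h2⟩ := decomp S h hsl hx hm
    refine ⟨m, h2, ?_⟩
    rintro (k | s)
    · exact add_halves m
    · exact h1 s
  have key : ∀ x y, S.Ψ (x, y) ∈ kk → ∃ m : ℂ,
      (Sum.elim (fun _ => m / 2) y : S.κ ⊕ S.σ → ℂ) e =
        (Sum.elim (fun _ => m / 2) y : S.κ ⊕ S.σ → ℂ) e' ∧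
      (Sum.elim (fun _ => m / 2) y : S.κ ⊕ S.σ → ℂ) (bar S e) =
        (Sum.elim (fun _ => m / 2) y : S.κ ⊕ S.σ → ℂ) (bar S e') := by
    intro x y hx
    obtain ⟨m, h1, h2⟩ := hall x y hx
    have h3 := hrel _ h1
    have h4 := h2 e
    have h5 := h2 e'
    refine ⟨m, ?_, ?_⟩
    · linear_combination h3 / 2 + h4 / 2 - h5 / 2
    · linear_combination -h3 / 2 + h4 / 2 - h5 / 2
  rcases e with k | s <;> rcases e' with k' | t
  · apply hdn
    change delta (S.ev (Sum.inl k)) (S.ev (Sum.inl k)) =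
      delta (S.ev (Sum.inl k')) (S.ev (Sum.inl k'))
    simp [delta]
  · refine S.τ_ne t (KndM.eq_of_agree S h hkk fun x y hx => ?_)
    obtain ⟨m, h1, h2⟩ := key x y hx
    exact (h2.symm.trans h1 : _)
  · refine S.τ_ne s (KndM.eq_of_agree S h hkk fun x y hx => ?_)
    obtain ⟨m, h1, h2⟩ := key x y hx
    exact (h2.trans h1.symm : _)
  · have h6 : s = t := KndM.eq_of_agree S h hkk fun x y hx => by
      obtain ⟨m, h1, h2⟩ := key x y hx
      exact h1
    apply hdn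
    rw [h6]

end Pool.Agent.Lib.MPf11a48.CMK
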