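import Pool.Agent.Lib.MP_f11a48_ag.CMK.Spec

/-!
# Module KSL: the semisimple part of the Lie algebra (helper28)
-/

set_option autoImplicit false

namespace Pool.Agent.Lib.MPf11a48.CMK

open Matrix MvPolynomial
open Pool.Agent.Lib.MPf11a48.CM hiding OmegaM
open Pool.Agent.Lib.MPf11a48.GL2T
open Pool.Agent.Lib.MPf11a48.U
open Pool.Agent.Lib.MPf11a48.CMM
open Pool.Agent.Lib.MPf11a48.Tors (IsTorsor ClosedOver grp OmegaM FixesField)
open Pool.Agent.Lib.MPf11a48.K3 (cx)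
open REPM MainnM ReprM

/-- KSL. -/
theorem specKsl : SpecKsl := by
  have hSIM : SpecSIM := specSIM
  have hGOU : SpecGOU := specGOU
  intro ι _ _ c J ψ F S kk hHD hkk
  obtain ⟨hcomm, hsimil, -⟩ := hSIM c J ψ hHD
  have hψdet : (mC ψ).det ≠ 0 := psi_det hHD.det
  have hψu : IsUnit (mC ψ).det := isUnit_iff_ne_zero.2 hψdet
  let N : Submodule ℂ (EA S.κ S.σ) := kk.comap S.Ψ.toLinearMap
  have hN : ∀ X : EA S.κ S.σ, X ∈ N ↔ S.Ψ X ∈ kk := fun X => Iff.rfl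
  have hN1 : ∀ X ∈ N, ∀ Y ∈ N, X * Y - Y * X ∈ N := by
    intro X hX Y hY
    rw [hN, map_sub, map_mul, map_mul]
    exact hkk.br _ hX _ hY
  have hm : ∀ X : Matrix ι ι ℂ, ∀ m : ℂ, Xᵀ * mC ψ + mC ψ * X = m • mC ψ →
      adj (mC ψ) X + X = m • 1 := by
    intro X m h
    have h1 := congrArg (fun Y => (mC ψ)⁻¹ * Y) h
    simp only [mul_add, Matrix.mul_smul] at h1
    rw [Matrix.nonsing_inv_mul _ hψu, ← mul_assoc, ← mul_assoc, Matrix.nonsing_inv_mul _ hψu,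
      one_mul] at h1
    exact h1
  have hN2 : ∀ X ∈ N, ∃ m : ℂ, ∀ k, (X.1 k).trace = m := by
    rintro ⟨x, y⟩ hX
    obtain ⟨m, h⟩ := hsimil _ (hkk.inH _ hX)
    have h1 := hm _ m h
    have h1' : adj (mC ψ) (S.Ψ (x, y)) + S.Ψ (x, y) = m • 1 := h1
    rw [S.adj_Ψ, ← map_add] at h1'
    have h2 : (m • (1 : Matrix ι ι ℂ)) = S.Ψ (m • 1) := by rw [map_smul, map_one]
    rw [h2] at h1'
    have h3 := S.inj h1'
    refine ⟨m, fun k => trace_of_adj ?_⟩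
    exact congrFun (congrArg Prod.fst h3) k
  have hN3 : Algebra.adjoin ℂ (N : Set (EA S.κ S.σ)) = ⊤ := by
    rw [eq_top_iff]
    intro u _
    have h1 := (S.mem_range (S.Ψ u)).1 ⟨u, rfl⟩
    have h2 := hkk.gen (S.Ψ u) h1
    have h3 : Algebra.adjoin ℂ (kk : Set (Matrix ι ι ℂ)) ≤
        (Algebra.adjoin ℂ (N : Set (EA S.κ S.σ))).map S.Ψ := by
      refine Algebra.adjoin_le ?_
      intro X hX
      obtain ⟨X', hX'⟩ := (S.mem_range X).2 (fun B hB => hcomm _ (hkk.inH _ hX) B hB)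
      refine ⟨X', Algebra.subset_adjoin ?_, hX'⟩
      change S.Ψ X' ∈ kk
      rw [hX']
      exact hX
    obtain ⟨u', hu', he⟩ := h3 h2
    rwa [← S.inj he]
  intro x hx
  exact hGOU S.κ S.σ N hN1 hN2 hN3 x hx

end Pool.Agent.Lib.MPf11a48.CMK
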