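import Pool.Agent.Lib.MP_f11a48_ag.CMK.Lal
import Pool.Agent.Lib.MP_f11a48_ag.CMM.FinN
import Pool.Agent.Lib.MP_f11a48_ag.KF.Lgl
import Pool.Agent.Lib.MP_f11a48_ag.KF.Bic
import Pool.Agent.Lib.MP_f11a48_ag.KF.Rat
import Pool.Agent.Lib.MP_f11a48_ag.AS.Bicq

/-! # LGK: the complex Lie algebra of the group of a torsor through the periods -/

set_option autoImplicit false
set_option linter.unusedSectionVars false

namespace Pool.Agent.Lib.MPf11a48.CMK

open Matrix MvPolynomial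
open Pool.Agent.Lib.MPf11a48.CM hiding OmegaM
open Pool.Agent.Lib.MPf11a48.GL2T
open Pool.Agent.Lib.MPf11a48.U
open Pool.Agent.Lib.MPf11a48.CMM
open Pool.Agent.Lib.MPf11a48.C (IsRep IsSubObj imG tpi)
open Pool.Agent.Lib.MPf11a48.C.TenM (bd lb)
open Pool.Agent.Lib.MPf11a48.Tors (IsTorsor ClosedOver grp OmegaM FixesField)
open Pool.Agent.Lib.MPf11a48.K3 (cx)
open Pool.Agent.Lib.MPf11a48.GL2 (lie Geo)

namespace LgkM

open KF.FRatM (mp_mul mp_add mp_sub mp_smul mp_zero mp_cx sim_br)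

section blocks

variable {ι κ : Type} [Fintype ι] [DecidableEq ι] [Fintype κ] [DecidableEq κ]

/-- block diagonal matrices -/
noncomputable def LB (X : Matrix ι ι ℂ) (m : ℂ) : Matrix ((ι ⊕ κ) ⊕ Unit) ((ι ⊕ κ) ⊕ Unit) ℂ :=
  lb (fromBlocks X 0 0 (0 : Matrix κ κ ℂ)) m

theorem LB_add (X X' : Matrix ι ι ℂ) (m m' : ℂ) :
    (LB (X + X') (m + m') : Matrix ((ι ⊕ κ) ⊕ Unit) _ ℂ) = LB X m + LB X' m' := by
  ext i j
  rcases i with (i | i) | i <;> rcases j with (j | j) | j <;> simp [LB, lb]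

theorem LB_smul (a : ℂ) (X : Matrix ι ι ℂ) (m : ℂ) :
    (LB (a • X) (a * m) : Matrix ((ι ⊕ κ) ⊕ Unit) _ ℂ) = a • LB X m := by
  ext i j
  rcases i with (i | i) | i <;> rcases j with (j | j) | j <;> simp [LB, lb]

theorem LB_zero : (LB (0 : Matrix ι ι ℂ) 0 : Matrix ((ι ⊕ κ) ⊕ Unit) _ ℂ) = 0 := by
  ext i j
  rcases i with (i | i) | i <;> rcases j with (j | j) | j <;> simp [LB, lb]

theorem LB_sub (X X' : Matrix ι ι ℂ) (m m' : ℂ) :
    (LB (X - X') (m - m') : Matrix ((ι ⊕ κ) ⊕ Unit) _ ℂ) = LB X m - LB X' m' := by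
  ext i j
  rcases i with (i | i) | i <;> rcases j with (j | j) | j <;> simp [LB, lb]

theorem LB_mul' (X X' : Matrix ι ι ℂ) (R : Matrix κ κ ℂ) (m m' : ℂ) :
    LB X m * lb (fromBlocks X' 0 0 R) m' = LB (X * X') (m * m') := by
  unfold LB
  rw [C.TenM.lb_mul, fromBlocks_multiply]
  simp only [Matrix.mul_zero, Matrix.zero_mul, add_zero]

theorem LB_mul (X X' : Matrix ι ι ℂ) (m m' : ℂ) :
    (LB X m * LB X' m' : Matrix ((ι ⊕ κ) ⊕ Unit) _ ℂ) = LB (X * X') (m * m') :=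
  LB_mul' X X' 0 m m'

theorem LB_map (τ : ℂ ≃+* ℂ) (X : Matrix ι ι ℂ) (m : ℂ) :
    (LB X m : Matrix ((ι ⊕ κ) ⊕ Unit) _ ℂ).map τ = LB (X.map τ) (τ m) := by
  ext i j
  rcases i with (i | i) | i <;> rcases j with (j | j) | j <;> simp [LB, lb]

/-- the logarithmic derivative of a point -/
theorem log_bd (c : GL ι ℂ) (r : GL κ ℂ) (hr : IsAlg r.1) (z : ℂˣ) (δ : Derivation Qbar ℂ ℂ) :
    (bd (dsum c r, z)).1.map δ * (bd (dsum c r, z))⁻¹.1 = LB (c.1.map δ * c⁻¹.1) (δ z / z) := by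
  have h1 : (bd (dsum c r, z)).1.map δ = LB (c.1.map δ) (δ z) := by
    have hr' : ∀ i j, δ (r.1 i j) = 0 := fun i j => DerM.d_zero_of_mem δ (hr i j)
    ext i j
    rcases i with (i | i) | i <;> rcases j with (j | j) | j
    · rfl
    · exact map_zero δ
    · exact map_zero δ
    · exact map_zero δ
    · exact hr' i j
    · exact map_zero δ
    · exact map_zero δ
    · exact map_zero δ
    · rfl
  have h2 : (bd (dsum c r, z))⁻¹.1 = lb (fromBlocks c⁻¹.1 0 0 r⁻¹.1) ((z⁻¹ : ℂˣ) : ℂ) := rfl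
  rw [h1, h2, LB_mul', div_eq_mul_inv, Units.val_inv_eq_inv_val]

/-- the one-parameter group -/
noncomputable def one (X : Matrix ι ι ℂ) (m t : ℂ) : GL ι ℂ × ℂˣ :=
  (⟨NormedSpace.exp (t • X), NormedSpace.exp (-(t • X)), by
      rw [← Matrix.exp_add_of_commute (t • X) (-(t • X)) (Commute.neg_right (Commute.refl (t • X))),
        add_neg_cancel, NormedSpace.exp_zero], by
      rw [← Matrix.exp_add_of_commute (-(t • X)) (t • X) (Commute.neg_left (Commute.refl (t • X))),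
        neg_add_cancel, NormedSpace.exp_zero]⟩,
    ⟨Complex.exp (t * m), Complex.exp (-(t * m)), by
      rw [← Complex.exp_add, add_neg_cancel, Complex.exp_zero], by
      rw [← Complex.exp_add, neg_add_cancel, Complex.exp_zero]⟩)

theorem one_zero (X : Matrix ι ι ℂ) (m : ℂ) :
    (bd (dsum (one X m 0).1 (1 : GL κ ℂ), (one X m 0).2)) = 1 := by
  have h1 : (one X m 0).1 = 1 := by
    refine Units.ext ?_
    change NormedSpace.exp ((0 : ℂ) • X) = 1
    rw [zero_smul, NormedSpace.exp_zero]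
  have h2 : (one X m 0).2 = 1 := by
    refine Units.ext ?_
    change Complex.exp (0 * m) = 1
    rw [zero_mul, Complex.exp_zero]
  rw [h1, h2, TennM.dsum_one]
  exact map_one _

theorem one_deriv (X : Matrix ι ι ℂ) (m t : ℂ) (i j : (ι ⊕ κ) ⊕ Unit) :
    HasDerivAt (fun t => (bd (dsum (one X m t).1 (1 : GL κ ℂ), (one X m t).2)).1 i j)
      ((LB (κ := κ) X m * (bd (dsum (one X m t).1 (1 : GL κ ℂ), (one X m t).2)).1) i j) t := by
  have h1 : LB (κ := κ) X m * (bd (dsum (one X m t).1 (1 : GL κ ℂ), (one X m t).2)).1 =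
      LB (X * NormedSpace.exp (t • X)) (m * Complex.exp (t * m)) := LB_mul' _ _ _ _ _
  rw [h1]
  rcases i with (i | i) | i <;> rcases j with (j | j) | j
  · exact ExpM.deriv_entry X t i j
  · exact hasDerivAt_const t (0 : ℂ)
  · exact hasDerivAt_const t (0 : ℂ)
  · exact hasDerivAt_const t (0 : ℂ)
  · exact hasDerivAt_const t ((1 : Matrix κ κ ℂ) i j)
  · exact hasDerivAt_const t (0 : ℂ)
  · exact hasDerivAt_const t (0 : ℂ)
  · exact hasDerivAt_const t (0 : ℂ)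
  · have h4 : HasDerivAt (fun t : ℂ => t * m) m t := by
      simpa using (hasDerivAt_id t).mul_const m
    have h5 := h4.cexp
    rw [mul_comm] at h5
    exact h5

end blocks

/-! ### The action of automorphisms on `InH` -/

section inH

variable {ι : Type} [Fintype ι] [DecidableEq ι]

theorem dtens_map (τ : ℂ ≃+* ℂ) (n m : ℕ) (X : Matrix ι ι ℂ) (I J : TIdx ι n m) :
    dtens n m (X.map τ) I J = τ (dtens n m X I J) := by
  simp only [dtens, map_sub, map_sum, apply_ite τ, map_zero, Matrix.map_apply]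

theorem dact_map (τ : ℂ ≃+* ℂ) {r : ℕ} (s : Fin r → ℕ × ℕ) (X : Matrix ι ι ℂ)
    (v : SIdx ι s → ℂ) :
    dact s (X.map τ) (fun j => τ (v j)) = fun j => τ (dact s X v j) := by
  funext x
  change ∑ J, dtens (s x.1).1 (s x.1).2 (X.map τ) x.2 J * τ (v ⟨x.1, J⟩) =
    τ (∑ J, dtens (s x.1).1 (s x.1).2 X x.2 J * v ⟨x.1, J⟩)
  rw [map_sum]
  refine Finset.sum_congr rfl fun J _ => ?_
  rw [dtens_map, map_mul]

theorem inH_map (τ : ℂ ≃+* ℂ) {c : GL ι ℂ} {X : Matrix ι ι ℂ} (hX : InH c X) :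
    InH c (X.map τ) := by
  intro r s WdR WB hsub w hw
  have h1 := Tors.spanC_twQ τ (hX r s WdR WB hsub _ (Tors.spanC_twQ τ.symm hw))
  rw [← dact_map] at h1
  simpa using h1

end inH

/-! ### Similitudes and idempotents -/

/-- the multiplier of a diagonalisable similitude -/
theorem pair {ι : Type} [Fintype ι] [DecidableEq ι] {σ : Type} [Fintype σ] [DecidableEq σ]
    {e : σ → Matrix ι ι ℂ} {ψ : Matrix ι ι ℂ} (hψ : ψ ≠ 0) (h1 : ∀ s, e s * e s = e s)
    (h2 : ∀ s t, s ≠ t → e s * e t = 0) (h3 : ∑ s, e s = 1) :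
    ∃ s t, ∀ (x : σ → ℂ) (m : ℂ), (∑ s, x s • e s)ᵀ * ψ + ψ * (∑ s, x s • e s) = m • ψ →
      x s + x t = m := by
  obtain ⟨s, t, hst⟩ : ∃ s t, (e s)ᵀ * ψ * e t ≠ 0 := by
    by_contra hne
    push Not at hne
    apply hψ
    calc ψ = (∑ s, e s)ᵀ * ψ * ∑ t, e t := by
          rw [h3, Matrix.transpose_one, Matrix.one_mul, Matrix.mul_one]
      _ = ∑ s, ∑ t, (e s)ᵀ * ψ * e t := by
          rw [Matrix.transpose_sum, Finset.sum_mul, Finset.sum_mul]
          exact Finset.sum_congr rfl fun s _ => Finset.mul_sum _ _ _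
      _ = 0 := Finset.sum_eq_zero fun s _ => Finset.sum_eq_zero fun t _ => hne s t
  refine ⟨s, t, fun x m h => ?_⟩
  have hr : ∀ u, (∑ s, x s • e s) * e u = x u • e u := by
    intro u
    rw [Finset.sum_mul, Finset.sum_eq_single u]
    · rw [Matrix.smul_mul, h1]
    · intro v _ hv
      rw [Matrix.smul_mul, h2 v u hv, smul_zero]
    · intro h
      exact absurd (Finset.mem_univ _) h
  have h4 : (e s)ᵀ * ((∑ s, x s • e s)ᵀ * ψ + ψ * (∑ s, x s • e s)) * e t =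
      (x s + x t) • ((e s)ᵀ * ψ * e t) := by
    rw [Matrix.mul_add, Matrix.add_mul, add_smul]
    congr 1
    · rw [← Matrix.mul_assoc, ← Matrix.transpose_mul, hr, Matrix.transpose_smul, Matrix.smul_mul,
        Matrix.smul_mul]
    · rw [Matrix.mul_assoc, Matrix.mul_assoc, hr, Matrix.mul_smul, Matrix.mul_smul,
        ← Matrix.mul_assoc]
  rw [h, Matrix.mul_smul, Matrix.smul_mul] at h4
  have h5 : (x s + x t - m) • ((e s)ᵀ * ψ * e t) = 0 := by
    rw [sub_smul, ← h4, sub_self]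
  exact sub_eq_zero.1 ((smul_eq_zero.1 h5).resolve_right hst)

/-- the idempotents of the block diagonal matrices -/
noncomputable def ee {ι κ σ : Type} [Fintype ι] [DecidableEq ι] [Fintype κ] [DecidableEq κ]
    (e : σ → Matrix ι ι ℂ) : σ ⊕ (Unit ⊕ Unit) → Matrix ((ι ⊕ κ) ⊕ Unit) ((ι ⊕ κ) ⊕ Unit) ℂ :=
  Sum.elim (fun s => lb (fromBlocks (e s) 0 0 0) 0)
    (Sum.elim (fun _ => lb (fromBlocks 0 0 0 1) 0) (fun _ => lb 0 1))

/-- algebraic Lie algebras of torsors: the version for block diagonal matrices -/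
theorem alg_LB {ι κ : Type} [Fintype ι] [DecidableEq ι] [Fintype κ] [DecidableEq κ]
    {T : Set (GL ((ι ⊕ κ) ⊕ Unit) ℂ)} (hT : Geo T) {σ : Type} [Fintype σ] [DecidableEq σ]
    {e : σ → Matrix ι ι ℂ} (h1 : ∀ s, e s * e s = e s) (h2 : ∀ s t, s ≠ t → e s * e t = 0)
    (h3 : ∑ s, e s = 1) {x y : σ → ℂ} {m m' : ℂ}
    (hx : (LB (∑ s, x s • e s) m : Matrix ((ι ⊕ κ) ⊕ Unit) _ ℂ) ∈ lie T)
    (h : ∀ (χ : σ → ℤ) (b : ℤ), ∑ s, (χ s : ℂ) * x s + b * m = 0 →
      ∑ s, (χ s : ℂ) * y s + b * m' = 0) :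
    (LB (∑ s, y s • e s) m' : Matrix ((ι ⊕ κ) ⊕ Unit) _ ℂ) ∈ lie T := by
  have hsum' : ∀ (x : σ → ℂ) (a m : ℂ),
      ∑ s, (Sum.elim x (Sum.elim (fun _ => a) fun _ => m) : σ ⊕ (Unit ⊕ Unit) → ℂ) s •
        (ee e : σ ⊕ (Unit ⊕ Unit) → Matrix ((ι ⊕ κ) ⊕ Unit) _ ℂ) s =
        lb (fromBlocks (∑ s, x s • e s) 0 0 (a • 1)) m := by
    intro x a m
    rw [Fintype.sum_sum_type, Fintype.sum_sum_type]
    ext i j
    rcases i with (i | i) | i <;> rcases j with (j | j) | j <;>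
      simp [ee, lb, Matrix.sum_apply]
  have hsum : ∀ (x : σ → ℂ) (m : ℂ),
      ∑ s, (Sum.elim x (Sum.elim (fun _ => 0) fun _ => m) : σ ⊕ (Unit ⊕ Unit) → ℂ) s •
        (ee e : σ ⊕ (Unit ⊕ Unit) → Matrix ((ι ⊕ κ) ⊕ Unit) _ ℂ) s =
        LB (∑ s, x s • e s) m := by
    intro x m
    rw [hsum' x 0 m, zero_smul]
    rfl
  have hl0 : (lb (0 : Matrix (ι ⊕ κ) (ι ⊕ κ) ℂ) 0) = 0 := by
    ext i j
    rcases i with i | i <;> rcases j with j | j <;> simp [lb]
  have h4 := specLal T hT (σ ⊕ (Unit ⊕ Unit)) (ee e) ?_ ?_ ?_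
    (Sum.elim x (Sum.elim (fun _ => 0) fun _ => m))
    (Sum.elim y (Sum.elim (fun _ => 0) fun _ => m')) ?_ ?_
  · rw [hsum] at h4
    exact h4
  · rintro (s | (s | s))
    · change lb (fromBlocks (e s) 0 0 0) 0 * lb (fromBlocks (e s) 0 0 0) 0 =
        lb (fromBlocks (e s) 0 0 0) 0
      rw [C.TenM.lb_mul, fromBlocks_multiply]
      simp only [Matrix.mul_zero, Matrix.zero_mul, add_zero, h1, mul_zero]
    · change lb (fromBlocks 0 0 0 1) 0 * lb (fromBlocks 0 0 0 1) 0 = lb (fromBlocks 0 0 0 1) 0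
      rw [C.TenM.lb_mul, fromBlocks_multiply]
      simp only [Matrix.mul_zero, add_zero, Matrix.mul_one, mul_zero, zero_add]
    · change lb 0 1 * lb 0 1 = lb 0 1
      rw [C.TenM.lb_mul, Matrix.mul_zero, mul_one]
  · rintro (s | (s | s)) (t | (t | t)) hst
    · have h5 : s ≠ t := fun h => hst (by rw [h])
      simp only [ee, Sum.elim_inl, C.TenM.lb_mul, fromBlocks_multiply, Matrix.mul_zero,
        Matrix.zero_mul, add_zero, h2 s t h5, mul_zero, fromBlocks_zero, hl0]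
    · simp only [ee, Sum.elim_inl, Sum.elim_inr, C.TenM.lb_mul, fromBlocks_multiply,
        Matrix.mul_zero, Matrix.zero_mul, add_zero, mul_zero, fromBlocks_zero, hl0]
    · simp only [ee, Sum.elim_inl, Sum.elim_inr, C.TenM.lb_mul, Matrix.mul_zero, zero_mul, hl0]
    · simp only [ee, Sum.elim_inl, Sum.elim_inr, C.TenM.lb_mul, fromBlocks_multiply,
        Matrix.mul_zero, Matrix.zero_mul, add_zero, mul_zero, fromBlocks_zero, hl0]
    · exact absurd rfl hst
    · simp only [ee, Sum.elim_inl, Sum.elim_inr, C.TenM.lb_mul, Matrix.mul_zero, zero_mul, hl0]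
    · simp only [ee, Sum.elim_inl, Sum.elim_inr, C.TenM.lb_mul, Matrix.zero_mul, mul_zero, hl0]
    · simp only [ee, Sum.elim_inl, Sum.elim_inr, C.TenM.lb_mul, Matrix.zero_mul, mul_zero, hl0]
    · exact absurd rfl hst
  · have h5 := hsum' (fun _ => 1) 1 1
    have h6 : ∀ s : σ ⊕ (Unit ⊕ Unit),
        (Sum.elim (fun _ => 1) (Sum.elim (fun _ => 1) fun _ => 1) : σ ⊕ (Unit ⊕ Unit) → ℂ) s =
          1 := by
      rintro (s | (s | s)) <;> rfl
    simp only [h6, one_smul, h3, fromBlocks_one, C.TenM.lb_one] at h5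
    exact h5
  · rw [hsum]
    exact hx
  · intro χ hχ
    rw [Fintype.sum_sum_type, Fintype.sum_sum_type] at hχ ⊢
    simp only [Sum.elim_inl, Sum.elim_inr, Finset.univ_unique, Finset.sum_singleton, mul_zero,
      zero_add] at hχ ⊢
    exact h (fun s => χ (Sum.inl s)) _ hχ

end LgkM

open LgkM KF.FRatM in
theorem specLgk (hASP : AS.SpecASP) : SpecLgk := by
  intro g N k A c L F hg hL hA hc r hr T hT hcT hcl
  have hTQ : IsTorsor Qbar T := ⟨GL2.closedOver_mono hL hT.closed, hT.nonempty, hT.heap⟩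
  have hG := GL2.geo_of_torsor hTQ
  obtain ⟨⟨J, hJ⟩, -⟩ := hda' specTL' L g N A c hL hA hc
  change HD c J A.psi at hJ
  have hψ0 : mC A.psi ≠ 0 := by
    intro h0
    have h9 : A.psi = 0 := by
      ext i j
      have h10 := congrFun (congrFun h0 i) j
      change ((A.psi i j : ℚ) : ℂ) = 0 at h10
      exact_mod_cast h10
    have : Nonempty (Ix g) := ⟨Sum.inl ⟨0, hg⟩⟩
    apply hJ.det
    rw [h9]
    exact Matrix.det_zero
  have huniqm : ∀ {m m' : ℂ}, m • mC A.psi = m' • mC A.psi → m = m' := by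
    intro m m' h
    have h1 : (m - m') • mC A.psi = 0 := by rw [sub_smul, h, sub_self]
    exact sub_eq_zero.1 ((smul_eq_zero.1 h1).resolve_right hψ0)
  obtain ⟨hI0, hIadd, hIsmul, hIbr, -⟩ := specLIN c
  obtain ⟨-, hsim, -⟩ := specSIM c J A.psi hJ
  let kk : Submodule ℂ (Matrix (Ix g) (Ix g) ℂ) :=
    { carrier := {X | InH c X ∧ ∃ m : ℂ, Xᵀ * mC A.psi + mC A.psi * X = m • mC A.psi ∧
        (LB X m : Matrix ((Ix g ⊕ Fin k) ⊕ Unit) _ ℂ) ∈ lie T}
      add_mem' := by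
        rintro a b ⟨ha, m, hm, hl⟩ ⟨hb, m', hm', hl'⟩
        refine ⟨hIadd a b ha hb, m + m', ?_, ?_⟩
        · rw [Matrix.transpose_add, Matrix.add_mul, Matrix.mul_add, add_add_add_comm, hm, hm',
            add_smul]
        · rw [LB_add]
          exact add_mem hl hl'
      zero_mem' := by
        refine ⟨hI0, 0, by simp, ?_⟩
        rw [LB_zero]
        exact zero_mem _
      smul_mem' := by
        rintro r a ⟨ha, m, hm, hl⟩
        refine ⟨hIsmul r a ha, r * m, ?_, ?_⟩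
        · rw [Matrix.transpose_smul, Matrix.smul_mul, Matrix.mul_smul, ← smul_add, hm, smul_smul]
        · rw [LB_smul]
          exact Submodule.smul_mem _ _ hl }
  have hlog : ∀ δ : Derivation Qbar ℂ ℂ, c.1.map δ * c⁻¹.1 ∈ kk := by
    intro δ
    obtain ⟨ψdR, hψ, hleg⟩ := hJ.leg
    refine ⟨(specDER c).1 δ, _, SimM.log_deriv c A.psi ψdR hψ hleg δ, ?_⟩
    have h1 := hG.deriv_mem hcT δ
    rw [log_bd c r hr] at h1
    exact h1
  have htau : ∀ E : IntermediateField ℚ ℂ, ClosedOver E (grp T) → ∀ τ : ℂ ≃+* ℂ,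
      (∀ a ∈ E, τ a = a) → ∀ X ∈ kk, X.map τ ∈ kk := by
    rintro E hE τ hτ X ⟨hX, m, hm, hl⟩
    refine ⟨inH_map τ hX, τ m, ?_, ?_⟩
    · have h6 := congrArg (fun X => X.map τ) hm
      have e1 : (mC A.psi).map τ = mC A.psi := mp_cx τ A.psi
      simp only [mp_add, mp_mul, mp_smul] at h6
      rw [e1] at h6
      exact h6
    · rw [← LB_map]
      exact KF.specFLgl _ E T hTQ hE τ hτ _ hl
  refine ⟨kk, ⟨fun X hX => hX.1, ?_, hlog, fun τ hτ => htau F hcl τ hτ, ?_, ?_⟩, ?_⟩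
  · rintro X ⟨hX, m, hm, hl⟩ Y ⟨hY, m', hm', hl'⟩
    refine ⟨hIbr X Y hX hY, 0, sim_br hm hm', ?_⟩
    have h6 := GL2.lie_br hl hl'
    rw [LB_mul, LB_mul, ← LB_sub, mul_comm m' m, sub_self] at h6
    exact h6
  · rintro σ _ _ e h1 h2 h3 x y ⟨hX, m, hm, hl⟩ h
    have hY := specALG c σ e h1 h2 h3 x y hX h
    obtain ⟨m', hm'⟩ := hsim _ hY
    refine ⟨hY, m', hm', ?_⟩
    obtain ⟨s, t, hst⟩ := pair hψ0 h1 h2 h3
    have hxm := hst x m hm
    have hym := hst y m' hm'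
    refine alg_LB hG h1 h2 h3 hl fun χ b hχ => ?_
    have key : ∀ (x : σ → ℂ), ∑ u, ((χ u + (if u = s then b else 0) + (if u = t then b else 0) : ℤ)
        : ℂ) * x u = ∑ u, (χ u : ℂ) * x u + b * (x s + x t) := by
      intro x
      simp only [Int.cast_add, Int.cast_ite, Int.cast_zero, add_mul, ite_mul, zero_mul,
        Finset.sum_add_distrib, Finset.sum_ite_eq', Finset.mem_univ, if_true]
      ring
    have h5 := h (fun u => χ u + (if u = s then b else 0) + (if u = t then b else 0)) (by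
      rw [key, hxm]
      exact hχ)
    rw [key, hym] at h5
    exact h5
  · intro x hx
    exact AS.specBICQ c (hASP L g N A c hL hA hc) kk
      (KF.BicM.qspan kk (htau Qbar (Tors.closedOver_grp hTQ))) hlog x hx
  · rintro X ⟨-, m₀, hm₀, hl⟩ m hm y hy1 hy2
    have hmm : m₀ = m := huniqm (hm₀.symm.trans hm)
    subst hmm
    rw [Tors.mem_grp_iff hT hcT]
    have h1 := K3.specCurve _ T hG _ hl
      (fun t => bd (dsum (one X m₀ t).1 (1 : GL (Fin k) ℂ), (one X m₀ t).2))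
      (one_zero X m₀) (one_deriv X m₀) _ hcT 1
    have h2 : (one X m₀ 1).1 = y.1 := by
      refine Units.ext ?_
      change NormedSpace.exp ((1 : ℂ) • X) = y.1.1
      rw [one_smul, hy1]
    have h3 : (one X m₀ 1).2 = y.2 := by
      refine Units.ext ?_
      change Complex.exp (1 * m₀) = (y.2 : ℂ)
      rw [one_mul, hy2]
    rw [← h2, ← h3]
    exact h1

end Pool.Agent.Lib.MPf11a48.CMK
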