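import Pool.Agent.Lib.MP_f11a48_ag.CMK.Spec
import Pool.Agent.Lib.MP_f11a48_ag.CMM.Mainn

/-!
# Module MAINK: the group contains the elements which satisfy the relations
-/

set_option autoImplicit false

namespace Pool.Agent.Lib.MPf11a48.CMK

open Matrix MvPolynomial
open Pool.Agent.Lib.MPf11a48.CM hiding OmegaM
open Pool.Agent.Lib.MPf11a48.GL2T
open Pool.Agent.Lib.MPf11a48.U
open Pool.Agent.Lib.MPf11a48.CMM
open Pool.Agent.Lib.MPf11a48.Tors (IsTorsor ClosedOver grp OmegaM FixesField)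
open Pool.Agent.Lib.MPf11a48.K3 (cx)

namespace MainkM

open REPM MainnM

section

variable {ι : Type} [Fintype ι] [DecidableEq ι] {c : GL ι ℂ} {ψ : Matrix ι ι ℚ}

/-- the involution as an equivalence -/
def tauE (S : Str c ψ) : S.σ ≃ S.σ := ⟨S.τ, S.τ, S.τ_τ, S.τ_τ⟩

theorem sum_tau {R : Type} [AddCommMonoid R] (S : Str c ψ) (f : S.σ → R) :
    ∑ s, f (S.τ s) = ∑ s, f s :=
  Equiv.sum_comp (tauE S) f

theorem single_tau (S : Str c ψ) (i j : S.σ) :
    (Pi.single i 1 : S.σ → ℤ) (S.τ j) = (Pi.single (S.τ i) 1 : S.σ → ℤ) j := by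
  classical
  rw [Pi.single_apply, Pi.single_apply]
  have : (S.τ j = i) = (j = S.τ i) := by
    apply propext
    constructor
    · rintro rfl
      exact (S.τ_τ j).symm
    · rintro rfl
      exact S.τ_τ i
  simp only [this]

/-- the relations, as functions on `σ` -/
def lamO (S : Str c ψ) (O : Submodule ℚ (EmbC c.1 → ℚ)) : AddSubgroup (S.σ → ℤ) where
  carrier := {χ | ∑ s, χ s = 0 ∧ ∃ f ∈ O, ∀ s, f (S.ev (Sum.inr s)) = (χ s : ℚ) - χ (S.τ s)}
  zero_mem' := ⟨by simp, 0, O.zero_mem, fun s => by simp⟩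
  add_mem' := by
    rintro χ χ' ⟨h, f, hf, h1⟩ ⟨h', f', hf', h1'⟩
    refine ⟨?_, f + f', O.add_mem hf hf', fun s => ?_⟩
    · simp only [Pi.add_apply, Finset.sum_add_distrib, h, h', add_zero]
    · rw [Pi.add_apply, h1, h1', Pi.add_apply, Pi.add_apply]
      push_cast
      ring
  neg_mem' := by
    rintro χ ⟨h, f, hf, h1⟩
    refine ⟨?_, -f, O.neg_mem hf, fun s => ?_⟩
    · simp only [Pi.neg_apply, Finset.sum_neg_distrib, h, neg_zero]
    · rw [Pi.neg_apply, h1, Pi.neg_apply, Pi.neg_apply]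
      push_cast
      ring

theorem lamO_sat (S : Str c ψ) (O : Submodule ℚ (EmbC c.1 → ℚ)) (n : ℤ) (χ : S.σ → ℤ)
    (hn : n ≠ 0) (h : n • χ ∈ lamO S O) : χ ∈ lamO S O := by
  obtain ⟨h, f, hf, h1⟩ := h
  refine ⟨?_, (n : ℚ)⁻¹ • f, O.smul_mem _ hf, fun s => ?_⟩
  · simp only [Pi.smul_apply, smul_eq_mul, ← Finset.mul_sum] at h
    exact (mul_eq_zero.1 h).resolve_left hn
  · have hn' : (n : ℚ) ≠ 0 := by exact_mod_cast hn
    rw [Pi.smul_apply, h1, Pi.smul_apply, Pi.smul_apply, smul_eq_mul, smul_eq_mul, smul_eq_mul]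
    push_cast
    field_simp

theorem lamO_pairs (S : Str c ψ) (O : Submodule ℚ (EmbC c.1 → ℚ)) (s t : S.σ) :
    (Pi.single s 1 + Pi.single (S.τ s) 1 - Pi.single t 1 - Pi.single (S.τ t) 1 : S.σ → ℤ) ∈
      lamO S O := by
  classical
  refine ⟨?_, 0, O.zero_mem, fun j => ?_⟩
  · simp only [Pi.add_apply, Pi.sub_apply, Finset.sum_add_distrib, Finset.sum_sub_distrib,
      Finset.sum_pi_single', Finset.mem_univ, if_true]
    simp
  · simp only [Pi.add_apply, Pi.sub_apply, Pi.zero_apply, single_tau, S.τ_τ]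
    push_cast
    ring

/-- An odd rational relation is a multiple of an integral one. -/
theorem odd_sumO (S : Str c ψ) (O : Submodule ℚ (EmbC c.1 → ℚ))
    (hodd : ∀ f ∈ O, ∀ s s', IsBar ψ s s' → f s' = -f s) {y : S.σ → ℂ}
    (hy : ∀ χ ∈ lamO S O, ∑ j, (χ j : ℂ) * y j = 0) {f : EmbC c.1 → ℚ} (hf : f ∈ O) :
    ∑ j, (f (S.ev (Sum.inr j)) : ℂ) * y j = 0 := by
  classical
  -- a common denominator
  let d : ℤ := ∏ s : EmbC c.1, ((f s).den : ℤ)
  have hd : d ≠ 0 := Finset.prod_ne_zero_iff.2 fun s _ => by exact_mod_cast (f s).den_nz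
  have hint : ∀ s : EmbC c.1, ∃ n : ℤ, (n : ℚ) = d * f s := by
    intro s
    obtain ⟨m, hm⟩ : ((f s).den : ℤ) ∣ d := Finset.dvd_prod_of_mem _ (Finset.mem_univ s)
    refine ⟨m * (f s).num, ?_⟩
    rw [hm]
    push_cast
    have h1 : ((f s).den : ℚ) * f s = (f s).num := by
      rw [mul_comm]
      exact Rat.mul_den_eq_num (f s)
    rw [← h1]
    ring
  choose n hn using hint
  have htau : ∀ j : S.σ, n (S.ev (Sum.inr (S.τ j))) = -n (S.ev (Sum.inr j)) := by
    intro j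
    have h1 := hodd f hf _ _ (S.bar_σ j)
    have h2 : ((n (S.ev (Sum.inr (S.τ j))) : ℤ) : ℚ) = ((-n (S.ev (Sum.inr j)) : ℤ) : ℚ) := by
      rw [Int.cast_neg, hn, hn, h1]
      ring
    exact_mod_cast h2
  have hχ : (fun j => n (S.ev (Sum.inr j))) ∈ lamO S O := by
    refine ⟨?_, (2 * d : ℚ) • f, O.smul_mem _ hf, fun s => ?_⟩
    · have h1 := sum_tau S fun j => n (S.ev (Sum.inr j))
      simp only [htau, Finset.sum_neg_distrib] at h1
      change ∑ j, n (S.ev (Sum.inr j)) = 0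
      linarith
    · change (2 * d : ℚ) • f (S.ev (Sum.inr s)) = ((n (S.ev (Sum.inr s)) : ℤ) : ℚ) -
        ((n (S.ev (Sum.inr (S.τ s))) : ℤ) : ℚ)
      rw [htau, Int.cast_neg, hn, smul_eq_mul]
      ring
  have h1 := hy _ hχ
  have h2 : ∀ j : S.σ, ((n (S.ev (Sum.inr j)) : ℤ) : ℂ) * y j =
      (d : ℂ) * ((f (S.ev (Sum.inr j)) : ℂ) * y j) := by
    intro j
    have h3 : ((n (S.ev (Sum.inr j)) : ℤ) : ℂ) = (d : ℂ) * (f (S.ev (Sum.inr j)) : ℂ) := by
      have h4 := hn (S.ev (Sum.inr j))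
      exact_mod_cast h4
    rw [h3]
    ring
  rw [Finset.sum_congr rfl fun j _ => h2 j, ← Finset.mul_sum] at h1
  exact (mul_eq_zero.1 h1).resolve_left (by exact_mod_cast hd)

end

end MainkM

open MainkM REPM MainnM

/-- **MAINK.** -/
theorem specMaink (hTORK : SpecTork) (hKSL : SpecKsl) (hGENR : SpecGenr) : SpecMaink := by
  have hLIN : SpecLIN := specLIN
  have hSIM : SpecSIM := specSIM
  have hBIC : SpecBIC := BicM.specBIC specLIN specDER specSIM
  intro ι _ _ hι c J ψ F L S kk O hFQ hHD hkk hR 𝒢 hG1 hG2 yy u hyc hyψ hRel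
  classical
  obtain ⟨hcomm, hsimil, -⟩ := hSIM c J ψ hHD
  have hψdet : (mC ψ).det ≠ 0 := psi_det hHD.det
  have hψu : IsUnit (mC ψ).det := isUnit_iff_ne_zero.2 hψdet
  have hψ0 : mC ψ ≠ 0 := by
    intro h
    apply hψdet
    rw [h, Matrix.det_zero]
  -- exponentials of elements of the Lie algebra
  have hexpG : ∀ (X : Matrix ι ι ℂ) (m : ℂ), X ∈ kk → Xᵀ * mC ψ + mC ψ * X = m • mC ψ →
      ∃ y ∈ 𝒢, y.1.1 = NormedSpace.exp X ∧ (y.2 : ℂ) = Complex.exp m := by
    intro X m hX hXm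
    obtain ⟨g', hg'⟩ := Matrix.isUnit_exp X
    exact ⟨(g', Units.mk0 (Complex.exp m) (Complex.exp_ne_zero m)),
      hG1 X hX m hXm _ hg' rfl, hg', rfl⟩
  have hsl := hKSL ι c J ψ F S kk hHD hkk
  have htor := hTORK ι c J ψ F S (RGal L c) kk O hFQ hHD hkk hR (MM S 𝒢) (by
      intro w hw
      obtain ⟨m, h⟩ := hsimil _ (hkk.inH _ hw)
      have h1 := TORM.mult_eq S hHD.det (x := fun k => w (S.ev (Sum.inl k)) • 1)
        (y := fun s => w (S.ev (Sum.inr s))) h
      refine ⟨m, ?_, ?_⟩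
      · intro s s' hs
        obtain ⟨e, rfl⟩ := S.ev.surjective s
        have h2 := TORM.isBar_unique hBIC hHD hs (TORM.isBar_bar S e)
        subst h2
        rcases e with k | j
        · have h3 := h1.1 k
          rw [Matrix.trace_smul, Matrix.trace_one] at h3
          simp only [Fintype.card_fin, smul_eq_mul] at h3
          change w (S.ev (Sum.inl k)) + w (S.ev (Sum.inl k)) = m
          rw [← h3]
          push_cast
          ring
        · exact h1.2 j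
      · intro t
        refine hexpG (t • CX S w) (t * m) (kk.smul_mem t hw) ?_
        rw [Matrix.transpose_smul, Matrix.smul_mul, Matrix.mul_smul, ← smul_add]
        have h' : (CX S w)ᵀ * mC ψ + mC ψ * CX S w = m • mC ψ := h
        rw [h', smul_smul])
    (MM_conj S 𝒢 hG2 hR.bar)
  -- the group
  let T : Set (EA S.κ S.σ) := {u | ∃ y ∈ 𝒢, y.1.1 = S.Ψ u ∧
    y.1.1ᵀ * mC ψ * y.1.1 = (y.2 : ℂ) • mC ψ}
  have hT1 : (1 : EA S.κ S.σ) ∈ T := by
    refine ⟨1, 𝒢.one_mem, ?_, ?_⟩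
    · rw [map_one]
      rfl
    · change (1 : Matrix ι ι ℂ)ᵀ * mC ψ * (1 : Matrix ι ι ℂ) = (1 : ℂ) • mC ψ
      rw [Matrix.transpose_one, one_mul, mul_one, one_smul]
  have hTmul : ∀ u ∈ T, ∀ t ∈ T, u * t ∈ T := by
    rintro u ⟨y, hy, hy1, hy2⟩ t ⟨z, hz, hz1, hz2⟩
    refine ⟨y * z, 𝒢.mul_mem hy hz, ?_, ?_⟩
    · rw [Prod.fst_mul, Units.val_mul, hy1, hz1, map_mul]
    · rw [Prod.fst_mul, Units.val_mul, Prod.snd_mul, Units.val_mul, Matrix.transpose_mul]
      calc z.1.1ᵀ * y.1.1ᵀ * mC ψ * (y.1.1 * z.1.1)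
          = z.1.1ᵀ * (y.1.1ᵀ * mC ψ * y.1.1) * z.1.1 := by simp only [mul_assoc]
        _ = (y.2 : ℂ) • (z.1.1ᵀ * mC ψ * z.1.1) := by
            rw [hy2, Matrix.mul_smul, Matrix.smul_mul]
        _ = _ := by rw [hz2, smul_smul]
  -- the element
  obtain ⟨x, y⟩ := u
  have hxy : S.Ψ (x, y) = yy.1.1 := hyc.symm
  have hadjg : adj (mC ψ) yy.1.1 * yy.1.1 = (yy.2 : ℂ) • 1 := by
    rw [adj, mul_assoc, mul_assoc, ← mul_assoc yy.1.1ᵀ, hyψ, Matrix.mul_smul,
      Matrix.nonsing_inv_mul _ hψu]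
  have hμ0 : (yy.2 : ℂ) ≠ 0 := yy.2.ne_zero
  rw [← hxy, S.adj_Ψ, ← map_mul] at hadjg
  have h2 : ((yy.2 : ℂ) • (1 : Matrix ι ι ℂ)) = S.Ψ ((yy.2 : ℂ) • 1) := by
    rw [map_smul, map_one]
  rw [h2] at hadjg
  have h3 := S.inj hadjg
  have hdet : ∀ k, (x k).det = (yy.2 : ℂ) := by
    intro k
    have h4 : (x k).adjugate * x k = (yy.2 : ℂ) • 1 := congrFun (congrArg Prod.fst h3) k
    rw [Matrix.adjugate_mul] at h4
    have h5 := congrFun (congrFun h4 0) 0
    simpa using h5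
  have hyy : ∀ s, y s * y (S.τ s) = (yy.2 : ℂ) := by
    intro s
    have h4 : y (S.τ s) * y s = (yy.2 : ℂ) • (1 : ℂ) := congrFun (congrArg Prod.snd h3) s
    rw [mul_comm, h4, smul_eq_mul, mul_one]
  have hmem : ((x, y) : EA S.κ S.σ) ∈ T := by
    refine hGENR S.κ S.σ S.τ (lamO S O) (fun n χ hn h => lamO_sat S O n χ hn h)
      (fun s t => lamO_pairs S O s t) T hT1 ?_ ?_ (yy.2 : ℂ) hμ0 x y hdet hyy
      (fun χ hχ => hRel χ hχ.1 hχ.2)
    · intro x hx t ht
      refine hTmul _ ?_ t ht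
      have h4 : (S.Ψ (x, 0))ᵀ * mC ψ + mC ψ * S.Ψ (x, 0) = (0 : ℂ) • mC ψ := by
        apply sim_of_adj hψdet
        rw [S.adj_Ψ, ← map_add, zero_smul, ← map_zero S.Ψ]
        congr 1
        refine Prod.ext ?_ ?_
        · funext k
          have h5 : (x k).adjugate + x k = 0 := by
            have h6 := hx k
            rw [Matrix.trace_fin_two] at h6
            rw [Matrix.adjugate_fin_two]
            ext i j
            fin_cases i <;> fin_cases j <;> simp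
            · rw [add_comm]; exact h6
            · exact h6
          exact h5
        · funext s
          simp
      obtain ⟨z, hz, hz1, hz2⟩ := hexpG _ 0 (hsl x hx) h4
      refine ⟨z, hz, ?_, ?_⟩
      · rw [hz1, ← exp_Ψ]
        congr 2
        funext s
        simp
      · rw [hz1, hz2]
        exact expsim hψdet h4
    · intro m y hy hyΛ t ht
      refine hTmul _ ?_ t ht
      obtain ⟨m', h4, h5⟩ := htor m y hy fun f hf => odd_sumO S O hR.odd hyΛ hf
      obtain ⟨z, hz, hz1, hz2⟩ := h5 1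
      rw [one_smul] at hz1
      rw [one_mul] at hz2
      refine ⟨z, hz, ?_, ?_⟩
      · rw [hz1]
        unfold CX
        rw [TORM.cenL_apply, TORM.cen, ← exp_Ψ]
        congr 1
        refine Prod.ext ?_ ?_
        · funext k
          simp only [Equiv.symm_apply_apply, Sum.elim_inl]
          exact exp_scalar _
        · funext s
          simp only [Equiv.symm_apply_apply, Sum.elim_inr]
      · rw [hz1, hz2]
        exact expsim hψdet (sim_of_adj hψdet (CX_adj S h4))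
  obtain ⟨z, hz, hz1, hz2⟩ := hmem
  have e1 : z.1 = yy.1 := Units.ext (by rw [hz1, hxy])
  have e2 : z.2 = yy.2 := by
    apply Units.ext
    rw [e1, hyψ] at hz2
    exact smul_left_injective ℂ hψ0 hz2.symm
  have e3 : z = yy := Prod.ext e1 e2
  rwa [← e3]

end Pool.Agent.Lib.MPf11a48.CMK
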