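import Pool.Agent.Lib.MP_f11a48_ag.CMK.Spec
import Pool.Agent.Lib.MP_f11a48_ag.CMM.Mainn

/-!
# Motives of complex multiplication type over a field `K`, module RLK: the relations
-/

set_option autoImplicit false

namespace Pool.Agent.Lib.MPf11a48.CMK

open Matrix MvPolynomial
open Pool.Agent.Lib.MPf11a48.CM hiding OmegaM
open Pool.Agent.Lib.MPf11a48.GL2T
open Pool.Agent.Lib.MPf11a48.U
open Pool.Agent.Lib.MPf11a48.CMM
open Pool.Agent.Lib.MPf11a48.C (IsRep IsSubObj imG tpi)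
open Pool.Agent.Lib.MPf11a48.Tors (IsTorsor ClosedOver grp OmegaM FixesField)
open Pool.Agent.Lib.MPf11a48.K3 (cx)

namespace RlkM

open ReprM REPM MainnM

variable {ι : Type} [Fintype ι] [DecidableEq ι] {c : GL ι ℂ} {ψ : Matrix ι ι ℚ}

theorem sim_prod (S : Str c ψ) (hψ : ψ.det ≠ 0) {X : Matrix ι ι ℂ} {μ : ℂ} {u : EA S.κ S.σ}
    (hX : X = S.Ψ u) (h : Xᵀ * mC ψ * X = μ • mC ψ) (s : S.σ) : u.2 s * u.2 (S.τ s) = μ := by
  have hψu : IsUnit (mC ψ).det := isUnit_iff_ne_zero.2 (psi_det hψ)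
  have hadj : adj (mC ψ) X * X = μ • 1 := by
    rw [adj, mul_assoc, mul_assoc, ← mul_assoc Xᵀ, h, Matrix.mul_smul,
      Matrix.nonsing_inv_mul _ hψu]
  obtain ⟨x, y⟩ := u
  rw [hX, S.adj_Ψ, ← map_mul] at hadj
  have h2 : (μ • (1 : Matrix ι ι ℂ)) = S.Ψ (μ • 1) := by rw [map_smul, map_one]
  rw [h2] at hadj
  have h3 := S.inj hadj
  have h4 : y (S.τ s) * y s = μ • (1 : ℂ) := congrFun (congrArg Prod.snd h3) s
  rw [mul_comm, smul_eq_mul, mul_one] at h4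
  exact h4

/-- the involution of `σ` -/
def tauE (S : Str c ψ) : S.σ ≃ S.σ := Function.Involutive.toPerm S.τ S.τ_τ

theorem tauE_apply (S : Str c ψ) (j : S.σ) : tauE S j = S.τ j := rfl

theorem tau_mem {T : Set (EmbC c.1)} (hT : HalfSet ψ T) (S : Str c ψ)
    (γ : Qbar ≃ₐ[ℚ] Qbar) (j : S.σ) :
    γ.toAlgHom.comp (S.ev (Sum.inr (S.τ j))) ∈ T ↔ ¬ γ.toAlgHom.comp (S.ev (Sum.inr j)) ∈ T :=
  hT.2.2.2.2.2 _ _ (hT.2.2.2.2.1 γ _ _ (S.bar_σ j)) (fun h => by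
    have h2 := comp_inj γ h
    exact S.τ_ne j (Sum.inr_injective (S.ev.injective h2)).symm)

open scoped Classical in
theorem sum_zero {T : Set (EmbC c.1)} (hT : HalfSet ψ T) (S : Str c ψ) {χ : S.σ → ℤ}
    (h0 : ∑ s, χ s = 0) (γ : Qbar ≃ₐ[ℚ] Qbar)
    (h : (∑ j : S.σ, if γ.toAlgHom.comp (S.ev (Sum.inr j)) ∈ T then χ j - χ (S.τ j) else 0) = 0) :
    (∑ j : S.σ, if γ.toAlgHom.comp (S.ev (Sum.inr j)) ∈ T then χ j else 0) = 0 := by
  have h1 : (∑ j : S.σ, if γ.toAlgHom.comp (S.ev (Sum.inr j)) ∈ T then χ (S.τ j) else 0) =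
      ∑ j : S.σ, if γ.toAlgHom.comp (S.ev (Sum.inr j)) ∈ T then 0 else χ j := by
    rw [← Equiv.sum_comp (tauE S)]
    refine Finset.sum_congr rfl fun j _ => ?_
    rw [tauE_apply, S.τ_τ]
    by_cases hj : γ.toAlgHom.comp (S.ev (Sum.inr j)) ∈ T
    · rw [if_neg (fun h => (tau_mem hT S γ j).1 h hj), if_pos hj]
    · rw [if_pos ((tau_mem hT S γ j).2 hj), if_neg hj]
  have h2 : (∑ j : S.σ, if γ.toAlgHom.comp (S.ev (Sum.inr j)) ∈ T then χ j else 0) +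
      (∑ j : S.σ, if γ.toAlgHom.comp (S.ev (Sum.inr j)) ∈ T then 0 else χ j) = 0 := by
    rw [← Finset.sum_add_distrib]
    refine Eq.trans (Finset.sum_congr rfl fun j _ => ?_) h0
    split_ifs <;> simp
  have h3 : (∑ j : S.σ, if γ.toAlgHom.comp (S.ev (Sum.inr j)) ∈ T then χ j else 0) -
      (∑ j : S.σ, if γ.toAlgHom.comp (S.ev (Sum.inr j)) ∈ T then χ (S.τ j) else 0) = 0 := by
    rw [← Finset.sum_sub_distrib]
    refine Eq.trans (Finset.sum_congr rfl fun j _ => ?_) h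
    split_ifs <;> simp
  rw [h1] at h3
  omega

theorem prod_zpow' {α : Type} (s : Finset α) (f : α → ℤ) {μ : ℂ} (hμ : μ ≠ 0) :
    ∏ i ∈ s, μ ^ f i = μ ^ ∑ i ∈ s, f i := by
  classical
  induction s using Finset.induction_on with
  | empty => simp
  | insert a s ha ih => rw [Finset.prod_insert ha, Finset.sum_insert ha, zpow_add₀ hμ, ih]

theorem prod_even {T : Set (EmbC c.1)} (hT : HalfSet ψ T) (S : Str c ψ) {χ : S.σ → ℤ}
    (h0 : ∑ s, χ s = 0) (hev : ∀ s, χ s = χ (S.τ s)) {u : S.σ → ℂ} {μ : ℂ} (hμ : μ ≠ 0)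
    (hu : ∀ s, u s * u (S.τ s) = μ) : ∏ s, u s ^ χ s = 1 := by
  classical
  let γ : Qbar ≃ₐ[ℚ] Qbar := AlgEquiv.refl
  have h1 := sum_zero hT S h0 γ (by
    refine Finset.sum_eq_zero fun j _ => ?_
    rw [← hev j, sub_self, ite_self])
  have h2 : ∏ s, u s ^ χ s =
      (∏ s, if γ.toAlgHom.comp (S.ev (Sum.inr s)) ∈ T then u s ^ χ s else 1) *
      ∏ s, if γ.toAlgHom.comp (S.ev (Sum.inr s)) ∈ T then 1 else u s ^ χ s := by
    rw [← Finset.prod_mul_distrib]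
    refine Finset.prod_congr rfl fun j _ => ?_
    split_ifs <;> simp
  have h3 : (∏ s, if γ.toAlgHom.comp (S.ev (Sum.inr s)) ∈ T then 1 else u s ^ χ s) =
      ∏ s, if γ.toAlgHom.comp (S.ev (Sum.inr s)) ∈ T then u (S.τ s) ^ χ s else 1 := by
    rw [← Equiv.prod_comp (tauE S)]
    refine Finset.prod_congr rfl fun j _ => ?_
    rw [tauE_apply, ← hev j]
    by_cases hj : γ.toAlgHom.comp (S.ev (Sum.inr j)) ∈ T
    · rw [if_neg (fun h => (tau_mem hT S γ j).1 h hj), if_pos hj]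
    · rw [if_pos ((tau_mem hT S γ j).2 hj), if_neg hj]
  rw [h2, h3, ← Finset.prod_mul_distrib]
  have h4 : ∀ s : S.σ, ((if γ.toAlgHom.comp (S.ev (Sum.inr s)) ∈ T then u s ^ χ s else 1) *
      if γ.toAlgHom.comp (S.ev (Sum.inr s)) ∈ T then u (S.τ s) ^ χ s else 1) =
      μ ^ (if γ.toAlgHom.comp (S.ev (Sum.inr s)) ∈ T then χ s else 0) := by
    intro s
    split_ifs
    · rw [← mul_zpow, hu]
    · simp
  rw [Finset.prod_congr rfl fun s _ => h4 s, prod_zpow' _ _ hμ, h1, zpow_zero]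

theorem mem_lam_odd {T : Set (EmbC c.1)} (hT : HalfSet ψ T) (S : Str c ψ) {χ : S.σ → ℤ}
    (h0 : ∑ s, χ s = 0) {f : EmbC c.1 → ℚ} (hf : f ∈ OddH ψ T)
    (h : ∀ s, f (S.ev (Sum.inr s)) = (χ s : ℚ) - χ (S.τ s)) : χ ∈ lam S hT := by
  classical
  intro γ
  have hreal : ∀ k : S.κ, f (S.ev (Sum.inl k)) = 0 := by
    intro k
    have := hf.1 _ _ (S.bar_κ k)
    linarith
  have h1 := hf.2 γ
  rw [← Equiv.sum_comp S.ev, Fintype.sum_sum_type] at h1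
  simp only [hreal, ite_self, Finset.sum_const_zero, zero_add] at h1
  have h2 : (((∑ j : S.σ, if γ.toAlgHom.comp (S.ev (Sum.inr j)) ∈ T then
      χ j - χ (S.τ j) else 0 : ℤ)) : ℚ) = 0 := by
    rw [← h1, Int.cast_sum]
    refine Finset.sum_congr rfl fun j _ => ?_
    by_cases hj : γ.toAlgHom.comp (S.ev (Sum.inr j)) ∈ T
    · rw [if_pos hj, if_pos hj, h]
      push_cast
      rfl
    · rw [if_neg hj, if_neg hj, Int.cast_zero]
  have h3 := sum_zero hT S h0 γ (by exact_mod_cast h2)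
  convert h3

end RlkM

open RlkM ReprM REPM MainnM

/-- RLK. -/
theorem specRlk : SpecRlk := by
  intro ι _ _ c J ψ T S hHD hT y u hyu hy
  have hs := sim_prod S hHD.det hyu hy
  refine ⟨fun χ h0 hev => prod_even hT S h0 hev y.2.ne_zero hs, ?_⟩
  rintro hR χ h0 ⟨f, hf, hfχ⟩
  exact rel_prod (x := u.1) (y := u.2) S hT hR hyu.symm χ (mem_lam_odd hT S h0 hf hfχ)

end Pool.Agent.Lib.MPf11a48.CMK
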