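import Pool.Agent.Lib.MP_f11a48_ag.CMK.Spec
import Pool.Agent.Lib.MP_f11a48_ag.CMM.Mainn
import Pool.Agent.Lib.MP_f11a48_ag.helper17.AutC

/-!
# Motives of complex multiplication type over a field `K`, module RTK: the central elements
-/

set_option autoImplicit false

namespace Pool.Agent.Lib.MPf11a48.CMK

open Matrix MvPolynomial
open Pool.Agent.Lib.MPf11a48.CM hiding OmegaM
open Pool.Agent.Lib.MPf11a48.GL2T
open Pool.Agent.Lib.MPf11a48.U
open Pool.Agent.Lib.MPf11a48.CMM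
open Pool.Agent.Lib.MPf11a48.C (IsRep IsSubObj imG tpi)
open Pool.Agent.Lib.MPf11a48.Tors (IsTorsor ClosedOver grp OmegaM FixesField)
open Pool.Agent.Lib.MPf11a48.K3 (cx)

namespace RtkM

open ReprM REPM MainnM

variable {ι : Type} [Fintype ι] [DecidableEq ι] {c : GL ι ℂ} {ψ : Matrix ι ι ℚ}
  {F : IntermediateField ℚ ℂ} {kk : Submodule ℂ (Matrix ι ι ℂ)}

theorem map_int_mul (l : ℂ →ₗ[ℚ] ℚ) (n : ℤ) (z : ℂ) : l ((n : ℂ) * z) = (n : ℚ) * l z := by
  rw [← zsmul_eq_mul, map_zsmul, zsmul_eq_mul]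

theorem form_mem (S : Str c ψ) (hk : LieOK c F kk) {w : EmbC c.1 → ℂ}
    (hw : TORM.cenL S (fun e => w (S.ev e)) ∈ kk) (l : ℂ →ₗ[ℚ] ℚ) :
    TORM.cenL S (fun e => ((l (w (S.ev e)) : ℚ) : ℂ)) ∈ kk := by
  rw [← TORM.cen_sum]
  refine hk.alg (S.κ ⊕ S.σ) (fun e => TORM.cenL S (Pi.single e 1)) ?_ ?_ ?_
    (fun e => w (S.ev e)) _ ?_ ?_
  · intro s
    rw [← TORM.cen_mul]
    congr 1
    funext e
    by_cases h : e = s
    · subst h
      simp
    · simp [Pi.single_eq_of_ne h]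
  · intro s t hst
    rw [← TORM.cen_mul]
    have h0 : (Pi.single s 1 * Pi.single t 1 : S.κ ⊕ S.σ → ℂ) = 0 := by
      funext e
      by_cases h : e = s
      · subst h
        rw [Pi.mul_apply, Pi.single_eq_of_ne hst, mul_zero]
        rfl
      · rw [Pi.mul_apply, Pi.single_eq_of_ne h, zero_mul]
        rfl
    rw [h0, map_zero]
  · have h := TORM.cen_sum S 1
    simp only [Pi.one_apply, one_smul] at h
    rw [h, TORM.cen_one]
  · rw [TORM.cen_sum]
    exact hw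
  · intro χ h
    have h1 := congrArg l h
    rw [map_sum, map_zero] at h1
    simp only [map_int_mul] at h1
    have h2 : ((∑ s, (χ s : ℚ) * l (w (S.ev s)) : ℚ) : ℂ) = 0 := by
      rw [h1, Rat.cast_zero]
    rw [← h2]
    push_cast
    rfl

/-- the action of an automorphism of `Qbar` on the embeddings of the centre -/
noncomputable def gE (γ : Qbar ≃ₐ[ℚ] Qbar) : EmbC c.1 ≃ EmbC c.1 where
  toFun s := γ.toAlgHom.comp s
  invFun s := γ.symm.toAlgHom.comp s
  left_inv s := by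
    apply AlgHom.ext
    intro z
    exact γ.symm_apply_apply _
  right_inv s := by
    apply AlgHom.ext
    intro z
    exact γ.apply_symm_apply _

theorem gE_apply (γ : Qbar ≃ₐ[ℚ] Qbar) (s : EmbC c.1) : gE γ s = γ.toAlgHom.comp s := rfl

omit [Fintype ι] [DecidableEq ι] in
theorem mC_map (σ : ℂ ≃+* ℂ) (Z : Matrix ι ι ℚ) : (mC Z).map σ = mC Z := by
  ext i j
  exact map_ratCast σ _

omit [Fintype ι] [DecidableEq ι] in
theorem sum_map {α : Type} (s : Finset α) (σ : ℂ ≃+* ℂ) (A : α → Matrix ι ι ℂ) :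
    (∑ a ∈ s, A a).map σ = ∑ a ∈ s, (A a).map σ := by
  ext i j
  rw [Matrix.map_apply, Matrix.sum_apply, Matrix.sum_apply, map_sum]
  rfl

omit [Fintype ι] [DecidableEq ι] in
theorem smul_map (σ : ℂ ≃+* ℂ) (a : ℂ) (A : Matrix ι ι ℂ) :
    (a • A).map σ = σ a • A.map σ := by
  ext i j
  exact map_mul σ a (A i j)

theorem ide_map (S : Str c ψ) (γ : Qbar ≃ₐ[ℚ] Qbar) (σ : ℂ ≃+* ℂ)
    (hσ : ∀ x : Qbar, σ (x : ℂ) = ((γ.symm x : Qbar) : ℂ)) (s : EmbC c.1) :
    (ide S (gE γ s)).map σ = ide S s := by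
  have h1 : ∀ z : CenAlg c.1, ∑ t : EmbC c.1, ((t z : Qbar) : ℂ) •
      ((ide S (gE γ t)).map σ - ide S t) = 0 := by
    intro z
    have h2 : ∑ t : EmbC c.1, ((t z : Qbar) : ℂ) • (ide S (gE γ t)).map σ = mC z.1 := by
      have h3 : (∑ t : EmbC c.1, ((t z : Qbar) : ℂ) • ide S t).map σ = mC z.1 := by
        rw [sum_pt, mC_map]
      rw [← h3, sum_map, ← Equiv.sum_comp (gE γ) (fun t : EmbC c.1 =>
        (((t z : Qbar) : ℂ) • ide S t).map σ)]
      refine Finset.sum_congr rfl fun t _ => ?_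
      have e1 : σ ((((gE γ t) z : Qbar)) : ℂ) = ((t z : Qbar) : ℂ) := by
        rw [hσ]
        exact congrArg (fun x : Qbar => (x : ℂ)) (γ.symm_apply_apply (t z))
      rw [smul_map, e1]
    simp only [smul_sub, Finset.sum_sub_distrib]
    rw [h2, sum_pt, sub_self]
  ext i j
  have h5 : ∀ t, ((ide S (gE γ t)).map σ - ide S t) i j = 0 := by
    apply indep S
    intro z
    have h6 := congrFun (congrFun (h1 z) i) j
    rw [Matrix.sum_apply] at h6
    rw [Matrix.zero_apply] at h6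
    rw [← h6]
    refine Finset.sum_congr rfl fun t _ => ?_
    rw [Matrix.smul_apply, smul_eq_mul]
  have h7 := h5 s
  rw [Matrix.sub_apply] at h7
  exact sub_eq_zero.1 h7

theorem gal_mem (hF : F ≤ Qbar) (S : Str c ψ) (hk : LieOK c F kk) {w : EmbC c.1 → ℚ}
    (hw : TORM.cenL S (fun e => ((w (S.ev e) : ℚ) : ℂ)) ∈ kk) (γ : Qbar ≃ₐ[ℚ] Qbar)
    (hγ : OverG F γ) :
    TORM.cenL S (fun e => ((w (γ.toAlgHom.comp (S.ev e)) : ℚ) : ℂ)) ∈ kk := by
  obtain ⟨σ, hσ⟩ := AutC.exists_extend_Qbar γ.symm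
  have hσ' : ∀ x : Qbar, σ (x : ℂ) = ((γ.symm x : Qbar) : ℂ) := hσ
  have hfix : FixesField F σ := by
    intro a ha
    have h1 := hσ' ⟨a, hF ha⟩
    have h2 : γ.symm (⟨a, hF ha⟩ : Qbar) = ⟨a, hF ha⟩ := by
      rw [AlgEquiv.symm_apply_eq]
      exact (hγ ⟨a, hF ha⟩ ha).symm
    rw [h2] at h1
    exact h1
  have h1 := hk.tau σ hfix _ hw
  have h2 : (TORM.cenL S (fun e => ((w (S.ev e) : ℚ) : ℂ))).map σ =
      TORM.cenL S (fun e => ((w (γ.toAlgHom.comp (S.ev e)) : ℚ) : ℂ)) := by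
    change (CX S (fun s => ((w s : ℚ) : ℂ))).map σ =
      CX S (fun s => ((w (γ.toAlgHom.comp s) : ℚ) : ℂ))
    rw [← sum_ide, ← sum_ide, sum_map, ← Equiv.sum_comp (gE γ) (fun t : EmbC c.1 =>
      (((w t : ℚ) : ℂ) • ide S t).map σ)]
    refine Finset.sum_congr rfl fun t _ => ?_
    rw [smul_map, ide_map S γ σ hσ', map_ratCast]
    rfl
  rwa [h2] at h1

end RtkM

open RtkM ReprM REPM MainnM

/-- RTK. -/
theorem specRtk (hKSL : SpecKsl) : SpecRtk := by
  have hSIM : SpecSIM := specSIM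
  have hBIC : SpecBIC := BicM.specBIC specLIN specDER specSIM
  intro ι _ _ _ c J ψ F S kk hF hHD hk
  have hcomm := (hSIM c J ψ hHD).1
  have hsimil := (hSIM c J ψ hHD).2.1
  refine ⟨fun w hw l => form_mem S hk hw l, fun w hw γ hγ => gal_mem hF S hk hw γ hγ, ?_, ?_⟩
  · intro w hw
    obtain ⟨m, h⟩ := hsimil _ (hk.inH _ hw)
    have h1 := TORM.mult_eq S hHD.det (x := fun k => w (S.ev (Sum.inl k)) • 1)
      (y := fun s => w (S.ev (Sum.inr s))) h
    refine ⟨m, ?_⟩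
    intro s s' hs
    obtain ⟨e, rfl⟩ := S.ev.surjective s
    have h2 := TORM.isBar_unique hBIC hHD hs (TORM.isBar_bar S e)
    subst h2
    rcases e with k | j
    · have h3 := h1.1 k
      rw [Matrix.trace_smul, Matrix.trace_one] at h3
      simp only [Fintype.card_fin, smul_eq_mul] at h3
      change w (S.ev (Sum.inl k)) + w (S.ev (Sum.inl k)) = m
      rw [← h3]
      push_cast
      ring
    · exact h1.2 j
  · obtain ⟨ψdR, hψ, hleg⟩ := hHD.leg
    obtain ⟨δ, hδ⟩ := GL2.exists_derivation SimM.two_pi_I_notMem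
    have hX := hk.log δ
    have hm := SimM.log_deriv c ψ ψdR hψ hleg δ
    set m : ℂ := δ (2 * Real.pi * Complex.I) / (2 * Real.pi * Complex.I) with hmdef
    have hm0 : m ≠ 0 := div_ne_zero hδ (by simp [Real.pi_ne_zero])
    obtain ⟨⟨x, y⟩, hxy⟩ := (S.mem_range _).2 (fun B hB => hcomm _ (hk.inH _ hX) B hB)
    rw [← hxy] at hX hm
    obtain ⟨h1, h2⟩ := TORM.mult_eq S hHD.det hm
    have h3 : TORM.cenL S (Sum.elim (fun _ => m / 2) y) =
        S.Ψ (x, y) + (-1 : ℂ) • S.Ψ (fun k => x k - (m / 2) • 1, 0) := by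
      rw [TORM.cenL_apply, TORM.cen, ← map_smul, ← map_add]
      congr 1
      refine Prod.ext ?_ ?_
      · funext k
        simp
      · funext s
        simp
    have h4 : TORM.cenL S (Sum.elim (fun _ => m / 2) y) ∈ kk := by
      rw [h3]
      refine kk.add_mem hX (kk.smul_mem _ (hKSL ι c J ψ F S kk hHD hk _ fun k => ?_))
      rw [Matrix.trace_sub, h1, Matrix.trace_smul, Matrix.trace_one]
      simp
    refine ⟨fun s => m⁻¹ * (Sum.elim (fun _ => m / 2) y : S.κ ⊕ S.σ → ℂ) (S.ev.symm s), ?_, ?_⟩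
    · have h5 := kk.smul_mem m⁻¹ h4
      rw [← map_smul] at h5
      have h6 : (fun e => m⁻¹ * (Sum.elim (fun _ => m / 2) y : S.κ ⊕ S.σ → ℂ)
          (S.ev.symm (S.ev e))) = m⁻¹ • (Sum.elim (fun _ => m / 2) y : S.κ ⊕ S.σ → ℂ) := by
        funext e
        rw [Equiv.symm_apply_apply]
        rfl
      rw [h6]
      exact h5
    · intro s s' hs
      obtain ⟨e, rfl⟩ := S.ev.surjective s
      have h5 := TORM.isBar_unique hBIC hHD hs (TORM.isBar_bar S e)
      subst h5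
      beta_reduce
      rw [Equiv.symm_apply_apply, Equiv.symm_apply_apply, ← mul_add]
      rcases e with k | j
      · change m⁻¹ * (m / 2 + m / 2) = 1
        rw [add_halves, inv_mul_cancel₀ hm0]
      · change m⁻¹ * (y j + y (S.τ j)) = 1
        rw [h2, inv_mul_cancel₀ hm0]

end Pool.Agent.Lib.MPf11a48.CMK
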