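import Pool.Agent.Lib.MP_f11a48_ag.CMK.Spec

/-! # Tensor constructions and a torsor over `K` with group over `F` -/

set_option autoImplicit false

namespace Pool.Agent.Lib.MPf11a48.CMK

namespace TenkkM

open Matrix MvPolynomial Pool.Agent.Lib.MPf11a48.Tors
open Pool.Agent.Lib.MPf11a48.CM hiding OmegaM tw
open Pool.Agent.Lib.MPf11a48.GL2T (Conj)
open Pool.Agent.Lib.MPf11a48.C (IsRep IsSubObj imG tpi)
open Pool.Agent.Lib.MPf11a48.C.TenM
open Pool.Agent.Lib.MPf11a48.CMM (IsSubOver)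

/-- If every torsor over `L` with group over `F` through `(c, 2 π i)` contains `W (c, 2 π i)`,
then this is so for all torsors over `K` with group over `F` through a sub-object over `L` of the
objects obtained by tensor operations. -/
theorem ten {μ : Type} [Fintype μ] [DecidableEq μ] (W : Set (GL μ ℂ × ℂˣ)) (c : GL μ ℂ)
    (L F : IntermediateField ℚ ℂ)
    (hW : ∀ T : Set (GL (μ ⊕ Unit) ℂ), IsTorsor L T → bd (c, tpi) ∈ T →
      ClosedOver F (grp T) → ∀ y ∈ W, bd (y * (c, tpi)) ∈ T)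
    (K : IntermediateField ℚ ℂ) (hK : K ≤ L) (κ ι : Type) [Fintype κ] [DecidableEq κ]
    [Fintype ι] [DecidableEq ι] (T : GL μ ℂ × ℂˣ → GL κ ℂ) (hT : IsRep T) (n : GL ι ℂ)
    (iB : Matrix κ ι ℚ) (hN : IsSubOver L (T (c, tpi)) n iB)
    (T' : Set (GL ι ℂ)) (hT' : IsTorsor K T') (hn : n ∈ T') (hcl : ClosedOver F (grp T')) :
    (∀ y ∈ W, ∃ f : GL ι ℂ,
      (T y).1 * iB.map (algebraMap ℚ ℂ) = iB.map (algebraMap ℚ ℂ) * f.1) ∧
    ∀ f ∈ imG T iB W, ∀ h, Conj K (f * n) h → h ∈ T' := by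
  obtain ⟨⟨pB, hpB⟩, idR, hdR⟩ := hN
  have hpBC : pB.map (algebraMap ℚ ℂ) * iB.map (algebraMap ℚ ℂ) = 1 := by
    rw [← Matrix.map_mul, hpB, Matrix.map_one _ (map_zero _) (map_one _)]
  have hnn : n⁻¹.1 * n.1 = 1 := n.inv_mul
  have hG : (n⁻¹.1 * pB.map (algebraMap ℚ ℂ) * (T (c, tpi)).1) * idR.map (algebraMap L ℂ) = 1 := by
    rw [Matrix.mul_assoc, hdR]
    calc n⁻¹.1 * pB.map (algebraMap ℚ ℂ) * (iB.map (algebraMap ℚ ℂ) * n.1)
        = n⁻¹.1 * (pB.map (algebraMap ℚ ℂ) * iB.map (algebraMap ℚ ℂ)) * n.1 := by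
          simp only [Matrix.mul_assoc]
      _ = 1 := by rw [hpBC, Matrix.mul_one, hnn]
  -- uniqueness of the automorphism
  have huniq : ∀ {f f' : GL ι ℂ}, iB.map (algebraMap ℚ ℂ) * f.1 = iB.map (algebraMap ℚ ℂ) * f'.1 →
      f = f' := by
    intro f f' h
    apply Units.ext
    have h1 := congrArg (fun X => pB.map (algebraMap ℚ ℂ) * X) h
    simp only [← Matrix.mul_assoc, hpBC, Matrix.one_mul] at h1
    exact h1
  have hT₀ : IsTorsor L T' := ⟨GL2.closedOver_mono hK hT'.closed, hT'.nonempty, hT'.heap⟩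
  have hT1 : T 1 = 1 := by
    have h := hT.mul 1 1
    rw [mul_one] at h
    exact (mul_eq_left.1 h.symm)
  have hTinv : ∀ x, T x⁻¹ = (T x)⁻¹ := by
    intro x
    rw [eq_inv_iff_mul_eq_one, ← hT.mul, inv_mul_cancel, hT1]
  -- the preimage
  set T₁ : Set (GL (μ ⊕ Unit) ℂ) := {g | ∃ x, bd x = g ∧ ∃ f ∈ T',
    (T x).1 * idR.map (algebraMap L ℂ) = iB.map (algebraMap ℚ ℂ) * f.1} with hT₁
  have hcT₁ : bd (c, tpi) ∈ T₁ := ⟨_, rfl, n, hn, hdR⟩
  have htor : IsTorsor L T₁ := by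
    refine ⟨closedOver_sub hT.regular hpB hG hT₀.closed, ⟨_, hcT₁⟩, ?_⟩
    rintro _ ⟨x, rfl, fx, hx, hx'⟩ _ ⟨y, rfl, fy, hy, hy'⟩ _ ⟨z, rfl, fz, hz, hz'⟩
    refine ⟨x * y⁻¹ * z, by rw [map_mul, map_mul, map_inv], fx * fy⁻¹ * fz,
      hT₀.heap _ hx _ hy _ hz, ?_⟩
    rw [hT.mul, hT.mul, hTinv]
    exact sub_mul (sub_inv hx' hy') hz'
  have hiB : (iB.map (algebraMap ℚ F)).map (algebraMap F ℂ) = iB.map (algebraMap ℚ ℂ) := by
    ext i j
    exact (IsScalarTower.algebraMap_apply ℚ F ℂ _).symm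
  have hgrp : ClosedOver F (grp T₁) := by
    have e : grp T₁ = {g | ∃ x, bd x = g ∧ ∃ f ∈ grp T', (T x).1 *
        (iB.map (algebraMap ℚ F)).map (algebraMap F ℂ) = iB.map (algebraMap ℚ ℂ) * f.1} := by
      ext g
      rw [mem_grp_iff htor hcT₁, hiB]
      constructor
      · rintro ⟨x, hx, f, hf, hx'⟩
        refine ⟨x * (c, tpi)⁻¹, by rw [map_mul, map_inv, hx, mul_inv_cancel_right], f * n⁻¹,
          ⟨f, hf, n, hn, rfl⟩, ?_⟩
        rw [hT.mul, hTinv]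
        exact sub_inv hx' hdR
      · rintro ⟨x, rfl, f, hf, hx⟩
        refine ⟨x * (c, tpi), map_mul _ _ _, f * n, (mem_grp_iff hT₀ hn).1 hf, ?_⟩
        rw [hT.mul]
        exact sub_mul hx hdR
    rw [e]
    refine closedOver_sub hT.regular hpB (G := pB.map (algebraMap ℚ ℂ)) ?_ hcl
    rw [hiB]
    exact hpBC
  have hmain : ∀ y ∈ W, ∃ f : GL ι ℂ,
      (T y).1 * iB.map (algebraMap ℚ ℂ) = iB.map (algebraMap ℚ ℂ) * f.1 ∧ f * n ∈ T' := by
    intro y hy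
    obtain ⟨x, hx, f, hf, hx'⟩ := hW T₁ htor hcT₁ hgrp y hy
    have hxy : x = y * (c, tpi) := bd_injective hx
    have h1 := sub_inv (f := f) (f' := n) hx' hdR
    rw [hxy, hT.mul, mul_inv_cancel_right] at h1
    exact ⟨f * n⁻¹, h1, by rwa [inv_mul_cancel_right]⟩
  have h0 : ∀ f ∈ imG T iB W, f * n ∈ T' := by
    rintro f ⟨y, hy, hf⟩
    obtain ⟨f', hf', h2⟩ := hmain y hy
    have : f = f' := huniq (hf.symm.trans hf')
    rw [this]
    exact h2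
  refine ⟨fun y hy => ?_, ?_⟩
  · obtain ⟨f, hf, _⟩ := hmain y hy
    exact ⟨f, hf⟩
  · intro f hf h hh
    obtain ⟨τ, hτ, hh⟩ := hh
    have hh' : h = tw τ (f * n) := by
      apply Units.ext
      exact Matrix.ext hh
    rw [hh']
    exact hT'.closed.tw_mem hτ (h0 f hf)

end TenkkM

theorem specTenkk : SpecTenkk := by
  intro μ _ _ W c L F _ hW K hK κ ι _ _ _ _ T hT n iB hN T' hT' hn hcl
  exact TenkkM.ten W c L F hW K hK κ ι T hT n iB hN T' hT' hn hcl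

end Pool.Agent.Lib.MPf11a48.CMK
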