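import Pool.Agent.Lib.MP_f11a48_ag.CMK.Spec
import Pool.Agent.Lib.MP_f11a48_ag.CMM.Torn

/-!
# Motives of complex multiplication type over a field `K`, module TORK: the central part
-/

set_option autoImplicit false

namespace Pool.Agent.Lib.MPf11a48.CMK

open Matrix MvPolynomial
open Pool.Agent.Lib.MPf11a48.CM hiding OmegaM
open Pool.Agent.Lib.MPf11a48.GL2T
open Pool.Agent.Lib.MPf11a48.U
open Pool.Agent.Lib.MPf11a48.CMM
open Pool.Agent.Lib.MPf11a48.Tors (IsTorsor ClosedOver grp OmegaM FixesField)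
open Pool.Agent.Lib.MPf11a48.K3 (cx)
open scoped Classical

namespace TorkM

open TORM TorrM TypM TypnM TornM

theorem exists_form : ∃ l : ℂ →ₗ[ℚ] ℚ, l 1 = 1 := by
  have h1 : LinearMap.ker (LinearMap.toSpanSingleton ℚ ℂ 1) = ⊥ := by
    rw [LinearMap.ker_eq_bot']
    intro q hq
    rw [LinearMap.toSpanSingleton_apply, Algebra.smul_def, mul_one] at hq
    exact (map_eq_zero (algebraMap ℚ ℂ)).1 hq
  obtain ⟨g, hg⟩ := (LinearMap.toSpanSingleton ℚ ℂ 1).exists_leftInverse_of_injective h1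
  refine ⟨g, ?_⟩
  have h2 := LinearMap.congr_fun hg 1
  rw [LinearMap.comp_apply, LinearMap.toSpanSingleton_apply, one_smul] at h2
  exact h2

theorem overG_symm {F : IntermediateField ℚ ℂ} {γ : Qbar ≃ₐ[ℚ] Qbar} (h : OverG F γ) :
    OverG F γ.symm := by
  intro a ha
  rw [AlgEquiv.symm_apply_eq]
  exact (h a ha).symm

theorem overG_trans {F : IntermediateField ℚ ℂ} {γ γ' : Qbar ≃ₐ[ℚ] Qbar} (h : OverG F γ)
    (h' : OverG F γ') : OverG F (γ'.trans γ) := by
  intro a ha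
  change γ (γ' a) = a
  rw [h' a ha, h a ha]

variable {ι : Type} [Fintype ι] [DecidableEq ι] {c : GL ι ℂ} {ψ : Matrix ι ι ℚ}

theorem isBar_gal (γ : Qbar ≃ₐ[ℚ] Qbar) {s s' : EmbC c.1} (h : IsBar ψ s s') :
    IsBar ψ (γ.toAlgHom.comp s) (γ.toAlgHom.comp s') :=
  fun z z' hz => congrArg γ (h z z' hz)

/-- the conjugate -/
noncomputable def bE (S : Str c ψ) : EmbC c.1 ≃ EmbC c.1 := (S.ev.symm.trans (barE S)).trans S.ev

theorem isBar_bE (S : Str c ψ) (s : EmbC c.1) : IsBar ψ s (bE S s) := by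
  have h := isBar_bar S (S.ev.symm s)
  rwa [Equiv.apply_symm_apply] at h

theorem bE_bE (S : Str c ψ) (s : EmbC c.1) : bE S (bE S s) = s := by
  change S.ev (bar S (S.ev.symm (S.ev (bar S (S.ev.symm s))))) = s
  rw [Equiv.symm_apply_apply, TORM.bar_bar, Equiv.apply_symm_apply]

/-- the odd part of `M` which is stable under the automorphisms over `F`, rational, and orthogonal to
`O` -/
def M5 (F : IntermediateField ℚ ℂ) (ψ : Matrix ι ι ℚ) (O : Submodule ℚ (EmbC c.1 → ℚ))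
    (M : Submodule ℂ (EmbC c.1 → ℂ)) : Submodule ℂ (EmbC c.1 → ℂ) where
  carrier := {w | (∀ (l : ℂ →ₗ[ℚ] ℚ) (γ : Qbar ≃ₐ[ℚ] Qbar), OverG F γ →
      (fun s : EmbC c.1 => ((l (w (γ.toAlgHom.comp s)) : ℚ) : ℂ)) ∈ M) ∧
    (∀ f ∈ O, ∑ s, (f s : ℂ) * w s = 0) ∧ ∀ s s', IsBar ψ s s' → w s' = -w s}
  zero_mem' := by
    refine ⟨fun l γ _ => ?_, fun f _ => ?_, fun s s' _ => by simp⟩
    · have : (fun s : EmbC c.1 => ((l ((0 : EmbC c.1 → ℂ) (γ.toAlgHom.comp s)) : ℚ) : ℂ)) = 0 := by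
        funext s
        simp
      rw [this]
      exact M.zero_mem
    · simp
  add_mem' := by
    rintro v w ⟨hv, hv', hv''⟩ ⟨hw, hw', hw''⟩
    refine ⟨fun l γ hγ => ?_, fun f hf => ?_, fun s s' hs => ?_⟩
    · have : (fun s : EmbC c.1 => ((l ((v + w) (γ.toAlgHom.comp s)) : ℚ) : ℂ)) =
          (fun s : EmbC c.1 => ((l (v (γ.toAlgHom.comp s)) : ℚ) : ℂ)) +
            fun s : EmbC c.1 => ((l (w (γ.toAlgHom.comp s)) : ℚ) : ℂ) := by
        funext s
        simp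
      rw [this]
      exact M.add_mem (hv l γ hγ) (hw l γ hγ)
    · simp only [Pi.add_apply, mul_add, Finset.sum_add_distrib, hv' f hf, hw' f hf, add_zero]
    · rw [Pi.add_apply, Pi.add_apply, hv'' s s' hs, hw'' s s' hs]
      ring
  smul_mem' := by
    rintro r w ⟨hw, hw', hw''⟩
    refine ⟨fun l γ hγ => ?_, fun f hf => ?_, fun s s' hs => ?_⟩
    · exact hw (l ∘ₗ LinearMap.mulLeft ℚ r) γ hγ
    · have : ∀ s, (f s : ℂ) * (r • w) s = r * ((f s : ℂ) * w s) := fun s => by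
        simp only [Pi.smul_apply, smul_eq_mul]
        ring
      simp only [this, ← Finset.mul_sum, hw' f hf, mul_zero]
    · rw [Pi.smul_apply, Pi.smul_apply, hw'' s s' hs, smul_neg]

variable {F : IntermediateField ℚ ℂ} {O : Submodule ℚ (EmbC c.1 → ℚ)}
  {M : Submodule ℂ (EmbC c.1 → ℂ)}

theorem M5_le : M5 F ψ O M ≤ M := by
  intro w hw
  refine mem_of_lin M fun l => ?_
  exact hw.1 l AlgEquiv.refl fun _ _ => rfl

theorem M5_rat {w : EmbC c.1 → ℂ} (hw : w ∈ M5 F ψ O M) (l : ℂ →ₗ[ℚ] ℚ) :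
    (fun s => ((l (w s) : ℚ) : ℂ)) ∈ M5 F ψ O M := by
  refine ⟨fun l' γ hγ => ?_, fun f hf => ?_, fun s s' hs => ?_⟩
  · have : (fun s : EmbC c.1 => ((l' ((l (w (γ.toAlgHom.comp s)) : ℚ) : ℂ) : ℚ) : ℂ)) =
        ((l' 1 : ℚ) : ℂ) • fun s : EmbC c.1 => ((l (w (γ.toAlgHom.comp s)) : ℚ) : ℂ) := by
      funext s
      have h1 := lin_rat_mul l' (l (w (γ.toAlgHom.comp s))) 1
      rw [mul_one] at h1
      rw [h1, Pi.smul_apply, smul_eq_mul]
      push_cast
      ring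
    rw [this]
    exact M.smul_mem _ (hw.1 l γ hγ)
  · have h1 := congrArg l (hw.2.1 f hf)
    rw [map_sum, map_zero] at h1
    have h2 : ∑ s, f s * l (w s) = 0 := by
      rw [← h1]
      exact Finset.sum_congr rfl fun s _ => (lin_rat_mul l _ _).symm
    have h3 : ((∑ s, f s * l (w s) : ℚ) : ℂ) = 0 := by
      rw [h2]
      norm_num
    push_cast at h3
    exact h3
  · change ((l (w s') : ℚ) : ℂ) = -((l (w s) : ℚ) : ℂ)
    rw [hw.2.2 s s' hs, map_neg, Rat.cast_neg]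

theorem M5_gal (hO : ∀ γ : Qbar ≃ₐ[ℚ] Qbar, OverG F γ → ∀ f ∈ O,
    (fun s : EmbC c.1 => f (γ.toAlgHom.comp s)) ∈ O) {w : EmbC c.1 → ℂ}
    (hw : w ∈ M5 F ψ O M) (γ : Qbar ≃ₐ[ℚ] Qbar) (hγ : OverG F γ) :
    (fun s : EmbC c.1 => w (γ.toAlgHom.comp s)) ∈ M5 F ψ O M := by
  refine ⟨fun l γ' hγ' => hw.1 l (γ'.trans γ) (overG_trans hγ hγ'), fun f hf => ?_,
    fun s s' hs => hw.2.2 _ _ (isBar_gal γ hs)⟩
  rw [sum_gal γ fun t s => (f s : ℂ) * w t]
  exact hw.2.1 _ (hO γ.symm (overG_symm hγ) f hf)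

theorem M5_aut (κ : CenAlg c.1 ≃ₐ[ℚ] CenAlg c.1)
    (hodd : ∀ f ∈ O, (fun s : EmbC c.1 => f (s.comp κ.toAlgHom)) ∈ O)
    (hbar : ∀ s s' : EmbC c.1, IsBar ψ s s' →
      IsBar ψ (s.comp κ.toAlgHom) (s'.comp κ.toAlgHom))
    (hM : ∀ w ∈ M, (fun s : EmbC c.1 => w (s.comp κ.toAlgHom)) ∈ M) {w : EmbC c.1 → ℂ}
    (hw : w ∈ M5 F ψ O M) :
    (fun s : EmbC c.1 => w (s.comp κ.toAlgHom)) ∈ M5 F ψ O M := by
  refine ⟨fun l γ hγ => hM _ (hw.1 l γ hγ), fun f hf => ?_,
    fun s s' hs => hw.2.2 _ _ (hbar s s' hs)⟩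
  have h1 := hw.2.1 _ (stable_symm O (actR (c := c.1) κ) hodd hf)
  rw [← h1]
  refine Fintype.sum_equiv (actR (c := c.1) κ) _ _ fun s => ?_
  rw [Equiv.symm_apply_apply]
  rfl

end TorkM

open TORM TorrM TypM TypnM TornM TorkM

/-- TORK. -/
theorem specTork (hRTK : SpecRtk) (hKND : SpecKnd) : SpecTork := by
  have hB : SpecBIC := BicM.specBIC specLIN specDER specSIM
  intro ι _ _ _ c J ψ F S R kk O hF h hk hR M hM hMR m y hy hyrel
  obtain ⟨hr1, hr2, hr3, w₁, hw₁, hw₁'⟩ := hRTK ι c J ψ F S kk hF h hk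
  obtain ⟨ρ, hρF, hρ⟩ := hR.conj
  have huniq : ∀ {s s' : EmbC c.1}, IsBar ψ s s' → s' = bE S s := fun hs =>
    isBar_unique hB h hs (isBar_bE S _)
  -- the constant functions
  have hone : cenL S (fun _ => (1 : ℂ)) ∈ kk := by
    obtain ⟨l, hl⟩ := exists_form
    have h1 := hr1 w₁ hw₁ l
    have h2 : ∀ s s', IsBar ψ s s' → l (w₁ s) + l (w₁ s') = 1 := fun s s' hs => by
      rw [← map_add, hw₁' s s' hs, hl]
    have h3 := hr2 (fun s => l (w₁ s)) h1 ρ hρF
    have h4 : ∀ s : EmbC c.1, l (w₁ s) - l (w₁ (ρ.toAlgHom.comp s)) = 2 * l (w₁ s) - 1 := by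
      intro s
      by_cases hs : IsBar ψ s s
      · have h5 := h2 _ _ hs
        have h6 := h2 _ _ (isBar_gal ρ hs)
        linarith
      · have h5 := h2 _ _ (hρ s hs)
        linarith
    have h5 : (fun _ => (1 : ℂ) : S.κ ⊕ S.σ → ℂ) =
        (2 : ℂ) • (fun e => ((l (w₁ (S.ev e)) : ℚ) : ℂ)) -
          ((fun e => ((l (w₁ (S.ev e)) : ℚ) : ℂ)) -
            fun e => ((l (w₁ (ρ.toAlgHom.comp (S.ev e))) : ℚ) : ℂ)) := by
      funext e
      have h6 := congrArg (fun q : ℚ => (q : ℂ)) (h4 (S.ev e))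
      push_cast at h6
      simp only [Pi.sub_apply, Pi.smul_apply, smul_eq_mul]
      rw [h6]
      ring
    rw [h5, map_sub, map_smul, map_sub]
    exact kk.sub_mem (kk.smul_mem _ h1) (kk.sub_mem h1 h3)
  have hconst : ∀ a : ℂ, cenL S (fun _ => a) ∈ kk := by
    intro a
    have h1 : (fun _ => a : S.κ ⊕ S.σ → ℂ) = a • fun _ => (1 : ℂ) := by
      funext e
      simp
    rw [h1, map_smul]
    exact kk.smul_mem _ hone
  -- the odd elements of the Lie algebra
  have hH5 : ∀ w : EmbC c.1 → ℂ, cenL S (fun e => w (S.ev e)) ∈ kk →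
      (∀ s s', IsBar ψ s s' → w s' = -w s) → w ∈ M5 F ψ O M := by
    intro w hw hodd
    refine ⟨fun l γ hγ => hM _ ?_, fun f hf => hR.rel w hw f hf, hodd⟩
    exact hr2 (fun s => l (w s)) (hr1 w hw l) γ hγ
  -- functions orthogonal to `M5`
  have hpgal : ∀ γ : Qbar ≃ₐ[ℚ] Qbar, OverG F γ → ∀ f ∈ perp (M5 F ψ O M),
      (fun s : EmbC c.1 => f (γ.toAlgHom.comp s)) ∈ perp (M5 F ψ O M) := by
    intro γ hγ f hf w hw
    change ∑ s, (f (γ.toAlgHom.comp s) : ℂ) * w s = 0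
    rw [sum_gal γ fun t s => (f t : ℂ) * w s]
    exact hf _ (M5_gal hR.gal hw γ.symm (overG_symm hγ))
  have hpaut : ∀ κ ∈ R, ∀ f ∈ perp (M5 F ψ O M),
      (fun s : EmbC c.1 => f (s.comp κ.toAlgHom)) ∈ perp (M5 F ψ O M) := by
    intro κ hκ f hf w hw
    have h1 := hf _ (stable_symm (M5 F ψ O M) (actR (c := c.1) κ)
      (fun w hw => M5_aut κ (hR.act κ hκ) (hR.bar κ hκ) (hMR κ hκ) hw) hw)
    rw [← h1]
    refine Fintype.sum_equiv (actR (c := c.1) κ) _ _ fun s => ?_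
    rw [Equiv.symm_apply_apply]
    rfl
  -- the odd functions orthogonal to `M5`
  have hU : ∀ f ∈ perp (M5 F ψ O M), (∀ s s', IsBar ψ s s' → f s' = -f s) → f ∈ O := by
    let U : Submodule ℚ (EmbC c.1 → ℚ) :=
      { carrier := {f | f ∈ perp (M5 F ψ O M) ∧ ∀ s s', IsBar ψ s s' → f s' = -f s}
        zero_mem' := ⟨(perp (M5 F ψ O M)).zero_mem, fun _ _ _ => by simp⟩
        add_mem' := by
          rintro f g ⟨hf, hf'⟩ ⟨hg, hg'⟩
          refine ⟨(perp (M5 F ψ O M)).add_mem hf hg, fun s s' hs => ?_⟩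
          rw [Pi.add_apply, Pi.add_apply, hf' s s' hs, hg' s s' hs]
          ring
        smul_mem' := by
          rintro r f ⟨hf, hf'⟩
          refine ⟨(perp (M5 F ψ O M)).smul_mem r hf, fun s s' hs => ?_⟩
          rw [Pi.smul_apply, Pi.smul_apply, hf' s s' hs, smul_neg] }
    rcases hR.sep U (fun f hf => ⟨fun w hw => hw.2.1 f hf, hR.odd f hf⟩) (fun f hf => hf.2)
      (fun γ hγ f hf => ⟨hpgal γ hγ f hf.1, fun s s' hs => hf.2 _ _ (isBar_gal γ hs)⟩)
      (fun κ hκ f hf => ⟨hpaut κ hκ f hf.1, fun s s' hs => hf.2 _ _ (hR.bar κ hκ s s' hs)⟩) with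
      h1 | ⟨s, s', t, t', hs, ht, hd, hdn⟩
    · exact fun f hf hf' => h1 ⟨hf, hf'⟩
    · refine absurd (hKND ι c J ψ F S kk h hk s s' t t' hs ht fun w hw => ?_) hdn
      obtain ⟨m', hm'⟩ := hr3 w hw
      have h1 : (fun s => w s - m' / 2) ∈ M5 F ψ O M := by
        refine hH5 _ ?_ fun s s' hs => ?_
        · have h2 : (fun e => w (S.ev e) - m' / 2) =
              (fun e => w (S.ev e)) - fun _ => m' / 2 := rfl
          rw [h2, map_sub]
          exact kk.sub_mem hw (hconst _)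
        · have h2 := hm' s s' hs
          linear_combination h2
      have h2 := hd.1 _ h1
      have h3 : ∑ i, ((delta s s' - delta t t') i : ℂ) = 0 := by
        have h4 : ∀ a b : EmbC c.1, ∑ i, ((delta a b i : ℚ) : ℂ) = 0 := by
          intro a b
          simp only [delta, Pi.sub_apply]
          push_cast
          rw [Finset.sum_sub_distrib]
          have h5 : ∀ a : EmbC c.1, ∑ i, (((Pi.single a 1 : EmbC c.1 → ℚ) i : ℚ) : ℂ) = 1 := by
            intro a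
            rw [← Rat.cast_sum, Finset.sum_pi_single' a (1 : ℚ) Finset.univ]
            simp
          rw [h5, h5, sub_self]
        simp only [Pi.sub_apply]
        push_cast
        rw [Finset.sum_sub_distrib, h4, h4, sub_self]
      have h4 : ∑ i, ((delta s s' - delta t t') i : ℂ) * w i =
          ∑ i, ((delta s s' - delta t t') i : ℂ) * (w i - m' / 2) +
            (∑ i, ((delta s s' - delta t t') i : ℂ)) * (m' / 2) := by
        rw [Finset.sum_mul, ← Finset.sum_add_distrib]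
        exact Finset.sum_congr rfl fun i _ => by ring
      rw [h4, h3, zero_mul, add_zero]
      exact h2
  -- conclusion
  set x : EmbC c.1 → ℂ := fun s => (Sum.elim (fun _ => m / 2) y : S.κ ⊕ S.σ → ℂ) (S.ev.symm s)
    with hx
  have hxbar : ∀ s, x s + x (bE S s) = m := by
    intro s
    change (Sum.elim (fun _ => m / 2) y : S.κ ⊕ S.σ → ℂ) (S.ev.symm s) +
      (Sum.elim (fun _ => m / 2) y : S.κ ⊕ S.σ → ℂ) (S.ev.symm (S.ev (bar S (S.ev.symm s)))) = m
    rw [Equiv.symm_apply_apply]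
    rcases S.ev.symm s with k | j
    · exact add_halves m
    · exact hy j
  have hxodd : (fun s => x s - m / 2) ∈ M5 F ψ O M := by
    refine mem_of_rat (fun w hw l => M5_rat hw l) fun f hf => ?_
    have hfp : f ∈ perp (M5 F ψ O M) := hf
    -- the odd part
    have hg : (fun s => f s - f (bE S s)) ∈ O := by
      refine hU _ ?_ fun s s' hs => ?_
      · intro w hw
        have h1 : ∑ s, (f (bE S s) : ℂ) * w s = -∑ s, (f s : ℂ) * w s := by
          rw [← Equiv.sum_comp (bE S), ← Finset.sum_neg_distrib]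
          refine Finset.sum_congr rfl fun s _ => ?_
          rw [bE_bE, hw.2.2 s _ (isBar_bE S s), mul_neg]
        have h2 : ∀ s, ((f s - f (bE S s) : ℚ) : ℂ) * w s =
            (f s : ℂ) * w s - (f (bE S s) : ℂ) * w s := fun s => by
          push_cast
          ring
        rw [Finset.sum_congr rfl fun s _ => h2 s, Finset.sum_sub_distrib, h1, hfp w hw]
        simp
      · rw [huniq hs, bE_bE]
        ring
    have h1 : ∑ s, ((f s - f (bE S s) : ℚ) : ℂ) * x s = 0 := by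
      rw [← Equiv.sum_comp S.ev, Fintype.sum_sum_type]
      have h2 : ∀ k : S.κ, ((f (S.ev (Sum.inl k)) - f (bE S (S.ev (Sum.inl k))) : ℚ) : ℂ) *
          x (S.ev (Sum.inl k)) = 0 := by
        intro k
        have h3 : bE S (S.ev (Sum.inl k)) = S.ev (Sum.inl k) := by
          change S.ev (bar S (S.ev.symm (S.ev (Sum.inl k)))) = _
          rw [Equiv.symm_apply_apply]
          rfl
        rw [h3, sub_self, Rat.cast_zero, zero_mul]
      rw [Finset.sum_congr rfl fun k _ => h2 k, Finset.sum_const_zero, zero_add,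
        ← hyrel _ hg]
      refine Finset.sum_congr rfl fun s _ => ?_
      rw [hx]
      beta_reduce
      rw [Equiv.symm_apply_apply]
      rfl
    have h2 : ∑ s, ((f s - f (bE S s) : ℚ) : ℂ) = 0 := by
      push_cast
      rw [Finset.sum_sub_distrib, Equiv.sum_comp (bE S) (fun s => ((f s : ℚ) : ℂ)), sub_self]
    have h3 : ∑ s, (f (bE S s) : ℂ) * (x s - m / 2) = -∑ s, (f s : ℂ) * (x s - m / 2) := by
      rw [← Equiv.sum_comp (bE S), ← Finset.sum_neg_distrib]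
      refine Finset.sum_congr rfl fun s _ => ?_
      rw [bE_bE]
      have h4 := hxbar s
      linear_combination (f s : ℂ) * h4
    have h4 : ∑ s, ((f s - f (bE S s) : ℚ) : ℂ) * x s -
        (∑ s, ((f s - f (bE S s) : ℚ) : ℂ)) * (m / 2) =
        ∑ s, (f s : ℂ) * (x s - m / 2) - ∑ s, (f (bE S s) : ℂ) * (x s - m / 2) := by
      rw [Finset.sum_mul, ← Finset.sum_sub_distrib, ← Finset.sum_sub_distrib]
      refine Finset.sum_congr rfl fun s _ => ?_
      push_cast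
      ring
    rw [h1, h2, zero_mul, sub_zero, h3] at h4
    change ∑ s, (f s : ℂ) * (x s - m / 2) = 0
    linear_combination (-1 / 2 : ℂ) * h4
  have hxc : (fun _ => m / 2 : EmbC c.1 → ℂ) ∈ M := hM _ (hconst _)
  have hfin : x = (fun s => x s - m / 2) + fun _ => m / 2 := by
    funext s
    simp
  rw [hfin]
  exact M.add_mem (M5_le hxodd) hxc

end Pool.Agent.Lib.MPf11a48.CMK
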