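import Pool.Agent.Lib.MP_f11a48_ag.CMK.MainT
import Pool.Agent.Lib.MP_f11a48_ag.CMK.Lgk
import Pool.Agent.Lib.MP_f11a48_ag.CMK.Ksl
import Pool.Agent.Lib.MP_f11a48_ag.CMK.Knd
import Pool.Agent.Lib.MP_f11a48_ag.CMK.Rtk
import Pool.Agent.Lib.MP_f11a48_ag.CMK.Tork
import Pool.Agent.Lib.MP_f11a48_ag.CMK.Maink
import Pool.Agent.Lib.MP_f11a48_ag.CMK.Rlk
import Pool.Agent.Lib.MP_f11a48_ag.CMK.Typk
import Pool.Agent.Lib.MP_f11a48_ag.CMK.Tennk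
import Pool.Agent.Lib.MP_f11a48_ag.CMK.Tenkk
import Pool.Agent.Lib.MP_f11a48_ag.AS.All

/-!
# The final theorem over a number field `K`
-/

set_option autoImplicit false

namespace Pool.Agent.Lib.MPf11a48.CMS

open Matrix MvPolynomial
open Pool.Agent.Lib.MPf11a48.CM hiding OmegaM
open Pool.Agent.Lib.MPf11a48.GL2T
open Pool.Agent.Lib.MPf11a48.U
open Pool.Agent.Lib.MPf11a48.C (IsRep imG tpi)
open Pool.Agent.Lib.MPf11a48.Tors (OmegaM)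
open Pool.Agent.Lib.MPf11a48.CMK

/-- The theorem. -/
theorem mainK (g N : ℕ) (hg : 0 < g) (A : AbData g N) (L : IntermediateField ℚ ℂ) (hL : L ≤ Qbar)
    (hA : A.IsAbVar L) (c : GL (Ix g) ℂ) (hc : c.1 = A.per) :
    (∀ B ∈ EndAlg c.1, A.IsEndo B) ∧
    (GL2Like c.1 A.psi → ∀ F : IntermediateField ℚ ℂ, F ≤ Qbar → ConjOver F c.1 A.psi →
      ((SepOver F c.1 A.psi ∨
        (∃ S₀ : Set (TPair Qbar (Ix g)), (∀ α ∈ S₀, Fixes c α) ∧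
          ∀ f ∈ OmegaS S₀, ∃ y ∈ MT A c, f = y.1 * c) ∧
        ∃ E : Sub, GoodOver F L E ∧ AllTypes A c.1 E) →
      ∀ (k : ℕ) (r : GL (Fin k) ℂ), IsAlg r.1 → ∀ K : IntermediateField ℚ ℂ, K ≤ L →
      ∀ (κ ι : Type) [Fintype κ] [DecidableEq κ] [Fintype ι] [DecidableEq ι]
        (T : GL (Ix g ⊕ Fin k) ℂ × ℂˣ → GL κ ℂ), IsRep T → ∀ (n : GL ι ℂ) (iB : Matrix κ ι ℚ),
      IsSubOver L (T (dsum c r, tpi)) n iB →
        (∀ y ∈ MT A c, ∃ f : GL ι ℂ, (T (dsum y.1 1, y.2)).1 * iB.map (fun x => (x : ℂ)) =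
          iB.map (fun x => (x : ℂ)) * f.1) ∧
        (∀ f ∈ MTSub A c T iB, ∀ h, Conj K (f * n) h →
          h ∈ OmegaDRB K n ∧ (K ≤ F → h ∈ OmegaM K n)) ∧
        ∀ S : Set (TPair K ι), (∀ α ∈ S, Fixes n α) →
          (∀ h ∈ OmegaS S, ∃ f ∈ MTSub A c T iB, Conj K (f * n) h) →
          OmegaDRB K n = OmegaS S ∧ (K ≤ F → OmegaM K n = OmegaS S)) ∧
      (SepOver F c.1 A.psi →
        ∀ S : Set (TPair L (Ix g)), (∀ α ∈ S, Fixes c α) → Basic A c L ⊆ S →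
          OmegaDRB L c = OmegaS S ∧ (L ≤ F → OmegaM L c = OmegaS S))) :=
  mainT_of (specMaink (specTork (specRtk specKsl) (specKnd specKsl)) specKsl
    (CMM.specGenr CMM.specSat)) specRlk specTypk (specTennk (specLgk AS.asp)) specTenkk
    g N hg A L hL hA c hc

end Pool.Agent.Lib.MPf11a48.CMS
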