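import Pool.Agent.Lib.MP_f11a48_ag.CMM.DefsS

/-!
# Motives of complex multiplication type over a number field `K`: definitions

Definitions for `Pool/Agent/Results/MP_f11a48_ag/CMMotives.lean`. `F` is a subfield of `Qbar`, a field
of definition of the group of a torsor.
-/

set_option autoImplicit false

namespace Pool.Agent.Lib.MPf11a48.CMS

open Matrix MvPolynomial
open Pool.Agent.Lib.MPf11a48.CM hiding OmegaM
open Pool.Agent.Lib.MPf11a48.GL2T
open Pool.Agent.Lib.MPf11a48.U

section Centre

variable {ι : Type} [Fintype ι] [DecidableEq ι]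

/-- `F` is a real field, or some automorphism over `F` acts on the embeddings of the centre which are
not real as the complex conjugation. -/
def ConjOver (F : IntermediateField ℚ ℂ) (c : Matrix ι ι ℂ) (ψ : Matrix ι ι ℚ) : Prop :=
  (∀ x ∈ F, (starRingEnd ℂ) x = x) ∨
    ∃ ρ : GalQ, Over F ρ ∧ ∀ s : EmbC c, ¬ IsBar ψ s s → IsBar ψ s (act ρ s)

/-- Every non-zero space of odd rational functions on the set of embeddings of the centre, stable
under the automorphisms over `F`, contains a non-zero function `(δ_s - δ_s̄) - (δ_t - δ_t̄)`. (There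
are no non-zero odd functions if the centre is totally real.) -/
def SepOver (F : IntermediateField ℚ ℂ) (c : Matrix ι ι ℂ) (ψ : Matrix ι ι ℚ) : Prop :=
  ∀ U : Submodule ℚ (EmbC c → ℚ), U ≠ ⊥ →
    (∀ f ∈ U, ∀ s s', IsBar ψ s s' → f s' = -f s) →
    (∀ γ, Over F γ → ∀ f ∈ U, (fun s => f (act γ s)) ∈ U) →
    ∃ s s' t t' : EmbC c, IsBar ψ s s' ∧ IsBar ψ t t' ∧ delta s s' - delta t t' ∈ U ∧
      delta s s' ≠ delta t t'

end Centre

/-- Every non-zero space `V` of odd functions `f` on the set of the embeddings `γ|E` of `E`, which is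
stable under left translations by the automorphisms over `F` and under right translations by the
automorphisms over `L` which preserve `E`, contains a non-zero function with values in
`{0, 1, -1}`. -/
def FlatOver (F L : IntermediateField ℚ ℂ) (E : Sub) : Prop :=
  ∀ V : Submodule ℚ (GalQ → ℚ), V ≠ ⊥ →
    (∀ f ∈ V, ∀ γ σ, Fix E σ → f (γ * σ) = f γ) →
    (∀ f ∈ V, ∀ ρ, IsConj ρ → ∀ γ, f (ρ * γ) = -f γ) →
    (∀ δ, Over F δ → ∀ f ∈ V, (fun γ => f (δ * γ)) ∈ V) →
    (∀ δ, Over L δ → Stab E δ → ∀ f ∈ V, (fun γ => f (γ * δ)) ∈ V) →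
    ∃ f ∈ V, f ≠ 0 ∧ ∀ γ, f γ = 0 ∨ f γ = 1 ∨ f γ = -1

/-- Every automorphism is equal on `E` to an automorphism over `F`. If `E` is a Galois extension of
`ℚ` then this says that `E ∩ F = ℚ`. -/
def Full (F : IntermediateField ℚ ℂ) (E : Sub) : Prop :=
  ∀ γ, ∃ δ, Over F δ ∧ ∀ x ∈ E, ap δ x = ap γ x

/-- `E` is a number field with one of the following properties: `FlatOver F L E`; `E` is an abelian
extension of `ℚ` with `Full F E`; `E` is a Galois extension of `ℚ`, with `Full F E` and `Full L E`,
whose Galois group is an M-group (for example metabelian) or a hyperoctahedral group (for example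
the Galois closure of a generic CM field). -/
def GoodOver (F L : IntermediateField ℚ ℂ) (E : Sub) : Prop :=
  FiniteDimensional ℚ E ∧ (FlatOver F L E ∨ Full F E ∧ ∃ (Γ : Type) (_ : Group Γ), HasGal E Γ ∧
    ((∀ a b : Γ, a * b = b * a) ∨ Full L E ∧ (MGroup Γ ∨ ∃ n, Nonempty (Γ ≃* Hyp n))))

end Pool.Agent.Lib.MPf11a48.CMS
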