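import Pool.Agent.Lib.MP_f11a48_ag.CMK.Spec

/-!
# The torsors with group over `F` through the periods of motives of complex multiplication type: the
# theorem, from the Specs
-/

set_option autoImplicit false

namespace Pool.Agent.Lib.MPf11a48.CMK

open Matrix MvPolynomial
open Pool.Agent.Lib.MPf11a48.CM hiding OmegaM
open Pool.Agent.Lib.MPf11a48.GL2T
open Pool.Agent.Lib.MPf11a48.U
open Pool.Agent.Lib.MPf11a48.CMM
open Pool.Agent.Lib.MPf11a48.C (IsRep IsSubObj imG tpi)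
open Pool.Agent.Lib.MPf11a48.C.TenM (bd)
open Pool.Agent.Lib.MPf11a48.Tors (IsTorsor ClosedOver grp OmegaM FixesField)
open Pool.Agent.Lib.MPf11a48.K3 (cx)

/-- Every non-zero space of odd rational functions on the set of embeddings of the centre, stable
under the automorphisms of `Qbar` over `F`, contains a non-zero function
`(δ_s - δ_s̄) - (δ_t - δ_t̄)`. -/
def SepF {ι : Type} [Fintype ι] [DecidableEq ι] (F : IntermediateField ℚ ℂ) (c : Matrix ι ι ℂ)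
    (ψ : Matrix ι ι ℚ) : Prop :=
  ∀ U : Submodule ℚ (EmbC c → ℚ), U ≠ ⊥ →
    (∀ f ∈ U, ∀ s s', IsBar ψ s s' → f s' = -f s) →
    (∀ γ : Qbar ≃ₐ[ℚ] Qbar, OverG F γ → ∀ f ∈ U, (fun s => f (γ.toAlgHom.comp s)) ∈ U) →
    ∃ s s' t t' : EmbC c, IsBar ψ s s' ∧ IsBar ψ t t' ∧ delta s s' - delta t t' ∈ U ∧
      delta s s' ≠ delta t t'

namespace FinFM

variable {ι : Type} [Fintype ι] [DecidableEq ι]

theorem sepO_bot {F : IntermediateField ℚ ℂ} {c : Matrix ι ι ℂ} {ψ : Matrix ι ι ℚ}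
    (h : SepF F c ψ) (R : Set (CenAlg c ≃ₐ[ℚ] CenAlg c)) : SepO F ψ R ⊥ := by
  intro U _ hodd hgal _
  by_cases hU : U = ⊥
  · exact Or.inl hU.le
  · exact Or.inr (h U hU hodd hgal)

theorem relsOK_bot {c : GL ι ℂ} {ψ : Matrix ι ι ℚ} {F L : IntermediateField ℚ ℂ} (S : Str c ψ)
    {T : Set (EmbC c.1)} (hgal : GalOK L c ψ T) (hconj : ConjIn F c.1 ψ) (hsep : SepF F c.1 ψ)
    (kk : Submodule ℂ (Matrix ι ι ℂ)) : RelsOK c ψ F S (RGal L c) kk ⊥ where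
  odd f hf s s' _ := by
    rw [(Submodule.mem_bot ℚ).1 hf]
    simp
  gal γ _ f hf := by
    rw [(Submodule.mem_bot ℚ).1 hf]
    exact (⊥ : Submodule ℚ (EmbC c.1 → ℚ)).zero_mem
  act κ _ f hf := by
    rw [(Submodule.mem_bot ℚ).1 hf]
    exact (⊥ : Submodule ℚ (EmbC c.1 → ℚ)).zero_mem
  rel w _ f hf := by
    rw [(Submodule.mem_bot ℚ).1 hf]
    simp
  sep := sepO_bot hsep _
  conj := hconj
  bar := hgal.bar

theorem relsOK_oddH {c : GL ι ℂ} {J : Matrix ι ι ℝ} {ψ : Matrix ι ι ℚ}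
    {F L : IntermediateField ℚ ℂ} (S : Str c ψ) (hJ : HD c J ψ)
    {T : Set (EmbC c.1)} (hgal : GalOK L c ψ T) (hlie : LieRel c ψ T) (hconj : ConjIn F c.1 ψ)
    (hsep : SepO F ψ (RGal L c) (OddH ψ T))
    {kk : Submodule ℂ (Matrix ι ι ℂ)} (hkk : LieOK c F kk) :
    RelsOK c ψ F S (RGal L c) kk (OddH ψ T) where
  odd f hf := hf.1
  gal γ _ f hf := TornM.oddH_gal γ hf
  act := hgal.odd
  rel w hw f hf := by
    rw [← Equiv.sum_comp S.ev]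
    refine TORM.rel_ext S specLIN specSIM bic' hJ (f := fun e => f (S.ev e)) (fun z hz => ?_)
      (hkk.inH _ hw)
    rw [← TORM.coe_rel, (TorrM.oddH_le S hlie hf).1 z hz]
    rfl
  sep := hsep
  conj := hconj
  bar := hgal.bar

end FinFM

open FinFM in
/-- The theorem. -/
theorem mainF_of (hMaink : SpecMaink) (hRlk : SpecRlk) (hTypk : SpecTypk) (hTennk : SpecTennk)
    (hTenkk : SpecTenkk)
    (g N : ℕ) (hg : 0 < g) (A : AbData g N) (L : IntermediateField ℚ ℂ) (hL : L ≤ Qbar)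
    (hA : A.IsAbVar L) (c : GL (Ix g) ℂ) (hc : c.1 = A.per) (hGL : GL2Like c.1 A.psi)
    (F : IntermediateField ℚ ℂ) (hF : F ≤ Qbar) (hconj : ConjIn F c.1 A.psi)
    (𝓖 : Set (GL (Ix g) ℂ × ℂˣ))
    (h𝓖 : (𝓖 = LefG A c ∧ SepF F c.1 A.psi) ∨
      (𝓖 = MTG A c ∧ CutOut A c ∧ ∃ E : IntermediateField ℚ Qbar, FiniteDimensional ℚ E ∧
        FlatFL F L E ∧ AllTypes A c.1 E))
    (k : ℕ) (r : GL (Fin k) ℂ) (hr : IsAlg r.1) (K : IntermediateField ℚ ℂ) (hK : K ≤ L)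
    (κ ι : Type) [Fintype κ] [DecidableEq κ] [Fintype ι] [DecidableEq ι]
    (T : GL (Ix g ⊕ Fin k) ℂ × ℂˣ → GL κ ℂ) (hT : IsRep T) (n : GL ι ℂ)
    (iB : Matrix κ ι ℚ) (hN : IsSubOver L (T (dsum c r, tpi)) n iB)
    (T' : Set (GL ι ℂ)) (hT' : IsTorsor K T') (hn : n ∈ T') (hF' : ClosedOver F (grp T')) :
    (∀ y ∈ 𝓖, ∃ f : GL ι ℂ, (T (dsum y.1 1, y.2)).1 * iB.map (algebraMap ℚ ℂ) =
      iB.map (algebraMap ℚ ℂ) * f.1) ∧
    ∀ f ∈ imG T iB {w | ∃ y ∈ 𝓖, w = (dsum y.1 1, y.2)}, ∀ h, Conj K (f * n) h → h ∈ T' := by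
  obtain ⟨⟨J, hJ⟩, -⟩ := hda' specTL' L g N A c hL hA hc
  have hH := tan' L g N A c hL hA hc hGL
  have hgal := AllNM.galn' L g N A c hL hA hc hGL
  obtain ⟨S⟩ := str' c J _ hJ hGL
  have : Nonempty (Ix g) := ⟨Sum.inl ⟨0, hg⟩⟩
  have key : ∀ kk : Submodule ℂ (Matrix (Ix g) (Ix g) ℂ), LieOK c F kk →
      ∀ 𝒢 : Subgroup (GL (Ix g) ℂ × ℂˣ),
      (∀ X ∈ kk, ∀ m : ℂ, Xᵀ * mC A.psi + mC A.psi * X = m • mC A.psi →
        ∀ y : GL (Ix g) ℂ × ℂˣ, y.1.1 = NormedSpace.exp X → (y.2 : ℂ) = Complex.exp m → y ∈ 𝒢) →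
      (∀ τ : ℂ ≃+* ℂ, FixesField L τ → ∀ y ∈ 𝒢, (twg τ c * y.1 * (twg τ c)⁻¹, y.2) ∈ 𝒢) →
      ∀ y ∈ 𝓖, y ∈ 𝒢 := by
    intro kk hkk 𝒢 h1 h2 y hy
    have hyL : y ∈ LefG A c := by
      rcases h𝓖 with ⟨rfl, -⟩ | ⟨rfl, -, -⟩
      · exact hy
      · exact hy.1
    obtain ⟨u, hu⟩ := (S.mem_range y.1.1).2 hyL.1
    obtain ⟨hr1, hr2⟩ := hRlk (Ix g) c J A.psi (Tan A c.1) S hJ hH y u hu.symm hyL.2
    rcases h𝓖 with ⟨rfl, hsep⟩ | ⟨rfl, ⟨S₀, hS₀, hcut⟩, E, hE, hfl, htypes⟩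
    · refine hMaink (Ix g) c J A.psi F L S kk ⊥ hF hJ hkk (relsOK_bot S hgal hconj hsep kk) 𝒢 h1 h2
        y u hu.symm hyL.2 ?_
      rintro χ hχ ⟨f, hf, hfχ⟩
      refine hr1 χ hχ fun s => ?_
      have h3 := hfχ s
      rw [(Submodule.mem_bot ℚ).1 hf] at h3
      have h4 : (0 : ℚ) = (χ s : ℚ) - χ (S.τ s) := h3
      have h5 : (χ s : ℚ) = χ (S.τ s) := (sub_eq_zero.1 h4.symm)
      exact_mod_cast h5
    · have hLie : LieRel c A.psi (Tan A c.1) := by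
        refine specHcl (Ix g) c A.psi (Tan A c.1) S₀ hS₀ fun f hf => ?_
        obtain ⟨x, hx, rfl⟩ := hcut f hf
        rw [mul_inv_cancel_right]
        exact hx.2
      have hsep := hTypk (Ix g) c.1 A.psi (Tan A c.1) E F L (RGal L c) hE hH hfl htypes.reflex
        htypes.all hgal.ex
      exact hMaink (Ix g) c J A.psi F L S kk (OddH A.psi (Tan A c.1)) hF hJ hkk
        (relsOK_oddH S hJ hgal hLie hconj hsep hkk) 𝒢 h1 h2 y u hu.symm hyL.2 (hr2 hy.2)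
  obtain ⟨a, b⟩ := hTenkk (Ix g ⊕ Fin k) {w | ∃ y ∈ 𝓖, w = (dsum y.1 1, y.2)} (dsum c r) L F hL (by
    rintro T'' hT'' hc' hg' _ ⟨y, hy, rfl⟩
    exact hTennk g N A c L F 𝓖 hg hL hA hc key k r hr T'' hT'' hc' hg' y hy) K hK κ ι T hT n iB hN
    T' hT' hn hF'
  exact ⟨fun y hy => a _ ⟨y, hy, rfl⟩, b⟩

end Pool.Agent.Lib.MPf11a48.CMK
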