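import Pool.Agent.Lib.MP_f11a48_ag.CMK.Spec
import Pool.Agent.Lib.MP_f11a48_ag.K3.Curve

/-! # LAL: the Lie algebra of a torsor is algebraic (diagonalisable elements) -/

set_option autoImplicit false
set_option linter.unusedSectionVars false

namespace Pool.Agent.Lib.MPf11a48.CMK

open Matrix MvPolynomial

namespace LalM

/-! ### Exponentials -/

/-- the character `t ↦ exp (t v)` -/
noncomputable def chi (v : ℂ) : Multiplicative ℂ →* ℂ where
  toFun t := Complex.exp (t.toAdd * v)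
  map_one' := by simp
  map_mul' a b := by rw [toAdd_mul, add_mul, Complex.exp_add]

theorem chi_inj : Function.Injective chi := by
  intro v w h
  have h1 : ∀ t : ℂ, Complex.exp (t * v) = Complex.exp (t * w) := fun t =>
    DFunLike.congr_fun h (Multiplicative.ofAdd t)
  have hd : ∀ v : ℂ, HasDerivAt (fun t : ℂ => Complex.exp (t * v)) v 0 := by
    intro v
    have h2 : HasDerivAt (fun t : ℂ => t * v) v 0 := by
      simpa using (hasDerivAt_id (0 : ℂ)).mul_const v
    simpa using h2.cexp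
  have h4 := hd v
  rw [funext h1] at h4
  exact h4.unique (hd w)

theorem exp_indep (s : Finset ℂ) (b : ℂ → ℂ)
    (h : ∀ t : ℂ, ∑ v ∈ s, b v * Complex.exp (t * v) = 0) : ∀ v ∈ s, b v = 0 := by
  have hli := (linearIndependent_monoidHom (Multiplicative ℂ) ℂ).comp chi chi_inj
  rw [linearIndependent_iff'] at hli
  refine hli s b ?_
  funext t
  rw [Finset.sum_apply]
  exact h t.toAdd

theorem eval_exp {σ : Type} [Fintype σ] (P : MvPolynomial σ ℂ) (x : σ → ℂ) (t : ℂ) :
    eval (fun s => Complex.exp (t * x s)) P =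
      ∑ χ ∈ P.support, coeff χ P * Complex.exp (t * ∑ s, (χ s : ℂ) * x s) := by
  rw [eval_eq']
  refine Finset.sum_congr rfl fun χ _ => ?_
  congr 1
  rw [Finset.mul_sum, Complex.exp_sum]
  refine Finset.prod_congr rfl fun s _ => ?_
  rw [← Complex.exp_nat_mul]
  congr 1
  ring

theorem transfer {σ : Type} [Fintype σ] {x y : σ → ℂ}
    (h : ∀ χ : σ → ℤ, ∑ s, (χ s : ℂ) * x s = 0 → ∑ s, (χ s : ℂ) * y s = 0)
    (P : MvPolynomial σ ℂ) (hP : ∀ t : ℂ, eval (fun s => Complex.exp (t * x s)) P = 0) (t : ℂ) :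
    eval (fun s => Complex.exp (t * y s)) P = 0 := by
  classical
  let v : (σ →₀ ℕ) → ℂ := fun χ => ∑ s, (χ s : ℂ) * x s
  let w : (σ →₀ ℕ) → ℂ := fun χ => ∑ s, (χ s : ℂ) * y s
  have hvw : ∀ χ χ', v χ = v χ' → w χ = w χ' := by
    intro χ χ' hχ
    have h1 := h (fun s => (χ s : ℤ) - χ' s) (by
      simp only [Int.cast_sub, Int.cast_natCast, sub_mul, Finset.sum_sub_distrib]
      exact sub_eq_zero.2 hχ)
    simp only [Int.cast_sub, Int.cast_natCast, sub_mul, Finset.sum_sub_distrib] at h1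
    exact sub_eq_zero.1 h1
  have hmaps : ∀ χ ∈ P.support, v χ ∈ P.support.image v := fun χ hχ =>
    Finset.mem_image_of_mem v hχ
  have h1 : ∀ v₀ ∈ P.support.image v, ∑ χ ∈ P.support with v χ = v₀, coeff χ P = 0 := by
    refine exp_indep _ _ fun t => ?_
    rw [← hP t, eval_exp, ← Finset.sum_fiberwise_of_maps_to hmaps]
    refine Finset.sum_congr rfl fun v₀ _ => ?_
    rw [Finset.sum_mul]
    refine Finset.sum_congr rfl fun χ hχ => ?_
    have h2 : v χ = v₀ := (Finset.mem_filter.1 hχ).2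
    rw [← h2]
  rw [eval_exp, ← Finset.sum_fiberwise_of_maps_to hmaps]
  refine Finset.sum_eq_zero fun v₀ hv₀ => ?_
  obtain ⟨χ₀, hχ₀, rfl⟩ := Finset.mem_image.1 hv₀
  have h2 : ∀ χ ∈ P.support.filter (fun χ => v χ = v χ₀),
      coeff χ P * Complex.exp (t * ∑ s, (χ s : ℂ) * y s) =
        coeff χ P * Complex.exp (t * w χ₀) := by
    intro χ hχ
    rw [← hvw χ χ₀ (Finset.mem_filter.1 hχ).2]
  rw [Finset.sum_congr rfl h2, ← Finset.sum_mul, h1 _ hv₀, zero_mul]

/-! ### Idempotents -/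

section idem

variable {n σ : Type} [Fintype n] [DecidableEq n] [Fintype σ] [DecidableEq σ]
  {e : σ → Matrix n n ℂ}

theorem E_mul (h1 : ∀ s, e s * e s = e s) (h2 : ∀ s t, s ≠ t → e s * e t = 0) (u v : σ → ℂ) :
    (∑ s, u s • e s) * (∑ s, v s • e s) = ∑ s, (u s * v s) • e s := by
  rw [Finset.sum_mul]
  refine Finset.sum_congr rfl fun s _ => ?_
  rw [Finset.mul_sum, Finset.sum_eq_single s]
  · rw [Matrix.smul_mul, Matrix.mul_smul, h1, smul_smul]
  · intro t _ ht
    rw [Matrix.smul_mul, Matrix.mul_smul, h2 s t (Ne.symm ht), smul_zero, smul_zero]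
  · intro h
    exact absurd (Finset.mem_univ _) h

/-- the curve `t ↦ exp (t ∑ x_s e_s)` -/
noncomputable def cur (h1 : ∀ s, e s * e s = e s) (h2 : ∀ s t, s ≠ t → e s * e t = 0)
    (h3 : ∑ s, e s = 1) (x : σ → ℂ) (t : ℂ) : GL n ℂ :=
  ⟨∑ s, Complex.exp (t * x s) • e s, ∑ s, Complex.exp (-(t * x s)) • e s, by
    rw [E_mul h1 h2]
    simp only [← Complex.exp_add, add_neg_cancel, Complex.exp_zero, one_smul, h3], by
    rw [E_mul h1 h2]
    simp only [← Complex.exp_add, neg_add_cancel, Complex.exp_zero, one_smul, h3]⟩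

theorem cur_val (h1 : ∀ s, e s * e s = e s) (h2 : ∀ s t, s ≠ t → e s * e t = 0)
    (h3 : ∑ s, e s = 1) (x : σ → ℂ) (t : ℂ) :
    (cur h1 h2 h3 x t).1 = ∑ s, Complex.exp (t * x s) • e s := rfl

theorem cur_zero (h1 : ∀ s, e s * e s = e s) (h2 : ∀ s t, s ≠ t → e s * e t = 0)
    (h3 : ∑ s, e s = 1) (x : σ → ℂ) : cur h1 h2 h3 x 0 = 1 := by
  refine Units.ext ?_
  rw [cur_val]
  simp only [zero_mul, Complex.exp_zero, one_smul, h3]
  rfl

theorem cur_deriv (h1 : ∀ s, e s * e s = e s) (h2 : ∀ s t, s ≠ t → e s * e t = 0)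
    (h3 : ∑ s, e s = 1) (x : σ → ℂ) (t : ℂ) (i j : n) :
    HasDerivAt (fun t => (cur h1 h2 h3 x t).1 i j)
      (((∑ s, x s • e s) * (cur h1 h2 h3 x t).1) i j) t := by
  have e1 : (fun t => (cur h1 h2 h3 x t).1 i j) =
      fun t => ∑ s, Complex.exp (t * x s) * e s i j := by
    funext t
    rw [cur_val, Matrix.sum_apply]
    rfl
  have e2 : ((∑ s, x s • e s) * (cur h1 h2 h3 x t).1) i j =
      ∑ s, (Complex.exp (t * x s) * x s) * e s i j := by
    rw [cur_val, E_mul h1 h2, Matrix.sum_apply]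
    refine Finset.sum_congr rfl fun s _ => ?_
    rw [Matrix.smul_apply, smul_eq_mul, mul_comm (x s)]
  rw [e1, e2]
  refine HasDerivAt.fun_sum fun s _ => HasDerivAt.mul_const ?_ _
  have h4 : HasDerivAt (fun t : ℂ => t * x s) (x s) t := by
    simpa using (hasDerivAt_id t).mul_const (x s)
  exact h4.cexp

end idem

end LalM

open LalM K3.CurveM Pool.Agent.Lib.MPf11a48.GL2 in
theorem specLal : SpecLal := by
  intro n _ _ T hT σ _ _ e h1 h2 h3 x y hx h f hf p hp
  -- the polynomial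
  let g : n × n → MvPolynomial σ ℂ := fun v => ∑ s, C ((e s * f.1) v.1 v.2) * X s
  have hg : ∀ (u : σ → ℂ) (v : n × n), eval u (g v) = ((∑ s, u s • e s) * f.1) v.1 v.2 := by
    intro u v
    change eval u (∑ s, C ((e s * f.1) v.1 v.2) * X s) = _
    rw [map_sum, Finset.sum_mul, Matrix.sum_apply]
    refine Finset.sum_congr rfl fun s _ => ?_
    rw [map_mul, eval_C, eval_X, Matrix.smul_mul, Matrix.smul_apply, smul_eq_mul, mul_comm]
  have hP : ∀ u : σ → ℂ, eval u (aeval g p) = eval (en ((∑ s, u s • e s) * f.1)) p := by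
    intro u
    clear hp
    induction p using MvPolynomial.induction_on with
    | C a => rw [algHom_C, algebraMap_eq, eval_C, eval_C]
    | add p q hp hq => rw [map_add, map_add, map_add, hp, hq]
    | mul_X p v hp =>
      rw [map_mul, map_mul, map_mul, hp, aeval_X, hg, eval_X]
      rfl
  have hX : ∀ t : ℂ, eval (fun s => Complex.exp (t * x s)) (aeval g p) = 0 := by
    intro t
    have h4 := K3.specCurve n T hT _ hx (cur h1 h2 h3 x) (cur_zero h1 h2 h3 x)
      (cur_deriv h1 h2 h3 x) f hf t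
    have h5 := hp _ h4
    rw [glmul, cur_val] at h5
    rw [hP]
    exact h5
  have hY : ∀ t : ℂ, F (cur h1 h2 h3 y) f p t = 0 := by
    intro t
    have h4 := transfer h (aeval g p) hX t
    rw [hP] at h4
    rw [F, glmul, cur_val]
    exact h4
  have hd := F_deriv (cur_deriv h1 h2 h3 y) f p 0
  rw [funext hY] at hd
  have h5 := hd.unique (hasDerivAt_const (0 : ℂ) (0 : ℂ))
  rw [F, cur_zero, one_mul, eval_vf] at h5
  exact h5

end Pool.Agent.Lib.MPf11a48.CMK
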