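import Pool.Agent.Lib.MP_f11a48_ag.CMM.MainS
import Pool.Agent.Lib.MP_f11a48_ag.CMK.FinF
import Pool.Agent.Lib.MP_f11a48_ag.CMK.DefsT

/-!
# The final theorem over a number field `K`, in terms of the definitions in `CMM/DefsS.lean` and
# `CMK/DefsT.lean`, from the Specs
-/

set_option autoImplicit false

namespace Pool.Agent.Lib.MPf11a48.CMS

open Matrix MvPolynomial
open Pool.Agent.Lib.MPf11a48.CM hiding OmegaM
open Pool.Agent.Lib.MPf11a48.GL2T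
open Pool.Agent.Lib.MPf11a48.U
open Pool.Agent.Lib.MPf11a48.C (IsRep imG tpi)
open Pool.Agent.Lib.MPf11a48.Tors (IsTorsor ClosedOver grp OmegaM)
open Pool.Agent.Lib.MPf11a48.CMK (OverG ConjIn FlatFL SepF)

namespace MainTM

section

variable {ι : Type} [Fintype ι] [DecidableEq ι]

theorem separated {F : IntermediateField ℚ ℂ} {c : Matrix ι ι ℂ} {ψ : Matrix ι ι ℚ}
    (h : SepOver F c ψ) : Separated c ψ :=
  fun U hU hodd hgal => h U hU hodd fun γ _ f hf => hgal γ f hf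

theorem sepF {F : IntermediateField ℚ ℂ} {c : Matrix ι ι ℂ} {ψ : Matrix ι ι ℚ}
    (h : SepOver F c ψ) : SepF F c ψ :=
  fun U hU hodd hgal => h U hU hodd fun γ hγ f hf => hgal γ hγ f hf

theorem conjIn {F : IntermediateField ℚ ℂ} {c : Matrix ι ι ℂ} {ψ : Matrix ι ι ℚ}
    {T : Set (EmbC c)} (hH : CMM.HalfSet ψ T) (h : ConjOver F c ψ) : ConjIn F c ψ := by
  rcases h with h | ⟨ρ, hρ, hs⟩
  · refine ⟨CMM.TypM.rho, fun a ha => ?_, fun s _ => ?_⟩
    · apply Subtype.ext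
      rw [CMM.TypM.rho_coe]
      exact h _ ha
    · obtain ⟨s', hs'⟩ := hH.1 s
      have h1 : CMM.TypM.rho.toAlgHom.comp s = s' := by
        refine AlgHom.ext fun z => Subtype.ext ?_
        rw [← hH.2.2.2.1 s s' z hs']
        exact CMM.TypM.rho_coe _
      rw [h1]
      exact hs'
  · exact ⟨ρ, hρ, hs⟩

end

theorem flatFL {F L : IntermediateField ℚ ℂ} {E : Sub} (h : FlatOver F L E) : FlatFL F L E := by
  intro V hV hodd hleft hright
  let P : ((E →ₐ[ℚ] Qbar) → ℚ) →ₗ[ℚ] (GalQ → ℚ) := LinearMap.funLeft ℚ ℚ (j E)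
  have hP : Function.Injective P := LinearMap.funLeft_injective_of_surjective ℚ ℚ _ (j_surjective E)
  obtain ⟨f, ⟨f₀, hf₀, rfl⟩, hf, hfl⟩ := h (V.map P)
    (by
      intro h0
      apply hV
      apply Submodule.map_injective_of_injective hP
      rw [h0, Submodule.map_bot])
    (by
      rintro _ ⟨f₀, hf₀, rfl⟩ γ σ hσ
      change f₀ (j E (γ * σ)) = f₀ (j E γ)
      rw [j_mul_fix γ σ hσ])
    (by
      rintro _ ⟨f₀, hf₀, rfl⟩ ρ hρ γ
      exact hodd f₀ hf₀ _ _ (j_bar hρ γ))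
    (by
      rintro δ hF _ ⟨f₀, hf₀, rfl⟩
      exact ⟨_, hleft δ hF f₀ hf₀, rfl⟩)
    (by
      rintro δ hL hE _ ⟨f₀, hf₀, rfl⟩
      let e : E →ₐ[ℚ] E :=
        { toFun := fun x => ⟨ap δ x, hE x x.2⟩
          map_one' := Subtype.ext (map_one (AlgEquiv.toAlgHom δ))
          map_mul' := fun x y => Subtype.ext (map_mul (AlgEquiv.toAlgHom δ) (x : Qbar) y)
          map_zero' := Subtype.ext (map_zero (AlgEquiv.toAlgHom δ))
          map_add' := fun x y => Subtype.ext (map_add (AlgEquiv.toAlgHom δ) (x : Qbar) y)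
          commutes' := fun r => Subtype.ext ((AlgEquiv.toAlgHom δ).commutes r) }
      refine ⟨_, hright δ e hL (fun x => rfl) f₀ hf₀, ?_⟩
      funext γ
      change f₀ ((j E γ).comp e) = f₀ (j E (γ * δ))
      congr 1)
  refine ⟨f₀, hf₀, fun h0 => hf (by rw [h0, map_zero]), fun φ => ?_⟩
  obtain ⟨γ, rfl⟩ := j_surjective E φ
  exact hfl γ

/-- the field `E` is Galois and is disjoint from `F`: stability under the automorphisms over `F` -/
theorem left_full {F : IntermediateField ℚ ℂ} {E : Sub} (hst : ∀ γ : GalQ, ∀ x ∈ E, ap γ x ∈ E)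
    (hF : Full F E) {V : Submodule ℚ ((E →ₐ[ℚ] Qbar) → ℚ)}
    (h : ∀ γ : Qbar ≃ₐ[ℚ] Qbar, OverG F γ → ∀ f ∈ V, (fun φ => f (γ.toAlgHom.comp φ)) ∈ V)
    (γ : Qbar ≃ₐ[ℚ] Qbar) (f : (E →ₐ[ℚ] Qbar) → ℚ) (hf : f ∈ V) :
    (fun φ => f (γ.toAlgHom.comp φ)) ∈ V := by
  obtain ⟨δ, hδ, hδγ⟩ := hF γ
  have h1 : (fun φ : E →ₐ[ℚ] Qbar => f (γ.toAlgHom.comp φ)) =
      fun φ => f ((δ : Qbar ≃ₐ[ℚ] Qbar).toAlgHom.comp φ) := by
    funext φ
    congr 1
    refine AlgHom.ext fun x => ?_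
    have h2 : φ x ∈ E := by
      obtain ⟨γ', rfl⟩ := j_surjective E φ
      exact hst γ' x x.2
    exact (hδγ _ h2).symm
  rw [h1]
  exact h δ hδ f hf

theorem right_full {L : IntermediateField ℚ ℂ} {E : Sub} (hL : Full L E)
    {V : Submodule ℚ ((E →ₐ[ℚ] Qbar) → ℚ)}
    (h : ∀ (γ : Qbar ≃ₐ[ℚ] Qbar) (e : E →ₐ[ℚ] E), OverG L γ →
      (∀ x : E, ((e x : E) : Qbar) = γ x) → ∀ f ∈ V, (fun φ : E →ₐ[ℚ] Qbar => f (φ.comp e)) ∈ V)
    (γ : Qbar ≃ₐ[ℚ] Qbar) (e : E →ₐ[ℚ] E) (he : ∀ x : E, ((e x : E) : Qbar) = γ x)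
    (f : (E →ₐ[ℚ] Qbar) → ℚ) (hf : f ∈ V) : (fun φ : E →ₐ[ℚ] Qbar => f (φ.comp e)) ∈ V := by
  obtain ⟨δ, hδ, hδγ⟩ := hL γ
  refine h δ e hδ (fun x => ?_) f hf
  rw [he x]
  exact (hδγ x x.2).symm

theorem goodFL {F L : IntermediateField ℚ ℂ} {E : Sub} (h : GoodOver F L E) :
    FiniteDimensional ℚ E ∧ FlatFL F L E := by
  obtain ⟨hE, h⟩ := h
  refine ⟨hE, ?_⟩
  rcases h with h | ⟨hF, Γ, _, hG, h⟩
  · exact flatFL h
  have hst := stable_of_hasGal hG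
  obtain ⟨e⟩ := nonempty_equiv hG
  have : Finite Γ := Finite.of_equiv _ e.toEquiv
  intro V hV hodd hleft hright
  have hleft' := left_full hst hF hleft
  rcases h with h | ⟨hL, h⟩
  · exact CMM.fle' E hE (fun γ γ' x hx => fix_comm hG h γ γ' x hx) V hV hodd
      fun γ f hf => hleft' γ f hf
  · have hfl : CMM.BiFlat Γ → CMM.FlatOver ⊥ E := fun hB =>
      CMM.specFlk E hE hst (CMM.FinNM.biFlat_congr e hB)
    have hbi : CMM.FlatOver ⊥ E := by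
      refine hfl ?_
      rcases h with h | ⟨n, ⟨e'⟩⟩
      · exact CMM.biFlat_monomial CMM.specFla Γ h
      · exact CMM.FinNM.biFlat_congr e' (CMM.AllNM.flh' n)
    exact hbi V hV hodd (fun γ f hf => hleft' γ f hf) fun γ e _ he f hf =>
      right_full hL hright γ e he f hf

/-! ## The standard representation -/

variable {g N : ℕ}

/-- the inclusion of `M` in `M ⊕ 0` -/
def inc (g : ℕ) : Matrix (Ix g ⊕ Fin 0) (Ix g) ℚ :=
  fun i j => Sum.elim (fun a => (1 : Matrix _ _ ℚ) a j) (fun _ => 0) i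

theorem isRep_std (μ : Type) [Fintype μ] [DecidableEq μ] :
    IsRep (fun y : GL μ ℂ × ℂˣ => y.1) where
  regular := fun i j => ⟨X (Sum.inl (Sum.inl (i, j))), fun y => by rw [aeval_X]; rfl⟩
  mul := fun _ _ => rfl

theorem dsum_inc {R : Type} [CommRing R] (φ : ℚ →+* R) (x : Matrix (Ix g) (Ix g) R)
    (r : Matrix (Fin 0) (Fin 0) R) :
    Matrix.fromBlocks x 0 0 r * (inc g).map φ = (inc g).map φ * x := by
  ext i j
  rcases i with i | i
  · rw [Matrix.mul_apply, Matrix.mul_apply, Fintype.sum_sum_type]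
    simp [inc, Matrix.one_apply]
  · exact Fin.elim0 i

theorem isSub_inc (L : IntermediateField ℚ ℂ) (c : GL (Ix g) ℂ) (r : GL (Fin 0) ℂ) :
    CMM.IsSubOver L ((CMM.dsum c r, tpi) : GL (Ix g ⊕ Fin 0) ℂ × ℂˣ).1 c (inc g) where
  inj := by
    refine ⟨(inc g)ᵀ, ?_⟩
    ext i j
    rw [Matrix.mul_apply, Fintype.sum_sum_type]
    simp [inc, Matrix.one_apply, eq_comm]
  dR := by
    refine ⟨(inc g).map (algebraMap ℚ L), ?_⟩
    have h1 : ((inc g).map (algebraMap ℚ L)).map (algebraMap L ℂ) =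
        (inc g).map (algebraMap ℚ ℂ) := by
      ext i j
      simp
    rw [h1]
    exact dsum_inc (algebraMap ℚ ℂ) c.1 r.1

/-! ## Similitudes -/

/-- A similitude which is compatible with the endomorphisms is a point of the torsor of `LefG`. -/
theorem lefG_of {A : AbData g N} {c : GL (Ix g) ℂ} (hg : 0 < g) {L : IntermediateField ℚ ℂ}
    {ψdR : Matrix (Ix g) (Ix g) L} (hpol : Polarised 1 c ψdR A.psi) {f : GL (Ix g) ℂ}
    (hf : Compat c.1 f.1) {μ : ℂ} (hμ : Mult f ψdR A.psi μ) :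
    ∃ y ∈ CMM.LefG A c, f = y.1 * c := by
  have hm : c.1ᵀ * A.psi.map (fun x => (x : ℂ)) * c.1 =
      (2 * Real.pi * Complex.I) • ψdR.map (fun x => (x : ℂ)) := by
    have h := hpol.2
    rw [Mult, zpow_one] at h
    exact h
  have hμ' : f.1ᵀ * A.psi.map (fun x => (x : ℂ)) * f.1 = μ • ψdR.map (fun x => (x : ℂ)) := hμ
  have htpi := Complex.two_pi_I_ne_zero
  have hcc : c.1 * c⁻¹.1 = 1 := c.mul_inv
  have hcc' : c⁻¹.1 * c.1 = 1 := c.inv_mul
  -- the multiplier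
  have key : (f * c⁻¹).1ᵀ * A.psi.map (fun x => (x : ℂ)) * (f * c⁻¹).1 =
      (μ / (2 * Real.pi * Complex.I)) • A.psi.map (fun x => (x : ℂ)) := by
    have h1 : ψdR.map (fun x => (x : ℂ)) =
        (2 * Real.pi * Complex.I)⁻¹ • (c.1ᵀ * A.psi.map (fun x => (x : ℂ)) * c.1) := by
      rw [hm, smul_smul, inv_mul_cancel₀ htpi, one_smul]
    have h2 : c⁻¹.1ᵀ * c.1ᵀ = 1 := by rw [← Matrix.transpose_mul, hcc, Matrix.transpose_one]
    calc (f * c⁻¹).1ᵀ * A.psi.map (fun x => (x : ℂ)) * (f * c⁻¹).1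
        = c⁻¹.1ᵀ * (f.1ᵀ * A.psi.map (fun x => (x : ℂ)) * f.1) * c⁻¹.1 := by
          rw [Units.val_mul, Matrix.transpose_mul]
          simp only [Matrix.mul_assoc]
      _ = (μ / (2 * Real.pi * Complex.I)) •
          ((c⁻¹.1ᵀ * c.1ᵀ) * A.psi.map (fun x => (x : ℂ)) * (c.1 * c⁻¹.1)) := by
          rw [hμ', h1, smul_smul, Matrix.mul_smul, Matrix.smul_mul, div_eq_mul_inv]
          simp only [Matrix.mul_assoc]
      _ = _ := by rw [h2, hcc, Matrix.one_mul, Matrix.mul_one]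
  have hne : μ / (2 * Real.pi * Complex.I) ≠ 0 := by
    intro h0
    rw [h0, zero_smul] at key
    have : Nonempty (Ix g) := ⟨Sum.inl ⟨0, hg⟩⟩
    have h1 := congrArg Matrix.det key
    rw [Matrix.det_mul, Matrix.det_mul, Matrix.det_transpose, Matrix.det_zero] at h1
    have h2 : (f * c⁻¹).1.det ≠ 0 :=
      ((Matrix.isUnit_iff_isUnit_det _).1 (f * c⁻¹).isUnit).ne_zero
    have h3 : (A.psi.map (fun x => (x : ℂ))).det ≠ 0 := by
      have h4 : A.psi.map (fun x => (x : ℂ)) = A.psi.map (algebraMap ℚ ℂ) := by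
        ext i j
        simp
      rw [h4, ← RingHom.mapMatrix_apply, ← RingHom.map_det]
      exact fun h5 => hpol.1 ((map_eq_zero (algebraMap ℚ ℂ)).1 h5)
    exact mul_ne_zero (mul_ne_zero h2 h3) h2 h1
  refine ⟨(f * c⁻¹, Units.mk0 _ hne), ⟨fun Z hZ => ?_, key⟩, by rw [inv_mul_cancel_right]⟩
  obtain ⟨B', hB', h⟩ := hZ
  have h1 := hf Z B' hB' h
  have h2 : c⁻¹.1 * Z.map (fun x => (x : ℂ)) = B' * c⁻¹.1 := by
    calc c⁻¹.1 * Z.map (fun x => (x : ℂ)) =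
        c⁻¹.1 * (Z.map (fun x => (x : ℂ)) * c.1) * c⁻¹.1 := by
          rw [Matrix.mul_assoc, Matrix.mul_assoc, hcc, Matrix.mul_one]
      _ = (c⁻¹.1 * c.1) * B' * c⁻¹.1 := by
          rw [← h]
          simp only [Matrix.mul_assoc]
      _ = _ := by rw [hcc', Matrix.one_mul]
  change f.1 * c⁻¹.1 * Z.map (fun x => (x : ℂ)) = Z.map (fun x => (x : ℂ)) * (f.1 * c⁻¹.1)
  rw [Matrix.mul_assoc, h2, ← Matrix.mul_assoc, h1, Matrix.mul_assoc]

end MainTM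

open MainTM in
/-- The theorem. -/
theorem mainT_of (hMaink : CMK.SpecMaink) (hRlk : CMK.SpecRlk) (hTypk : CMK.SpecTypk)
    (hTennk : CMK.SpecTennk) (hTenkk : CMK.SpecTenkk)
    (g N : ℕ) (hg : 0 < g) (A : AbData g N) (L : IntermediateField ℚ ℂ) (hL : L ≤ Qbar)
    (hA : A.IsAbVar L) (c : GL (Ix g) ℂ) (hc : c.1 = A.per) :
    (∀ B ∈ EndAlg c.1, A.IsEndo B) ∧
    (GL2Like c.1 A.psi → ∀ F : IntermediateField ℚ ℂ, F ≤ Qbar → ConjOver F c.1 A.psi →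
      ((SepOver F c.1 A.psi ∨
        (∃ S₀ : Set (TPair Qbar (Ix g)), (∀ α ∈ S₀, Fixes c α) ∧
          ∀ f ∈ OmegaS S₀, ∃ y ∈ MT A c, f = y.1 * c) ∧
        ∃ E : Sub, GoodOver F L E ∧ AllTypes A c.1 E) →
      ∀ (k : ℕ) (r : GL (Fin k) ℂ), IsAlg r.1 → ∀ K : IntermediateField ℚ ℂ, K ≤ L →
      ∀ (κ ι : Type) [Fintype κ] [DecidableEq κ] [Fintype ι] [DecidableEq ι]
        (T : GL (Ix g ⊕ Fin k) ℂ × ℂˣ → GL κ ℂ), IsRep T → ∀ (n : GL ι ℂ) (iB : Matrix κ ι ℚ),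
      IsSubOver L (T (dsum c r, tpi)) n iB →
        (∀ y ∈ MT A c, ∃ f : GL ι ℂ, (T (dsum y.1 1, y.2)).1 * iB.map (fun x => (x : ℂ)) =
          iB.map (fun x => (x : ℂ)) * f.1) ∧
        (∀ f ∈ MTSub A c T iB, ∀ h, Conj K (f * n) h →
          h ∈ OmegaDRB K n ∧ (K ≤ F → h ∈ OmegaM K n)) ∧
        ∀ S : Set (TPair K ι), (∀ α ∈ S, Fixes n α) →
          (∀ h ∈ OmegaS S, ∃ f ∈ MTSub A c T iB, Conj K (f * n) h) →
          OmegaDRB K n = OmegaS S ∧ (K ≤ F → OmegaM K n = OmegaS S)) ∧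
      (SepOver F c.1 A.psi →
        ∀ S : Set (TPair L (Ix g)), (∀ α ∈ S, Fixes c α) → Basic A c L ⊆ S →
          OmegaDRB L c = OmegaS S ∧ (L ≤ F → OmegaM L c = OmegaS S))) := by
  obtain ⟨h1, -, -⟩ := CMM.mainR g N hg A L hL hA c hc
  refine ⟨h1, fun hGL F hF hconj' => ?_⟩
  have hconj := conjIn (CMM.tan' L g N A c hL hA hc hGL) hconj'
  have drbF : ∀ (K : IntermediateField ℚ ℂ) (ι : Type) [Fintype ι] [DecidableEq ι] (n : GL ι ℂ),
      ClosedOver F (grp (OmegaDRB K n)) := by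
    intro K ι _ _ n
    rw [Tors.grp_OmegaDRB]
    exact GL2.closedOver_mono bot_le (Tors.closedOver_GdRB K n)
  refine ⟨?_, fun hsep S hS hB => ?_⟩
  · rintro hab k r hr K hK κ ι _ _ _ _ T hT n iB ⟨hinj, idR, hdR⟩
    have hN : CMM.IsSubOver L (T (CMM.dsum c r, tpi)) n iB := by
      refine ⟨hinj, idR, ?_⟩
      rw [castMap]
      exact hdR
    have key : ∀ T' : Set (GL ι ℂ), IsTorsor K T' → n ∈ T' → ClosedOver F (grp T') →
        (∀ y ∈ MT A c, ∃ f : GL ι ℂ, (T (dsum y.1 1, y.2)).1 * iB.map (fun x => (x : ℂ)) =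
          iB.map (fun x => (x : ℂ)) * f.1) ∧
        ∀ f ∈ MTSub A c T iB, ∀ h, Conj K (f * n) h → h ∈ T' := by
      intro T' hT' hn hF'
      rw [mt_eq, mtSub_eq, ← castMap]
      rcases hab with h | ⟨⟨S₀, hS₀, hcut⟩, E, hE, hall⟩
      · obtain ⟨h4, h5⟩ := CMK.mainF_of hMaink hRlk hTypk hTennk hTenkk g N hg A L hL hA c hc hGL F
          hF hconj (CMM.LefG A c) (Or.inl ⟨rfl, sepF h⟩) k r hr K hK κ ι T hT n iB hN T' hT' hn hF'
        refine ⟨fun y hy => h4 y hy.1, ?_⟩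
        rintro f ⟨_, ⟨y, hy, rfl⟩, hf⟩
        exact h5 f ⟨_, ⟨y, hy.1, rfl⟩, hf⟩
      · rw [mt_eq] at hcut
        obtain ⟨hE1, hE2⟩ := goodFL hE
        exact CMK.mainF_of hMaink hRlk hTypk hTennk hTenkk g N hg A L hL hA c hc hGL F
          hF hconj (CMM.MTG A c) (Or.inr ⟨rfl, ⟨S₀, hS₀, hcut⟩, E, hE1, hE2, allTypes hall⟩)
          k r hr K hK κ ι T hT n iB hN T' hT' hn hF'
    obtain ⟨h2, h3⟩ := key _ (Tors.isTorsor_OmegaDRB K n) (Tors.mem_OmegaDRB_self K n) (drbF K ι n)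
    have h4 : K ≤ F → ∀ f ∈ MTSub A c T iB, ∀ h, Conj K (f * n) h → h ∈ OmegaM K n := fun hKF =>
      (key _ (Tors.isTorsor_OmegaM K n) (Tors.mem_OmegaM_self K n)
        (GL2.closedOver_mono hKF (Tors.closedOver_grp (Tors.isTorsor_OmegaM K n)))).2
    refine ⟨h2, fun f hf h hh => ⟨h3 f hf h hh, fun hKF => h4 hKF f hf h hh⟩,
      fun S hS hcov => ⟨?_, fun hKF => ?_⟩⟩
    · refine Set.Subset.antisymm (drb_subset hS) fun h hh => ?_
      obtain ⟨f, hf, hfh⟩ := hcov h hh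
      exact h3 f hf h hfh
    · refine Set.Subset.antisymm ((Tors.OmegaM_subset_OmegaDRB K n).trans (drb_subset hS))
        fun h hh => ?_
      obtain ⟨f, hf, hfh⟩ := hcov h hh
      exact h4 hKF f hf h hfh
  · obtain ⟨ψdR, hpol⟩ := specLEG L g N A c hL hA hc
    have hfix : Fixes c (GL2.polPair ψdR A.psi) :=
      GL2.fixes_of_sim hpol.1 (GL2T.mult_iff.1 hpol.2) (zpow_ne_zero _ Complex.two_pi_I_ne_zero)
    have hp : GL2.polPair ψdR A.psi ∈ S := hB ⟨hfix, Or.inl ⟨_, rfl⟩⟩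
    have hE : endTensors L c ⊆ S := by
      rintro α ⟨hα, n, dR, B, rfl, hB'⟩
      exact hB ⟨hα, Or.inr ⟨n, dR, B, rfl, hB'⟩⟩
    have key : ∀ T' : Set (GL (Ix g) ℂ), IsTorsor L T' → c ∈ T' → ClosedOver F (grp T') →
        OmegaS S ⊆ T' := by
      intro T' hT' hcT hF' f hf
      obtain ⟨f', hff', hf'⟩ := specART L c hL (gal' L g N A c hL hA hc) S hE f hf
      obtain ⟨τ, hτ, e⟩ := GL2T.conj_iff.1 hff'
      obtain ⟨μ, hμ⟩ := GL2.sim_of_fixes hpol.1 (hf _ hp)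
      have hμ' : Mult f' ψdR A.psi (τ μ) := by
        rw [GL2T.mult_iff, e]
        exact GL2.tw_sim hτ hμ
      obtain ⟨y, hy, hyf⟩ := lefG_of hg hpol hf' hμ'
      obtain ⟨-, h5⟩ := CMK.mainF_of hMaink hRlk hTypk hTennk hTenkk g N hg A L hL hA c hc hGL F
        hF hconj (CMM.LefG A c) (Or.inl ⟨rfl, sepF hsep⟩) 0 1 (fun i => Fin.elim0 i) L le_rfl _ _
        (fun y => y.1) (isRep_std _) c (inc g) (isSub_inc L c 1) T' hT' hcT hF'
      refine h5 y.1 ⟨_, ⟨y, hy, rfl⟩, dsum_inc (algebraMap ℚ ℂ) y.1.1 _⟩ f ?_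
      rw [← hyf]
      exact TorsM.conj_symm hff'
    refine ⟨Set.Subset.antisymm (drb_subset hS) (key _ (Tors.isTorsor_OmegaDRB L c)
      (Tors.mem_OmegaDRB_self L c) (drbF L _ c)), fun hLF => ?_⟩
    exact Set.Subset.antisymm ((Tors.OmegaM_subset_OmegaDRB L c).trans (drb_subset hS))
      (key _ (Tors.isTorsor_OmegaM L c) (Tors.mem_OmegaM_self L c)
        (GL2.closedOver_mono hLF (Tors.closedOver_grp (Tors.isTorsor_OmegaM L c))))

end Pool.Agent.Lib.MPf11a48.CMS
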