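import Pool.Agent.Lib.MP_f11a48_ag.CMM.SpecN
import Pool.Agent.Lib.MP_f11a48_ag.CMM.AllN
import Pool.Agent.Lib.MP_f11a48_ag.KF.SpecB

/-!
# Motives of complex multiplication type over a field `K`: the smallest torsor

`A` is an abelian variety over `L ⊆ Qbar` with period matrix `c`, and `T` a torsor over `L` through the
periods whose group is defined over a field `F` (`F = K` for the torsor `Ω_M` of an object over `K`,
`F = ℚ` for `Ω^dRB_M`). The proof of CMMotives (CMM/, U/) for `F = ℚ` uses that the Lie algebra of the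
group of `T` is spanned by rational matrices, so that by Theorem T' (endomorphisms) it generates the
commutant of the endomorphisms. Now the Lie algebra `kk` is only spanned by matrices over `Qbar`; it
generates the commutant by the analytic subgroup theorem for all periods (row 234, `KF.SpecBicQ`). The
rest of the proof is as before, with the Galois group of `F` instead of the Galois group of `ℚ`.

Each module NAME is a file `CMK/Name.lean` with a theorem `specName (other Specs) : SpecName`, own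
lemmas in the namespace `Pool.Agent.Lib.MPf11a48.CMK.NameM`. All theorems of CMM/, U/, K3/, C/ may be
used.
-/

set_option autoImplicit false

namespace Pool.Agent.Lib.MPf11a48.CMK

open Matrix MvPolynomial
open Pool.Agent.Lib.MPf11a48.CM hiding OmegaM
open Pool.Agent.Lib.MPf11a48.GL2T
open Pool.Agent.Lib.MPf11a48.U
open Pool.Agent.Lib.MPf11a48.CMM
open Pool.Agent.Lib.MPf11a48.C (IsRep IsSubObj imG tpi)
open Pool.Agent.Lib.MPf11a48.C.TenM (bd)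
open Pool.Agent.Lib.MPf11a48.Tors (IsTorsor ClosedOver grp OmegaM FixesField)
open Pool.Agent.Lib.MPf11a48.K3 (cx)

/-! ## Definitions -/

/-- `γ` fixes the algebraic numbers in `F`. -/
def OverG (F : IntermediateField ℚ ℂ) (γ : Qbar ≃ₐ[ℚ] Qbar) : Prop :=
  ∀ a : Qbar, (a : ℂ) ∈ F → γ a = a

section

variable {ι : Type} [Fintype ι] [DecidableEq ι]

/-- Some automorphism of `Qbar` over `F` acts on the embeddings of the centre which are not real as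
the complex conjugation. -/
def ConjIn (F : IntermediateField ℚ ℂ) (c : Matrix ι ι ℂ) (ψ : Matrix ι ι ℚ) : Prop :=
  ∃ ρ : Qbar ≃ₐ[ℚ] Qbar, OverG F ρ ∧
    ∀ s : EmbC c, ¬ IsBar ψ s s → IsBar ψ s (ρ.toAlgHom.comp s)

/-- A space of odd functions on the embeddings of the centre, stable under the automorphisms of `Qbar`
over `F` and under `R`, which contains `O`, is `O` or contains a non-zero function
`(δ_s - δ_s̄) - (δ_t - δ_t̄)`. -/
def SepO (F : IntermediateField ℚ ℂ) {c : Matrix ι ι ℂ} (ψ : Matrix ι ι ℚ)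
    (R : Set (CenAlg c ≃ₐ[ℚ] CenAlg c)) (O : Submodule ℚ (EmbC c → ℚ)) : Prop :=
  ∀ U : Submodule ℚ (EmbC c → ℚ), O ≤ U →
    (∀ f ∈ U, ∀ s s', IsBar ψ s s' → f s' = -f s) →
    (∀ γ : Qbar ≃ₐ[ℚ] Qbar, OverG F γ → ∀ f ∈ U, (fun s => f (γ.toAlgHom.comp s)) ∈ U) →
    (∀ κ ∈ R, ∀ f ∈ U, (fun s : EmbC c => f (s.comp κ.toAlgHom)) ∈ U) →
    U ≤ O ∨ ∃ s s' t t' : EmbC c, IsBar ψ s s' ∧ IsBar ψ t t' ∧
      delta s s' - delta t t' ∈ U ∧ delta s s' ≠ delta t t'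

/-- The properties of the Lie algebra `kk` of the group of a torsor over `Qbar` through the periods
`c`, if the group is defined over `F`. -/
structure LieOK (c : GL ι ℂ) (F : IntermediateField ℚ ℂ) (kk : Submodule ℂ (Matrix ι ι ℂ)) :
    Prop where
  inH : ∀ X ∈ kk, InH c X
  br : ∀ X ∈ kk, ∀ Y ∈ kk, X * Y - Y * X ∈ kk
  /-- logarithmic derivatives -/
  log : ∀ δ : Derivation Qbar ℂ ℂ, c.1.map δ * c⁻¹.1 ∈ kk
  tau : ∀ τ : ℂ ≃+* ℂ, FixesField F τ → ∀ X ∈ kk, X.map τ ∈ kk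
  /-- the Lie algebra is algebraic -/
  alg : ∀ (σ : Type) [Fintype σ] [DecidableEq σ] (e : σ → Matrix ι ι ℂ), (∀ s, e s * e s = e s) →
    (∀ s t, s ≠ t → e s * e t = 0) → ∑ s, e s = 1 → ∀ x y : σ → ℂ, ∑ s, x s • e s ∈ kk →
    (∀ χ : σ → ℤ, ∑ s, (χ s : ℂ) * x s = 0 → ∑ s, (χ s : ℂ) * y s = 0) → ∑ s, y s • e s ∈ kk
  /-- BICQ -/
  gen : ∀ x : Matrix ι ι ℂ, (∀ B ∈ EndAlg c.1, x * mC B = mC B * x) →
    x ∈ Algebra.adjoin ℂ (kk : Set (Matrix ι ι ℂ))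

/-- The hypotheses on a space `O` of odd functions: relations which hold on `kk`. -/
structure RelsOK (c : GL ι ℂ) (ψ : Matrix ι ι ℚ) (F : IntermediateField ℚ ℂ) (S : Str c ψ)
    (R : Set (CenAlg c.1 ≃ₐ[ℚ] CenAlg c.1)) (kk : Submodule ℂ (Matrix ι ι ℂ))
    (O : Submodule ℚ (EmbC c.1 → ℚ)) : Prop where
  odd : ∀ f ∈ O, ∀ s s', IsBar ψ s s' → f s' = -f s
  gal : ∀ γ : Qbar ≃ₐ[ℚ] Qbar, OverG F γ → ∀ f ∈ O, (fun s => f (γ.toAlgHom.comp s)) ∈ O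
  act : ∀ κ ∈ R, ∀ f ∈ O, (fun s : EmbC c.1 => f (s.comp κ.toAlgHom)) ∈ O
  rel : ∀ w : EmbC c.1 → ℂ, TORM.cenL S (fun e => w (S.ev e)) ∈ kk → ∀ f ∈ O,
    ∑ s, (f s : ℂ) * w s = 0
  sep : SepO F ψ R O
  conj : ConjIn F c.1 ψ
  bar : ∀ κ ∈ R, ∀ s s' : EmbC c.1, IsBar ψ s s' →
    IsBar ψ (s.comp κ.toAlgHom) (s'.comp κ.toAlgHom)

end

/-- As `FlatOver L E`, but stable under the action of the automorphisms of `Qbar` over `F` on the
values. -/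
def FlatFL (F L : IntermediateField ℚ ℂ) (E : IntermediateField ℚ Qbar) : Prop :=
  ∀ V : Submodule ℚ ((E →ₐ[ℚ] Qbar) → ℚ), V ≠ ⊥ →
    (∀ f ∈ V, ∀ φ φ' : E →ₐ[ℚ] Qbar,
      (∀ x, ((φ' x : Qbar) : ℂ) = (starRingEnd ℂ) ((φ x : Qbar) : ℂ)) → f φ' = -f φ) →
    (∀ γ : Qbar ≃ₐ[ℚ] Qbar, OverG F γ → ∀ f ∈ V, (fun φ => f (γ.toAlgHom.comp φ)) ∈ V) →
    (∀ (γ : Qbar ≃ₐ[ℚ] Qbar) (e : E →ₐ[ℚ] E), OverG L γ →
      (∀ x : E, ((e x : E) : Qbar) = γ x) → ∀ f ∈ V, (fun φ : E →ₐ[ℚ] Qbar => f (φ.comp e)) ∈ V) →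
    ∃ f ∈ V, f ≠ 0 ∧ ∀ φ, f φ = 0 ∨ f φ = 1 ∨ f φ = -1

/-! ## Part 1: the Lie algebra -/

/-- LAL [150 lines] (file Lal.lean): the Lie algebra of a torsor is algebraic (diagonalisable
elements).

Proof. `X = ∑ x_s e_s`, `Y = ∑ y_s e_s`; `exp (t X) = ∑ exp (t x_s) e_s`. By `K3.specCurve` (for the curve
`t ↦ exp (t X)`, see the proof of `specKGrp3` or KU/Tg.lean for the use; `ExpM.deriv_entry` in U/Exp.lean)
`exp (t X) f ∈ T` for all `f ∈ T`. Let `p ∈ van T`, `f ∈ T`, and let `P` be the polynomial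
`P(u) = p((∑ u_s e_s) f)` in the variables `u_s` (`P = ∑_χ a_χ u^χ`). `0 = P(exp (t x)) = ∑_χ a_χ exp (t χ·x)`
for all `t`; the exponentials `exp (t v)` for different `v` are linearly independent (as functions of
`t`: `linearIndependent_monoidHom` for the characters `t ↦ exp (t v)` of `Multiplicative ℂ`), so the sum of
the `a_χ` over all `χ` with `χ·x = v` is `0`, for all `v`. If `χ·x = χ'·x` then `χ·y = χ'·y` (hypothesis for
`χ - χ'`). So `P(exp (t y)) = 0` for all `t`; the derivative at `t = 0` is `tang p f (Y f) = 0`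
(`CurveM.F_deriv` in K3/Curve.lean). -/
def SpecLal : Prop :=
  ∀ {n : Type} [Fintype n] [DecidableEq n] (T : Set (GL n ℂ)), GL2.Geo T →
    ∀ (σ : Type) [Fintype σ] [DecidableEq σ] (e : σ → Matrix n n ℂ), (∀ s, e s * e s = e s) →
    (∀ s t, s ≠ t → e s * e t = 0) → ∑ s, e s = 1 → ∀ x y : σ → ℂ, ∑ s, x s • e s ∈ GL2.lie T →
    (∀ χ : σ → ℤ, ∑ s, (χ s : ℂ) * x s = 0 → ∑ s, (χ s : ℂ) * y s = 0) →
    ∑ s, y s • e s ∈ GL2.lie T

/-- LGK [250 lines] (file Lgk.lean; from LAL, `KF.SpecFLgl`, `KF.SpecBicQ`).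

Proof. `kk` is the set of all `X` with `InH c X` such that there is `m` with `Xᵀ ψ + ψ X = m ψ` and
`lb (fromBlocks X 0 0 0) m ∈ lie T` (`C.TenM.lb`; `ψ = A.psi`, `ψ ≠ 0`: `m` is unique; subspace). `inH`:
clear. `br`: `specLIN`, `GL2.lie_br`. `log`: `specDER`, the multiplier is `δ(2 π i) / (2 π i)`
(`SimM.log_deriv` in U/Sim.lean) and `Geo.deriv_mem` (helper92/Deriv.lean) for the point
`bd (dsum c r, tpi)` (`δ r = 0`). `tau`: `InH c (X.map τ)` (all conditions of `InH` are given by rational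
subspaces: `Tors.spanC_twQ`; `dact s (X.map τ) (τ v) = τ (dact s X v)`), `KF.SpecFLgl`; apply `τ` to
`Xᵀ ψ + ψ X = m ψ`. `alg`: `specALG` gives `InH c Y`, `specSIM` gives `m'` with `Yᵀ ψ + ψ Y = m' ψ`; there
are `s`, `t` with `e_s adj(e_t) ≠ 0` (otherwise `1 = ∑ e_s adj(∑ e_t) = 0`); `adj X + X = m`,
multiplied by `e_s` on the left and by `adj(e_t)` on the right, gives `x_s + x_t = m`, and in the same
way `y_s + y_t = m'`. Apply LAL to the idempotents `lb (fromBlocks (e s) 0 0 0) 0`,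
`lb (fromBlocks 0 0 0 1) 0`, `lb 0 1` and the eigenvalues `(x, 0, m)`, `(y, 0, m')`: a relation
`∑ χ_s x_s + b m = 0` is the relation `∑ χ_s x_s + b x_s + b x_t = 0` of `x`. `gen`: `KF.SpecBicQ`; for
`τ` fixing `Qbar` use `Tors.closedOver_grp` over `Qbar` and `KF.SpecFLgl` (`GL2.closedOver_mono`); `A` is
an abelian variety over `Qbar` as well (there is a lemma for this in U/ or CMM/). The last claim:
`K3.specCurve` for `t ↦ bd (dsum (exp t X) 1, exp (t m))`, at `t = 1`. -/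
def SpecLgk : Prop :=
  ∀ (g N k : ℕ) (A : AbData g N) (c : GL (Ix g) ℂ) (L F : IntermediateField ℚ ℂ), 0 < g →
    L ≤ Qbar → A.IsAbVar L → c.1 = A.per → ∀ r : GL (Fin k) ℂ, IsAlg r.1 →
    ∀ T : Set (GL ((Ix g ⊕ Fin k) ⊕ Unit) ℂ), IsTorsor L T → bd (dsum c r, tpi) ∈ T →
    ClosedOver F (grp T) →
    ∃ kk : Submodule ℂ (Matrix (Ix g) (Ix g) ℂ), LieOK c F kk ∧
      ∀ X ∈ kk, ∀ m : ℂ, Xᵀ * mC A.psi + mC A.psi * X = m • mC A.psi →
        ∀ y : GL (Ix g) ℂ × ℂˣ, y.1.1 = NormedSpace.exp X → (y.2 : ℂ) = Complex.exp m →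
          bd (dsum y.1 1, y.2) ∈ grp T

/-- KSL [100 lines] (file Ksl.lean; uses `U.specGOU`). Proof: as the beginning of the proof of
`specMainn` (CMM/Mainn.lean, `hN1`, `hN2`, `hN3`, `hsl`) with `kk` instead of `InH`: `hN3` is simpler, by
`gen` (`S.mem_range`). -/
def SpecKsl : Prop :=
  ∀ (ι : Type) [Fintype ι] [DecidableEq ι] (c : GL ι ℂ) (J : Matrix ι ι ℝ) (ψ : Matrix ι ι ℚ)
    (F : IntermediateField ℚ ℂ) (S : Str c ψ) (kk : Submodule ℂ (Matrix ι ι ℂ)), HD c J ψ →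
    LieOK c F kk →
    ∀ x : S.κ → Matrix (Fin 2) (Fin 2) ℂ, (∀ k, (x k).trace = 0) → S.Ψ (x, 0) ∈ kk

/-- KND [120 lines] (file Knd.lean; from KSL). Proof: as `TornM.not_delta` (CMM/Torn.lean) and
`TORM.eq_of_agree`, `TORM.decomp` (U/Tor.lean) with `kk` instead of `InH`. In `eq_of_agree`: the set of
all `Ψ(x, y)` with `y s = y t` is a subalgebra which contains `kk`, so by `gen` it contains everything;
apply this to `Ψ (0, Pi.single s 1)`. -/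
def SpecKnd : Prop :=
  ∀ (ι : Type) [Fintype ι] [DecidableEq ι] (c : GL ι ℂ) (J : Matrix ι ι ℝ) (ψ : Matrix ι ι ℚ)
    (F : IntermediateField ℚ ℂ) (S : Str c ψ) (kk : Submodule ℂ (Matrix ι ι ℂ)), HD c J ψ →
    LieOK c F kk → ∀ s s' t t' : EmbC c.1, IsBar ψ s s' → IsBar ψ t t' →
      (∀ w : EmbC c.1 → ℂ, TORM.cenL S (fun e => w (S.ev e)) ∈ kk →
        ∑ i, ((delta s s' - delta t t') i : ℂ) * w i = 0) → delta s s' = delta t t'

/-- RTK [120 lines] (file Rtk.lean; from KSL). The central elements `w` of `kk`: (1) the images under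
`ℚ`-linear forms are in `kk`, (2) rational `w` are stable under the automorphisms over `F`, (3) there is
`m` with `w s + w s̄ = m`, (4) some central element has `m = 1`.

Proof. (1) `alg` for the idempotents `cenL (Pi.single e 1)` (see the end of the proof of
`TornM.mem_of_rel`). (2) Let `σ : ℂ ≃+* ℂ` extend `γ⁻¹` (`AutC.exists_extend_Qbar`, helper17/AutC.lean);
it fixes `F ≤ Qbar` because `γ⁻¹` does. For `z ∈ CenAlg`: `mC z = ∑ s(z) e_s`, `e_s = MainnM.ide S s` (CMM/Mainn.lean), so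
`∑ s(z) e_s = ∑ γ⁻¹(s(z)) σ(e_s)`, and by `MainnM.indep` (as in `conj_CX`) `σ(e_s) = e_{γ⁻¹ s}`. So
`σ(∑ w_s e_s) = ∑ w_s e_{γ⁻¹ s} = ∑ w_{γ s} e_s`. (3) `specSIM` and `TORM.mult_eq`, `TORM.isBar_unique`.
(4) `log` for a `δ` with `δ(2 π i) ≠ 0` (`specSIM`, last part, its proof), `TORM.decomp` with `kk`, and
a multiple. -/
def SpecRtk : Prop :=
  ∀ (ι : Type) [Fintype ι] [DecidableEq ι] [Nonempty ι] (c : GL ι ℂ) (J : Matrix ι ι ℝ)
    (ψ : Matrix ι ι ℚ) (F : IntermediateField ℚ ℂ) (S : Str c ψ)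
    (kk : Submodule ℂ (Matrix ι ι ℂ)), F ≤ Qbar → HD c J ψ → LieOK c F kk →
    (∀ w : EmbC c.1 → ℂ, TORM.cenL S (fun e => w (S.ev e)) ∈ kk → ∀ l : ℂ →ₗ[ℚ] ℚ,
      TORM.cenL S (fun e => ((l (w (S.ev e)) : ℚ) : ℂ)) ∈ kk) ∧
    (∀ w : EmbC c.1 → ℚ, TORM.cenL S (fun e => ((w (S.ev e) : ℚ) : ℂ)) ∈ kk →
      ∀ γ : Qbar ≃ₐ[ℚ] Qbar, OverG F γ →
        TORM.cenL S (fun e => ((w (γ.toAlgHom.comp (S.ev e)) : ℚ) : ℂ)) ∈ kk) ∧
    (∀ w : EmbC c.1 → ℂ, TORM.cenL S (fun e => w (S.ev e)) ∈ kk →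
      ∃ m : ℂ, ∀ s s', IsBar ψ s s' → w s + w s' = m) ∧
    ∃ w : EmbC c.1 → ℂ, TORM.cenL S (fun e => w (S.ev e)) ∈ kk ∧
      ∀ s s', IsBar ψ s s' → w s + w s' = 1

/-- TORK [250 lines] (file Tork.lean; from RTK, KND). The central part.

Proof. Let `𝔥` be the space of all `w` with `cenL (w ∘ ev) ∈ kk`. By RTK (1) it is spanned by its rational
elements (`TornM.mem_of_lin`). Let `ρ` be as in `conj`. For rational `w ∈ 𝔥` with multiplier `m`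
(`w s = m / 2` if `s` is real, and `ρ s` is real if `s` is), `w - w ∘ ρ` is `2 w_odd`,
`w_odd = w - m / 2`: so `w_odd ∈ 𝔥` and `m • 1 ∈ 𝔥` (constant functions); by RTK (4), (1) some rational
`w` has `m ≠ 0`, so the constant functions are in `𝔥` and, for every `w ∈ 𝔥`, `w_odd ∈ 𝔥`. Let `M'` be
the space of all complex odd functions `w` such that `l ∘ w ∘ γ ∈ M` for all `ℚ`-linear `l : ℂ → ℚ` and all
`γ` over `F`, and which are orthogonal to `O` (compare `TornM.M4`). It contains the odd functions in `𝔥`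
(RTK (1), (2), `rel`, `gal` (`sum_gal`)), it is stable under the `γ` over `F` and under `R`
(`TornM.M4_aut`, `M4_gal`, `stable_symm`), and closed under `l` (`M4_rat`). Let `U` be the space of all
rational odd functions orthogonal to `M'`; by `sep` either `U ≤ O`, or
`delta s s' - delta t t' ∈ U`, `≠ 0`; this function is orthogonal to `𝔥` (to the odd functions in `𝔥`, and
to the constant functions because it is odd): a contradiction to KND. So `U ≤ O`. The function of the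
conclusion is `m / 2` times a constant function, which is in `𝔥 ⊆ M`, plus the odd function
`x = (0, y - m / 2)`. If `f` is any rational function orthogonal to `M'` then its odd part
(`(f - f ∘ bar) / 2`, `bar` = the conjugate, `TORM.barE`) is orthogonal to `M'` as well, hence in `U ≤ O`,
and `∑ f x = ∑ f_odd x = 0` by the last hypothesis; so `x ∈ M'` (`TornM.mem_of_rat`), and `M' ≤ M`
(`TornM.mem_of_lin`, `γ = 1`). -/
def SpecTork : Prop :=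
  ∀ (ι : Type) [Fintype ι] [DecidableEq ι] [Nonempty ι] (c : GL ι ℂ) (J : Matrix ι ι ℝ)
    (ψ : Matrix ι ι ℚ) (F : IntermediateField ℚ ℂ) (S : Str c ψ)
    (R : Set (CenAlg c.1 ≃ₐ[ℚ] CenAlg c.1)) (kk : Submodule ℂ (Matrix ι ι ℂ))
    (O : Submodule ℚ (EmbC c.1 → ℚ)), F ≤ Qbar → HD c J ψ → LieOK c F kk →
    RelsOK c ψ F S R kk O →
    ∀ M : Submodule ℂ (EmbC c.1 → ℂ),
      (∀ w : EmbC c.1 → ℂ, TORM.cenL S (fun e => w (S.ev e)) ∈ kk → w ∈ M) →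
      (∀ κ ∈ R, ∀ w ∈ M, (fun s : EmbC c.1 => w (s.comp κ.toAlgHom)) ∈ M) →
      ∀ (m : ℂ) (y : S.σ → ℂ), (∀ s, y s + y (S.τ s) = m) →
        (∀ f ∈ O, ∑ s, (f (S.ev (Sum.inr s)) : ℂ) * y s = 0) →
        (fun s => (Sum.elim (fun _ => m / 2) y : S.κ ⊕ S.σ → ℂ) (S.ev.symm s)) ∈ M

/-! ## Part 2: the group -/

/-- MAINK [200 lines] (file Maink.lean; from TORK, KSL, `CMM.SpecGenr`).

Proof. As `specMainn` (CMM/Mainn.lean), all lemmas of `MainnM` can be used. `M = MM S 𝒢`. The first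
hypothesis on `𝒢` replaces `hexpG`. For `hGENR` take for `Λ` the group of all `χ : σ → ℤ` with
`∑ χ = 0` such that there is `f ∈ O` with `f (ev (inr s)) = χ s - χ (τ s)`: it is saturated, it contains
`e_s + e_{τ s} - e_t - e_{τ t}` (`f = 0`), and if `y s + y (τ s) = m` and `∑ χ y = 0` for all `χ ∈ Λ`, then
`y` is orthogonal to `O`: for `f ∈ O` let `n f` be integral, `χ s = n f (ev (inr s))`; then
`χ s - χ (τ s) = 2 n f`, `∑ χ = 0` (odd), so `χ ∈ Λ`. -/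
def SpecMaink : Prop :=
  ∀ (ι : Type) [Fintype ι] [DecidableEq ι] [Nonempty ι] (c : GL ι ℂ) (J : Matrix ι ι ℝ)
    (ψ : Matrix ι ι ℚ) (F L : IntermediateField ℚ ℂ) (S : Str c ψ)
    (kk : Submodule ℂ (Matrix ι ι ℂ)) (O : Submodule ℚ (EmbC c.1 → ℚ)), F ≤ Qbar → HD c J ψ →
    LieOK c F kk → RelsOK c ψ F S (RGal L c) kk O →
    ∀ 𝒢 : Subgroup (GL ι ℂ × ℂˣ),
      (∀ X ∈ kk, ∀ m : ℂ, Xᵀ * mC ψ + mC ψ * X = m • mC ψ → ∀ y : GL ι ℂ × ℂˣ,
        y.1.1 = NormedSpace.exp X → (y.2 : ℂ) = Complex.exp m → y ∈ 𝒢) →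
      (∀ τ : ℂ ≃+* ℂ, FixesField L τ → ∀ y ∈ 𝒢, (twg τ c * y.1 * (twg τ c)⁻¹, y.2) ∈ 𝒢) →
      ∀ (y : GL ι ℂ × ℂˣ) (u : REPM.EA S.κ S.σ), y.1.1 = S.Ψ u →
        y.1.1ᵀ * mC ψ * y.1.1 = (y.2 : ℂ) • mC ψ →
        (∀ χ : S.σ → ℤ, ∑ s, χ s = 0 →
          (∃ f ∈ O, ∀ s, f (S.ev (Sum.inr s)) = (χ s : ℚ) - χ (S.τ s)) →
          ∏ s, u.2 s ^ χ s = 1) → y ∈ 𝒢

/-- RLK [150 lines] (file Rlk.lean). (1) Similitudes satisfy the even relations. Proof: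
`u.2 s * u.2 (τ s) = y.2` (as `hyy` in the proof of `specMainn`); `χ s = χ (τ s)`; choose one element of
every pair `{s, τ s}`: the `s` with `ev (inr s) ∈ T` (`HalfSet`, last property, and `bar_σ`), so
`∏ u_s ^ χ s = ∏_{s ∈ T} (u_s u_{τ s}) ^ χ s = y.2 ^ (∑_{s ∈ T} χ s)`, and
`2 ∑_{s ∈ T} χ s = ∑ χ s = 0`. (2) The relations between the CM types. Proof: extend `χ` by `0` to
`χ'` on `EmbC` (on the `ev (inl k)`); `HodgeRel`: for every `γ`, `a = ∑_{γ s ∈ T} χ' s`,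
`b = ∑_{γ s ∉ T} χ' s` satisfy `a + b = 0` and `a - b = ∑_{γ s ∈ T} f s = 0` (`HalfSet`; `τ` maps the
`s` with `γ s ∈ T` to the `s` with `γ s ∉ T`, for the `s` which are not real). Then `RelOK` as in
`ReprM.rel_prod` (CMM/Repr.lean) with `u s = u.2`. -/
def SpecRlk : Prop :=
  ∀ (ι : Type) [Fintype ι] [DecidableEq ι] (c : GL ι ℂ) (J : Matrix ι ι ℝ) (ψ : Matrix ι ι ℚ)
    (T : Set (EmbC c.1)) (S : Str c ψ), HD c J ψ → HalfSet ψ T →
    ∀ (y : GL ι ℂ × ℂˣ) (u : REPM.EA S.κ S.σ), y.1.1 = S.Ψ u →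
      y.1.1ᵀ * mC ψ * y.1.1 = (y.2 : ℂ) • mC ψ →
      (∀ χ : S.σ → ℤ, ∑ s, χ s = 0 → (∀ s, χ s = χ (S.τ s)) → ∏ s, u.2 s ^ χ s = 1) ∧
      (RelOK ψ T y.1.1 → ∀ χ : S.σ → ℤ, ∑ s, χ s = 0 →
        (∃ f ∈ OddH ψ T, ∀ s, f (S.ev (Sum.inr s)) = (χ s : ℚ) - χ (S.τ s)) →
        ∏ s, u.2 s ^ χ s = 1)

/-- TYPK [120 lines] (file Typk.lean). Proof: as `specTypn` (CMM/Typn.lean, copy it), with `FlatFL`
instead of `FlatOver`: the space `V` of the functions `F_f` is stable under the `γ` over `F` because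
`U` is. -/
def SpecTypk : Prop :=
  ∀ (ι : Type) [Fintype ι] [DecidableEq ι] (c : Matrix ι ι ℂ) (ψ : Matrix ι ι ℚ)
    (T : Set (EmbC c)) (E : IntermediateField ℚ Qbar) (F L : IntermediateField ℚ ℂ)
    (R : Set (CenAlg c ≃ₐ[ℚ] CenAlg c)), FiniteDimensional ℚ E → HalfSet ψ T → FlatFL F L E →
    (∀ s : EmbC c, ¬ IsBar ψ s s → ∀ σ : Qbar ≃ₐ[ℚ] Qbar, (∀ x ∈ E, σ x = x) →
      (σ.toAlgHom.comp s ∈ T ↔ s ∈ T)) →
    (∀ ξ : Set (E →ₐ[ℚ] Qbar), IsType ξ → ∃ s : EmbC c, ¬ IsBar ψ s s ∧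
      ∀ γ : Qbar ≃ₐ[ℚ] Qbar, γ.toAlgHom.comp s ∈ T ↔ γ.symm.toAlgHom.comp E.val ∈ ξ) →
    (∀ γ : Qbar ≃ₐ[ℚ] Qbar, OverG L γ → ∃ κ ∈ R,
      ∀ s : EmbC c, ((γ.toAlgHom.comp s).comp κ.toAlgHom ∈ T ↔ s ∈ T)) →
    SepO F ψ R (OddH ψ T)

/-! ## Part 3: torsors -/

/-- TENNK [120 lines] (file Tennk.lean; from LGK). Proof: as `specTenn` (CMM/Tenn.lean):
`𝒢 = {y | bd (dsum y.1 1, y.2) ∈ grp T}`; the first property by LGK, the second as there. -/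
def SpecTennk : Prop :=
  ∀ (g N : ℕ) (A : AbData g N) (c : GL (Ix g) ℂ) (L F : IntermediateField ℚ ℂ)
    (𝓖 : Set (GL (Ix g) ℂ × ℂˣ)), 0 < g → L ≤ Qbar → A.IsAbVar L → c.1 = A.per →
    (∀ kk : Submodule ℂ (Matrix (Ix g) (Ix g) ℂ), LieOK c F kk →
      ∀ 𝒢 : Subgroup (GL (Ix g) ℂ × ℂˣ),
      (∀ X ∈ kk, ∀ m : ℂ, Xᵀ * mC A.psi + mC A.psi * X = m • mC A.psi →
        ∀ y : GL (Ix g) ℂ × ℂˣ, y.1.1 = NormedSpace.exp X → (y.2 : ℂ) = Complex.exp m → y ∈ 𝒢) →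
      (∀ τ : ℂ ≃+* ℂ, FixesField L τ → ∀ y ∈ 𝒢, (twg τ c * y.1 * (twg τ c)⁻¹, y.2) ∈ 𝒢) →
      ∀ y ∈ 𝓖, y ∈ 𝒢) →
    ∀ (k : ℕ) (r : GL (Fin k) ℂ), IsAlg r.1 → ∀ T : Set (GL ((Ix g ⊕ Fin k) ⊕ Unit) ℂ),
      IsTorsor L T → bd (dsum c r, tpi) ∈ T → ClosedOver F (grp T) →
      ∀ y ∈ 𝓖, bd ((dsum y.1 1, y.2) * (dsum c r, tpi)) ∈ T

/-- TENKK [150 lines] (file Tenkk.lean). Proof: as `TenkM.ten` (CMM/Tenk.lean) with a torsor `T'`
instead of `OmegaDRB K n`; the group of the preimage `T₁` is closed over `F` (`closedOver_sub` over `F`,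
with the rational matrix `iB` as a matrix over `F`). `T'` is stable under the automorphisms over `K`
(`Tors.ClosedOver.tw_mem`). -/
def SpecTenkk : Prop :=
  ∀ (μ : Type) [Fintype μ] [DecidableEq μ] (W : Set (GL μ ℂ × ℂˣ)) (c : GL μ ℂ)
    (L F : IntermediateField ℚ ℂ), L ≤ Qbar →
    (∀ T : Set (GL (μ ⊕ Unit) ℂ), IsTorsor L T → bd (c, tpi) ∈ T →
      ClosedOver F (grp T) → ∀ y ∈ W, bd (y * (c, tpi)) ∈ T) →
    ∀ (K : IntermediateField ℚ ℂ), K ≤ L → ∀ (κ ι : Type) [Fintype κ] [DecidableEq κ]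
      [Fintype ι] [DecidableEq ι] (T : GL μ ℂ × ℂˣ → GL κ ℂ), IsRep T → ∀ (n : GL ι ℂ)
      (iB : Matrix κ ι ℚ), IsSubOver L (T (c, tpi)) n iB →
      ∀ T' : Set (GL ι ℂ), IsTorsor K T' → n ∈ T' → ClosedOver F (grp T') →
      (∀ y ∈ W, ∃ f : GL ι ℂ,
        (T y).1 * iB.map (algebraMap ℚ ℂ) = iB.map (algebraMap ℚ ℂ) * f.1) ∧
      ∀ f ∈ imG T iB W, ∀ h, Conj K (f * n) h → h ∈ T'

end Pool.Agent.Lib.MPf11a48.CMK
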