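import Pool.Agent.Lib.MP_f11a48_ag.CMK.Spec
import Pool.Agent.Lib.MP_f11a48_ag.CMM.Tenn

/-! # Torsors over `L` through the periods of `h^1(A) ⊕ R` and of the Tate object -/

set_option autoImplicit false

namespace Pool.Agent.Lib.MPf11a48.CMK

open Matrix MvPolynomial
open Pool.Agent.Lib.MPf11a48.CM hiding OmegaM
open Pool.Agent.Lib.MPf11a48.GL2T
open Pool.Agent.Lib.MPf11a48.U
open Pool.Agent.Lib.MPf11a48.CMM
open Pool.Agent.Lib.MPf11a48.C (IsRep IsSubObj imG tpi)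
open Pool.Agent.Lib.MPf11a48.C.TenM (bd)
open Pool.Agent.Lib.MPf11a48.Tors (IsTorsor ClosedOver grp OmegaM FixesField)
open Pool.Agent.Lib.MPf11a48.K3 (cx)

open TennM in
theorem specTennk (hLgk : SpecLgk) : SpecTennk := by
  intro g N A c K F 𝓖 hg hK hA hc h𝓖 k r hr T hT hcT hgrp y hy
  obtain ⟨kk, hkk, hexp⟩ := hLgk g N k A c K F hg hK hA hc r hr T hT hcT hgrp
  have hcT' : bh ((c, r), tpi) ∈ T := hcT
  -- the subgroup
  let φ : GL (Ix g) ℂ × ℂˣ →* (GL (Ix g) ℂ × GL (Fin k) ℂ) × ℂˣ :=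
    { toFun := fun y => ((y.1, 1), y.2)
      map_one' := rfl
      map_mul' := fun x y => by
        refine Prod.ext (Prod.ext rfl ?_) rfl
        change (1 : GL (Fin k) ℂ) = 1 * 1
        group }
  let 𝒢 : Subgroup (GL (Ix g) ℂ × ℂˣ) := (grpS hT).comap (bh.comp φ)
  have h𝒢 : ∀ y, y ∈ 𝒢 ↔ bh ((y.1, 1), y.2) ∈ grp T := fun _ => Iff.rfl
  have h1 : y ∈ 𝒢 := by
    refine h𝓖 kk hkk 𝒢 ?_ ?_ y hy
    · intro X hX m hm x hx hx'
      exact hexp X hX m hm x hx hx'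
    · intro τ hτ x hx
      rw [h𝒢] at hx ⊢
      have h2 : Tors.tw τ (bh ((c, r), tpi)) ∈ T := Tors.ClosedOver.tw_mem hT.closed hτ hcT'
      set w : ℂˣ := Units.map ((τ : ℂ →+* ℂ) : ℂ →* ℂ) tpi
      have h3 : bh ((twg τ c, Tors.tw τ r * r⁻¹), w * tpi⁻¹) ∈ grpS hT := by
        refine ⟨_, h2, _, hcT', ?_⟩
        rw [tw_bh, ← map_inv, ← map_mul]
        rfl
      have hx' : bh ((x.1, (1 : GL (Fin k) ℂ)), x.2) ∈ grpS hT := hx
      have h4 := (grpS hT).mul_mem ((grpS hT).mul_mem h3 hx') ((grpS hT).inv_mem h3)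
      rw [← map_inv, ← map_mul, ← map_mul] at h4
      have h5 : ((twg τ c, Tors.tw τ r * r⁻¹), w * tpi⁻¹) * ((x.1, (1 : GL (Fin k) ℂ)), x.2) *
          ((twg τ c, Tors.tw τ r * r⁻¹), w * tpi⁻¹)⁻¹ =
          ((twg τ c * x.1 * (twg τ c)⁻¹, 1), x.2) := by
        refine Prod.ext (Prod.ext rfl ?_) ?_
        · change (Tors.tw τ r * r⁻¹) * 1 * (Tors.tw τ r * r⁻¹)⁻¹ = 1
          group
        · change (w * tpi⁻¹) * x.2 * (w * tpi⁻¹)⁻¹ = x.2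
          rw [mul_comm (w * tpi⁻¹) x.2, mul_inv_cancel_right]
      rw [h5] at h4
      exact h4
  rw [h𝒢, Tors.mem_grp_iff hT hcT'] at h1
  have h2 : bd ((dsum y.1 1, y.2) * (dsum c r, tpi)) =
      bh ((y.1, (1 : GL (Fin k) ℂ)), y.2) * bh ((c, r), tpi) := by
    rw [map_mul]
    rfl
  rw [h2]
  exact h1

end Pool.Agent.Lib.MPf11a48.CMK
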